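import Pool.Agent.RDF.Ident
import Pool.Agent.Lib_helper5.RDType

/-!
Statements for the Richaud-Degert list: what is to be shown by the eliminations.
-/

namespace Pool.Agent.RDF

open Finset (range)
open Pool.Agent.LibH4 Pool.Agent.LibH4.FA Pool.Agent.Lib_helper5

/-- all the relations of the family `d = (2ak)² - a`, `a = 4A - 1` -/
def FE.All (A k d : ℕ) : Prop :=
  ∀ (q l : ℕ), 0 < q → ∀ [Fact l.Prime], Nat.Coprime q d → ¬ l ∣ 6 → ¬ l ∣ d →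
    ∀ (χ : ZMod q → ZMod l), (∀ x, χ (-x) = - χ x) → (∀ x y, χ (x * y) = χ x * χ y) →
    (∑ u ∈ range q, (u : ZMod l) * χ (u : ZMod q) = 0) →
    ∑ j ∈ range 4, ∑ r ∈ range q, ∑ s ∈ range q,
      χ ((FE.P A k j * (r : ℤ) ^ 2 + FE.R A k j * r * s - FE.S A k j * (s : ℤ) ^ 2 : ℤ) : ZMod q)
        * (3 * ((bZ q r : ZMod l) * bZ q s) - FE.c A k j * b2Z q r) = 0

theorem FE.all {A k d : ℕ} (hA : 1 ≤ A) (hk : 1 ≤ k)
    [IsDomain (QuadraticAlgebra ℤ (FE.w A k) (FE.bb A k))]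
    [UniqueFactorizationMonoid (QuadraticAlgebra ℤ (FE.w A k) (FE.bb A k))]
    (hd : (d : ℤ) = (2 * FE.aa A * k) ^ 2 - FE.aa A) (h8 : d % 8 = 5) : FE.All A k d := by
  intro q l hq _ hcop hl6 hld χ hodd hmul hsum
  exact FE.T5 hA hk hd h8 q l hq hcop hl6 hld χ hodd hmul hsum

/-- the elimination of the two-parameter family: the small primes are inert, hence `455 ∣ k` -/
def StmtElimE : Prop := ∀ (A k d : ℕ), 1 ≤ A → 1 ≤ k → (d : ℤ) = (2 * FE.aa A * k) ^ 2 - FE.aa A →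
  d % 8 = 5 →
  (∀ p : ℕ, p.Prime → p ≠ 2 → p ≤ 19 → (p : ℤ) ≠ FE.aa A → jacobiSym d p = -1) →
  FE.All A k d → FE.aa A ≠ 7 ∧ 455 ∣ k

/-- the elimination of `n² + 2`: discriminant `D = (2n)² + 8` -/
def StmtElimPlus : Prop := ∀ (n D : ℕ), D = (2 * n) ^ 2 + 8 →
  (∀ p : ℕ, p.Prime → p ≠ 2 → p ≤ 37 → jacobiSym D p = -1) → BL.All 2 n D → False

/-- the elimination of `n² - 2`: discriminant `D = (2n)² - 8` -/
def StmtElimMinus : Prop := ∀ (n D : ℕ), D + 8 = (2 * n) ^ 2 →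
  (∀ p : ℕ, p.Prime → p ≠ 2 → p ≤ 37 → jacobiSym D p = -1) → E1.All 2 n D → False

/-- no ghosts: in the two-parameter family with `5`, `7`, `13` inert, `k` is not divisible by
`455` -/
def StmtNoGhost : Prop := ∀ (A k d : ℕ), 1 ≤ A → 1 ≤ k → (d : ℤ) = (2 * FE.aa A * k) ^ 2 - FE.aa A →
  d % 8 = 5 → jacobiSym d 5 = -1 → jacobiSym d 7 = -1 → jacobiSym d 13 = -1 → 455 ∣ k →
  ∀ [IsDomain (QuadraticAlgebra ℤ (FE.w A k) (FE.bb A k))]
    [UniqueFactorizationMonoid (QuadraticAlgebra ℤ (FE.w A k) (FE.bb A k))], False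

end Pool.Agent.RDF
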