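import Pool.Agent.RDF.Sums
import Pool.Agent.RDF.Stmts

/-!
There are no ghosts: in the family `d = (2ak)² - a` the number `k` is not divisible by `455` when
the class number is one.
-/

namespace Pool.Agent.RDF

open Finset (range)
open Pool.Agent.LibH4 Pool.Agent.LibH4.FA Pool.Agent.Lib_helper5

section

variable (n m : ℕ)

/-- the period -/
def QN (n : ℕ) : ℕ := 91 * 5 ^ (n + 1)

instance : NeZero (QN n) := ⟨by unfold QN; positivity⟩

/-- the function `(u/91) u ^ m` modulo `5 ^ (n+1)` -/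
def fn (u : ℤ) : ℤ := chi u * (u ^ m % 5 ^ (n + 1))

/-- its value in the residue ring -/
def FN (u : ℤ) : ZMod (5 ^ (n + 1)) := (chi u : ZMod (5 ^ (n + 1))) * (u : ZMod (5 ^ (n + 1))) ^ m

lemma fn_cast (u : ℤ) : ((fn n m u : ℤ) : ZMod (5 ^ (n + 1))) = FN n m u := by
  unfold fn FN
  push_cast
  congr 1
  have h : (((u ^ m % 5 ^ (n + 1) : ℤ)) : ZMod (5 ^ (n + 1))) = ((u ^ m : ℤ) : ZMod (5 ^ (n + 1))) := by
    rw [ZMod.intCast_eq_intCast_iff_dvd_sub]
    push_cast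
    exact ⟨u ^ m / 5 ^ (n + 1), by have := Int.emod_add_mul_ediv (u ^ m) (5 ^ (n + 1)); linarith⟩
  rw [h]
  push_cast
  rfl

lemma FN_mul (u v : ℤ) : FN n m (u * v) = FN n m u * FN n m v := by
  unfold FN
  rw [chi_mul]
  push_cast
  ring

lemma FN_neg (hm : m % 4 = 2) (u : ℤ) : FN n m (-u) = - FN n m u := by
  have hev : Even m := by rw [Nat.even_iff]; omega
  unfold FN
  rw [chi_neg]
  push_cast
  rw [hev.neg_pow]
  ring

lemma fn_odd (hm : m % 4 = 2) (u : ℤ) : fn n m (-u) = - fn n m u := by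
  have hev : Even m := by rw [Nat.even_iff]; omega
  unfold fn
  rw [chi_neg, hev.neg_pow]
  ring

lemma fn_per (u : ℤ) : fn n m (u + QN n) = fn n m u := by
  unfold fn QN
  have e1 : chi (u + (91 * 5 ^ (n + 1) : ℕ)) = chi u := by
    have := chi_add u (5 ^ (n + 1))
    push_cast
    exact this
  rw [e1]
  congr 1
  apply Int.ModEq.pow
  show (u + ((91 * 5 ^ (n + 1) : ℕ) : ℤ)) % 5 ^ (n + 1) = u % 5 ^ (n + 1)
  push_cast
  rw [Int.add_mul_emod_self_right]

lemma FN_per (u : ℤ) : FN n m (u + QN n) = FN n m u := by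
  rw [← fn_cast, ← fn_cast, fn_per]

lemma FN_congr {u v : ℤ} (h : ((u : ℤ) : ZMod (QN n)) = (v : ZMod (QN n))) :
    FN n m u = FN n m v := by
  rw [← fn_cast, ← fn_cast, ← fz_cast (Q := QN n) (fn_per n m), ← fz_cast (Q := QN n) (fn_per n m), h]

/-- the function on residues -/
def FZ (z : ZMod (QN n)) : ZMod (5 ^ (n + 1)) := FN n m (z.val : ℤ)

lemma FZ_cast (u : ℤ) : FZ n m (u : ZMod (QN n)) = FN n m u := by
  unfold FZ
  apply FN_congr
  push_cast
  exact ZMod.natCast_zmod_val _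

lemma FZ_mul (a : ℤ) (z : ZMod (QN n)) : FZ n m ((a : ZMod (QN n)) * z) = FN n m a * FZ n m z := by
  obtain ⟨u, rfl⟩ := ZMod.intCast_surjective z
  rw [← Int.cast_mul, FZ_cast, FZ_cast, FN_mul]

lemma FZ_neg (hm : m % 4 = 2) (z : ZMod (QN n)) : FZ n m (-z) = - FZ n m z := by
  obtain ⟨u, rfl⟩ := ZMod.intCast_surjective z
  rw [← Int.cast_neg, FZ_cast, FZ_cast, FN_neg n m hm]

lemma fz_castR (z : ZMod (QN n)) : ((fz (QN n) (fn n m) z : ℤ) : ZMod (5 ^ (n + 1))) = FZ n m z := by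
  unfold fz FZ
  rw [fn_cast]

lemma QN_odd : QN n % 2 = 1 := by
  unfold QN
  have : Odd (91 * 5 ^ (n + 1)) := Odd.mul (by decide) (Odd.pow (by decide))
  exact Nat.odd_iff.1 this

/-- the central sum -/
def WW (a : ℤ) : ZMod (5 ^ (n + 1)) :=
  ∑ x : ZMod (QN n), ∑ u : ZMod (QN n),
    FZ n m (u ^ 2 + (a : ZMod (QN n)) * x ^ 2) * ((δ x : ℤ) : ZMod (5 ^ (n + 1)))

/-- the change `y ↦ x + 2y` -/
def eqU (x : ZMod (QN n)) : ZMod (QN n) ≃ ZMod (QN n) where
  toFun y := x + 2 * y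
  invFun u := (((QN n + 1) / 2 : ℕ) : ZMod (QN n)) * (u - x)
  left_inv y := by
    have h := two_half (Q := QN n) (QN_odd n)
    simp only
    linear_combination y * h
  right_inv u := by
    have h := two_half (Q := QN n) (QN_odd n)
    simp only
    linear_combination (u - x) * h

lemma G1_cast (hm : m % 4 = 2) (A : ℕ) :
    FN n m 4 * ((FE.G1 A (QN n) (fn n m) : ℤ) : ZMod (5 ^ (n + 1))) = - WW n m (FE.aa A) := by
  unfold FE.G1 WW
  push_cast
  rw [Finset.mul_sum, ← Finset.sum_neg_distrib]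
  apply Finset.sum_congr rfl
  intro x _
  rw [Finset.mul_sum, ← Finset.sum_neg_distrib,
    ← Equiv.sum_comp (eqU n x) (fun u => -(FZ n m (u ^ 2 + (FE.aa A : ZMod (QN n)) * x ^ 2) *
      ((δ x : ℤ) : ZMod (5 ^ (n + 1)))))]
  apply Finset.sum_congr rfl
  intro y _
  rw [fz_castR]
  simp only [eqU, Equiv.coe_fn_mk]
  have e : ((4 : ℤ) : ZMod (QN n)) * (-(FE.N A x y)) = -((x + 2 * y) ^ 2 + (FE.aa A : ZMod (QN n)) * x ^ 2) := by
    unfold FE.N FE.aa
    push_cast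
    ring
  rw [← mul_assoc, ← FZ_mul, e, FZ_neg n m hm]
  ring

lemma G2_cast (hm : m % 4 = 2) (A : ℕ) (hu : IsUnit ((FE.aa A : ℤ) : ZMod (QN n))) :
    FN n m (4 * FE.aa A) * ((FE.G2 A (QN n) (fn n m) : ℤ) : ZMod (5 ^ (n + 1)))
      = - WW n m (FE.aa A) := by
  obtain ⟨ua, hua⟩ := hu
  have h1 : FN n m (4 * FE.aa A) * ((FE.G2 A (QN n) (fn n m) : ℤ) : ZMod (5 ^ (n + 1)))
      = ∑ x : ZMod (QN n), ∑ u : ZMod (QN n),
        -(FZ n m (((ua : ZMod (QN n)) * x) ^ 2 + (FE.aa A : ZMod (QN n)) * u ^ 2)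
          * ((δ u : ℤ) : ZMod (5 ^ (n + 1)))) := by
    unfold FE.G2
    push_cast
    rw [Finset.mul_sum]
    apply Finset.sum_congr rfl
    intro x _
    rw [Finset.mul_sum,
      ← Equiv.sum_comp (eqU n x) (fun u => -(FZ n m (((ua : ZMod (QN n)) * x) ^ 2 +
        (FE.aa A : ZMod (QN n)) * u ^ 2) * ((δ u : ℤ) : ZMod (5 ^ (n + 1)))))]
    apply Finset.sum_congr rfl
    intro y _
    rw [fz_castR]
    simp only [eqU, Equiv.coe_fn_mk]
    have e : ((4 * FE.aa A : ℤ) : ZMod (QN n)) * (-(FE.N A x y))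
        = -(((ua : ZMod (QN n)) * x) ^ 2 + (FE.aa A : ZMod (QN n)) * (x + 2 * y) ^ 2) := by
      rw [hua]
      unfold FE.N FE.aa
      push_cast
      ring
    rw [← mul_assoc, ← FZ_mul, e, FZ_neg n m hm]
    ring
  rw [h1, Finset.sum_comm]
  unfold WW
  rw [← Finset.sum_neg_distrib]
  apply Finset.sum_congr rfl
  intro u _
  rw [← Finset.sum_neg_distrib,
    ← Equiv.sum_comp (Units.mulLeft ua) (fun z => -(FZ n m (z ^ 2 + (FE.aa A : ZMod (QN n)) * u ^ 2)
      * ((δ u : ℤ) : ZMod (5 ^ (n + 1)))))]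
  rfl

lemma chi_mod91 (u : ℕ) (c : ℤ) : chi (((u % 91 : ℕ) : ℤ) ^ 2 + c) = chi ((u : ℤ) ^ 2 + c) := by
  have hu : ((u % 91 : ℕ) : ℤ) = u - 91 * ((u / 91 : ℕ) : ℤ) := by omega
  rw [hu, ← chi_add ((u : ℤ) ^ 2 + c) (-2 * u * ((u / 91 : ℕ) : ℤ) + 91 * ((u / 91 : ℕ) : ℤ) ^ 2)]
  congr 1
  ring

lemma WW_eq (hm : m % 4 = 2) (a : ℤ) (h7 : ¬ (7 : ℤ) ∣ a) (h13 : ¬ (13 : ℤ) ∣ a) :
    WW n m a = ((-8064 * 5 ^ n : ℤ) : ZMod (5 ^ (n + 1))) := by
  have hc : Nat.Coprime 91 (5 ^ (n + 1)) := Nat.Coprime.pow_right _ (by norm_num)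
  -- the inner sum
  have inner : ∀ x : ℕ, ∑ u : ZMod (QN n), FZ n m (u ^ 2 + (a : ZMod (QN n)) * (x : ZMod (QN n)) ^ 2)
      = ((-(((if 7 ∣ x then 6 else -1) * (if 13 ∣ x then 12 else -1)) * 5 ^ n) : ℤ) :
        ZMod (5 ^ (n + 1))) := by
    intro x
    rw [← sum_range_zmod (fun u : ZMod (QN n) => FZ n m (u ^ 2 + (a : ZMod (QN n)) * (x : ZMod (QN n)) ^ 2))]
    have e1 : ∀ u ∈ range (QN n), FZ n m ((u : ZMod (QN n)) ^ 2 + (a : ZMod (QN n)) * (x : ZMod (QN n)) ^ 2)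
        = ((chi (((u % 91 : ℕ) : ℤ) ^ 2 + a * x ^ 2) : ℤ) : ZMod (5 ^ (n + 1))) *
          ((((u % 5 ^ (n + 1) : ℕ) : ℤ) ^ 2 + a * x ^ 2 : ℤ) : ZMod (5 ^ (n + 1))) ^ m := by
      intro u _
      have e2 : ((u : ZMod (QN n)) ^ 2 + (a : ZMod (QN n)) * (x : ZMod (QN n)) ^ 2)
          = (((u : ℤ) ^ 2 + a * x ^ 2 : ℤ) : ZMod (QN n)) := by push_cast; ring
      rw [e2, FZ_cast]
      unfold FN
      rw [chi_mod91]
      congr 2
      rw [Int.cast_add, Int.cast_add, Int.cast_pow, Int.cast_pow, Int.cast_natCast, Int.cast_natCast,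
        ZMod.natCast_mod]
    rw [Finset.sum_congr rfl e1]
    unfold QN
    rw [crt_sum (by norm_num) (by positivity) hc
      (fun i => ((chi ((i : ℤ) ^ 2 + a * x ^ 2) : ℤ) : ZMod (5 ^ (n + 1))))
      (fun j => (((j : ℤ) ^ 2 + a * x ^ 2 : ℤ) : ZMod (5 ^ (n + 1))) ^ m)]
    have e3 : ∑ i ∈ range 91, ((chi ((i : ℤ) ^ 2 + a * x ^ 2) : ℤ) : ZMod (5 ^ (n + 1)))
        = (((if 7 ∣ x then 6 else -1) * (if 13 ∣ x then 12 else -1) : ℤ) : ZMod (5 ^ (n + 1))) := by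
      rw [← Int.cast_sum, chi_sum]
      have d7 : ((7 : ℤ) ∣ a * x ^ 2) ↔ 7 ∣ x := by
        have p7 : Prime (7 : ℤ) := by norm_num
        rw [p7.dvd_mul, or_iff_right h7, p7.dvd_pow_iff_dvd (by norm_num)]
        norm_cast
      have d13 : ((13 : ℤ) ∣ a * x ^ 2) ↔ 13 ∣ x := by
        have p13 : Prime (13 : ℤ) := by norm_num
        rw [p13.dvd_mul, or_iff_right h13, p13.dvd_pow_iff_dvd (by norm_num)]
        norm_cast
      simp only [d7, d13]
    have e4 : ∑ j ∈ range (5 ^ (n + 1)), (((j : ℤ) ^ 2 + a * x ^ 2 : ℤ) : ZMod (5 ^ (n + 1))) ^ m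
        = ((-(5 ^ n) : ℤ) : ZMod (5 ^ (n + 1))) := by
      have h := sum_pow (a * x ^ 2) hm n
      have h2 : ((∑ j ∈ range (5 ^ (n + 1)), ((j : ℤ) ^ 2 + a * x ^ 2) ^ m + 5 ^ n : ℤ) :
          ZMod (5 ^ (n + 1))) = 0 := by
        rw [ZMod.intCast_zmod_eq_zero_iff_dvd]
        push_cast
        exact h
      rw [Int.cast_add, Int.cast_sum] at h2
      rw [Int.cast_neg, ← sub_eq_zero, sub_neg_eq_add, ← h2]
      congr 1
      apply Finset.sum_congr rfl
      intro j _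
      push_cast
      rfl
    rw [e3, e4, ← Int.cast_mul]
    congr 1
    ring
  -- the outer sum
  have outer : WW n m a = ((-(5 ^ n) * ∑ x ∈ range (QN n), bt (QN n) x *
      ((if 7 ∣ x then 6 else -1) * (if 13 ∣ x then 12 else -1)) : ℤ) : ZMod (5 ^ (n + 1))) := by
    unfold WW
    rw [← sum_range_zmod (fun x : ZMod (QN n) => ∑ u : ZMod (QN n),
      FZ n m (u ^ 2 + (a : ZMod (QN n)) * x ^ 2) * ((δ x : ℤ) : ZMod (5 ^ (n + 1))))]
    rw [Finset.mul_sum, Int.cast_sum]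
    apply Finset.sum_congr rfl
    intro x hx
    rw [← Finset.sum_mul, inner x]
    have e : δ (x : ZMod (QN n)) = bt (QN n) x := by
      unfold δ
      rw [ZMod.val_cast_of_lt (Finset.mem_range.1 hx)]
    rw [e, ← Int.cast_mul]
    congr 1
    ring
  rw [outer]
  congr 1
  have hval : ∑ x ∈ range (QN n), bt (QN n) x *
      ((if 7 ∣ x then 6 else -1) * (if 13 ∣ x then 12 else -1)) = 8064 := by
    have q7 : QN n = 7 * (13 * 5 ^ (n + 1)) := by unfold QN; ring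
    have q13 : QN n = 13 * (7 * 5 ^ (n + 1)) := by unfold QN; ring
    have q91 : QN n = 91 * 5 ^ (n + 1) := rfl
    have o5 : (5 ^ (n + 1)) % 2 = 1 := Nat.odd_iff.1 (Odd.pow (by decide))
    have s7 := bt_sum_dvd (t := 7) (Q := 13 * 5 ^ (n + 1)) (by norm_num) (by
      rw [Nat.mul_mod, o5])
    have s13 := bt_sum_dvd (t := 13) (Q := 7 * 5 ^ (n + 1)) (by norm_num) (by
      rw [Nat.mul_mod, o5])
    have s91 := bt_sum_dvd (t := 91) (Q := 5 ^ (n + 1)) (by norm_num) o5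
    have s1 := bt_sum (QN_odd n)
    rw [← q7] at s7
    rw [← q13] at s13
    rw [← q91] at s91
    have e : ∀ x : ℕ, bt (QN n) x * ((if 7 ∣ x then (6 : ℤ) else -1) * (if 13 ∣ x then 12 else -1))
        = bt (QN n) x - 7 * (if 7 ∣ x then bt (QN n) x else 0)
          - 13 * (if 13 ∣ x then bt (QN n) x else 0) + 91 * (if 91 ∣ x then bt (QN n) x else 0) := by
      intro x
      have h91 : 91 ∣ x ↔ 7 ∣ x ∧ 13 ∣ x := by omega
      by_cases h1 : 7 ∣ x <;> by_cases h2 : 13 ∣ x <;> simp [h91, h1, h2] <;> ring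
    simp only [e, Finset.sum_add_distrib, Finset.sum_sub_distrib, ← Finset.mul_sum]
    rw [s7, s13, s91, s1]
    norm_num
  rw [hval]
  ring

/-- the half sum of the product vanishes -/
lemma HH_cast (d : ℕ) (h : (5 : ℤ) ^ (n + 1) ∣ Hs (n + 1) m) :
    ((HH (QN n) d (fun x => fn n m (4 * x)) : ℤ) : ZMod (5 ^ (n + 1))) = 0 := by
  have h0 : ∑ r ∈ range ((QN n + 1) / 2), FN n m r = 0 := by
    have h1 : ((Hs (n + 1) m : ℤ) : ZMod (5 ^ (n + 1))) = 0 := by
      rw [ZMod.intCast_zmod_eq_zero_iff_dvd]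
      push_cast
      exact h
    rw [← h1]
    unfold Hs QN FN
    push_cast
    rfl
  unfold HH
  push_cast
  have e : ∀ r ∈ range ((QN n + 1) / 2), ∑ s ∈ range ((QN n * d + 1) / 2),
      ((fn n m (4 * ((r : ℤ) * s)) : ℤ) : ZMod (5 ^ (n + 1))) * ((jacobiSym s d : ℤ) : ZMod (5 ^ (n + 1)))
      = FN n m r * ∑ s ∈ range ((QN n * d + 1) / 2),
        FN n m 4 * FN n m s * ((jacobiSym s d : ℤ) : ZMod (5 ^ (n + 1))) := by
    intro r _
    rw [Finset.mul_sum]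
    apply Finset.sum_congr rfl
    intro s _
    rw [fn_cast, FN_mul, FN_mul]
    ring
  rw [Finset.sum_congr rfl e, ← Finset.sum_mul, h0, zero_mul]

end

lemma T7_eq_jac (u : ℤ) : T7 (u : ZMod 7) = jacobiSym u 7 := by
  have h : ∀ r : ℤ, 0 ≤ r → r < 7 → T7 (r : ZMod 7) = jacobiSym r 7 := by
    intro r h1 h2
    interval_cases r <;> norm_num <;> decide
  have h1 := h (u % 7) (Int.emod_nonneg _ (by norm_num)) (Int.emod_lt_of_pos _ (by norm_num))
  rw [jacobiSym.mod_left u 7]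
  push_cast
  rw [← h1]
  congr 1
  rw [ZMod.intCast_eq_intCast_iff_dvd_sub]
  exact ⟨-(u / 7), by push_cast; omega⟩

lemma T13_eq_jac (u : ℤ) : T13 (u : ZMod 13) = jacobiSym u 13 := by
  have h : ∀ r : ℤ, 0 ≤ r → r < 13 → T13 (r : ZMod 13) = jacobiSym r 13 := by
    intro r h1 h2
    interval_cases r <;> norm_num <;> decide
  have h1 := h (u % 13) (Int.emod_nonneg _ (by norm_num)) (Int.emod_lt_of_pos _ (by norm_num))
  rw [jacobiSym.mod_left u 13]
  push_cast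
  rw [← h1]
  congr 1
  rw [ZMod.intCast_eq_intCast_iff_dvd_sub]
  exact ⟨-(u / 13), by push_cast; omega⟩

/-- **no ghosts** -/
theorem noGhost : StmtNoGhost := by
  intro A k d hA hk hd h8 j5 j7 j13 h455 _ _
  -- `k = Q k'`
  obtain ⟨e, k1, hk1, hke⟩ := Nat.exists_eq_pow_mul_and_not_dvd (by omega : k ≠ 0) 5 (by norm_num)
  have he : e ≠ 0 := by
    rintro rfl
    rw [pow_zero, one_mul] at hke
    exact hk1 (by rw [← hke]; omega)
  obtain ⟨n, rfl⟩ : ∃ n, e = n + 1 := ⟨e - 1, by omega⟩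
  have h91 : 91 ∣ k1 := by
    have h1 : 91 ∣ 5 ^ (n + 1) * k1 := by rw [← hke]; omega
    exact (Nat.Coprime.pow_right (n + 1) (by norm_num : Nat.Coprime 91 5)).dvd_of_dvd_mul_left h1
  obtain ⟨k', rfl⟩ := h91
  have hkQ : k = QN n * k' := by rw [hke]; unfold QN; ring
  have hk5 : ¬ (5 : ℤ) ∣ k' := by
    intro h
    apply hk1
    have : 5 ∣ k' := by exact_mod_cast h
    exact this.mul_left 91
  -- residues of `a`
  obtain ⟨a, ha⟩ : ∃ a : ℤ, a = FE.aa A := ⟨_, rfl⟩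
  rw [← ha] at hd
  have hda : ∀ p : ℕ, p ∣ k → jacobiSym d p = jacobiSym (-a) p := by
    intro p hp
    obtain ⟨t, ht⟩ := hp
    rw [hd]
    apply jacobiSym.mod_left'
    rw [ht]
    push_cast
    rw [show ((2 * a * ((p : ℤ) * t)) ^ 2 - a) = -a + p * (p * (2 * a * t) ^ 2) by ring]
    rw [Int.add_mul_emod_self_left]
  have p5 : 5 ∣ k := by omega
  have p7 : 7 ∣ k := by omega
  have p13 : 13 ∣ k := by omega
  rw [hda 5 p5] at j5
  rw [hda 7 p7] at j7
  rw [hda 13 p13] at j13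
  have a7 : ¬ (7 : ℤ) ∣ a := by
    intro h
    rw [jacobiSym.mod_left, Int.emod_eq_zero_of_dvd (by push_cast; exact (dvd_neg).2 h)] at j7
    norm_num at j7
  have a13 : ¬ (13 : ℤ) ∣ a := by
    intro h
    rw [jacobiSym.mod_left, Int.emod_eq_zero_of_dvd (by push_cast; exact (dvd_neg).2 h)] at j13
    norm_num at j13
  have chia : chi a = -1 := by
    rw [← T7_eq_jac] at j7
    rw [← T13_eq_jac] at j13
    push_cast at j7 j13
    rw [T7_neg] at j7
    rw [T13_neg] at j13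
    unfold chi
    rw [j13]
    linarith
  have a5 : a % 5 = 2 ∨ a % 5 = 3 := by
    rw [jacobiSym.mod_left] at j5
    have h5 : (-a) % ((5 : ℕ) : ℤ) = 0 ∨ (-a) % ((5 : ℕ) : ℤ) = 1 ∨ (-a) % ((5 : ℕ) : ℤ) = 2 ∨
        (-a) % ((5 : ℕ) : ℤ) = 3 ∨ (-a) % ((5 : ℕ) : ℤ) = 4 := by push_cast; omega
    rcases h5 with h | h | h | h | h
    · rw [h] at j5; norm_num at j5
    · rw [h] at j5; norm_num at j5
    · push_cast at h; omega
    · push_cast at h; omega
    · rw [h] at j5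
      norm_num at j5
  have hu : IsUnit ((FE.aa A : ℤ) : ZMod (QN n)) := by
    rw [← ha, ZMod.coe_int_isUnit_iff_isCoprime]
    unfold QN
    have c7 : IsCoprime (7 : ℤ) a := by
      have p : Prime (7 : ℤ) := by norm_num
      exact (Prime.coprime_iff_not_dvd p).2 a7
    have c13 : IsCoprime (13 : ℤ) a := by
      have p : Prime (13 : ℤ) := by norm_num
      exact (Prime.coprime_iff_not_dvd p).2 a13
    have c5 : IsCoprime (5 : ℤ) a := by
      have p : Prime (5 : ℤ) := by norm_num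
      exact (Prime.coprime_iff_not_dvd p).2 (by omega)
    push_cast
    have c91 : IsCoprime (91 : ℤ) a := by
      have := c7.mul_left c13
      norm_num at this
      exact this
    exact c91.mul_left (c5.pow_left)
  have hcop : Nat.Coprime (QN n) d := by
    have h1 : IsCoprime ((QN n : ℕ) : ℤ) (d : ℤ) := by
      rw [hd, hkQ]
      have h2 : IsCoprime ((QN n : ℕ) : ℤ) (-a) := by
        rw [← ha, ZMod.coe_int_isUnit_iff_isCoprime] at hu
        exact hu.neg_right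
      have e3 : (2 * a * ((QN n * k' : ℕ) : ℤ)) ^ 2 - a
          = -a + (QN n : ℤ) * ((QN n : ℤ) * (2 * a * k') ^ 2) := by push_cast; ring
      rw [e3]
      exact h2.add_mul_left_right _
    exact Nat.isCoprime_iff_coprime.1 h1
  -- the exponent
  obtain ⟨m, hm, -, hz⟩ := exists_zero n
  rw [ha] at hd
  have key := FE.ghost_identity hA hk hd h8 (QN_odd n) hcop hkQ (fn n m) (fn_per n m) (fn_odd n m hm)
  have key2 := congrArg (Int.cast : ℤ → ZMod (5 ^ (n + 1))) key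
  rw [HH_cast n m d hz] at key2
  push_cast at key2
  have g1 := G1_cast n m hm A
  have g2 := G2_cast n m hm A hu
  rw [FN_mul] at g2
  have hW := WW_eq n m hm (FE.aa A) (by rw [← ha]; exact a7) (by rw [← ha]; exact a13)
  have fin : ((k' : ℤ) : ZMod (5 ^ (n + 1))) * ((FE.aa A : ZMod (5 ^ (n + 1))) * FN n m (FE.aa A) + 1)
      * WW n m (FE.aa A) = 0 := by
    push_cast
    linear_combination (FN n m 4 * FN n m (FE.aa A)) * key2
      + (k' : ZMod (5 ^ (n + 1))) * (FE.aa A : ZMod (5 ^ (n + 1))) * FN n m (FE.aa A) * g1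
      + (k' : ZMod (5 ^ (n + 1))) * g2
  rw [hW] at fin
  unfold FN at fin
  rw [← ha, chia] at fin
  have fin2 : (((k' : ℤ) * (a * (-1 * a ^ m) + 1) * (-8064 * 5 ^ n) : ℤ) : ZMod (5 ^ (n + 1))) = 0 := by
    rw [← fin]
    push_cast
    ring
  rw [ZMod.intCast_zmod_eq_zero_iff_dvd] at fin2
  push_cast at fin2
  have fin3 : (5 : ℤ) ∣ (k' : ℤ) * (a * (-1 * a ^ m) + 1) * (-8064) := by
    obtain ⟨t, ht⟩ := fin2
    refine ⟨t, ?_⟩
    have h5 : (5 : ℤ) ^ n ≠ 0 := by positivity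
    apply mul_right_cancel₀ h5
    rw [show (5 : ℤ) * t * 5 ^ n = 5 ^ (n + 1) * t by ring, ← ht]
    ring
  have hp5 : Prime (5 : ℤ) := by norm_num
  rcases hp5.dvd_or_dvd fin3 with h | h
  · rcases hp5.dvd_or_dvd h with h | h
    · exact hk5 h
    · -- `a (-a^m) + 1` is `a + 1` modulo five
      have h4 : (5 : ℤ) ∣ a ^ m + 1 := by
        obtain ⟨i, hi⟩ : ∃ i, m = 2 + 4 * i := ⟨m / 4, by omega⟩
        have h6 : ((a ^ m + 1 : ℤ) : ZMod 5) = 0 := by
          push_cast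
          have h7 : (a : ZMod 5) = 2 ∨ (a : ZMod 5) = 3 := by
            have h8 : (a : ZMod 5) = ((a % 5 : ℤ) : ZMod 5) := by
              rw [ZMod.intCast_eq_intCast_iff_dvd_sub]
              exact ⟨-(a / 5), by push_cast; omega⟩
            rw [h8]
            rcases a5 with h | h <;> rw [h]
            · left; rfl
            · right; rfl
          rw [hi, pow_add, pow_mul]
          rcases h7 with h | h
          · rw [h, show ((2 : ZMod 5) ^ 4) = 1 by decide, one_pow]; decide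
          · rw [h, show ((3 : ZMod 5) ^ 4) = 1 by decide, one_pow]; decide
        exact_mod_cast (ZMod.intCast_zmod_eq_zero_iff_dvd _ 5).1 h6
      have h9 : (5 : ℤ) ∣ a + 1 := by
        have h10 := dvd_add h (h4.mul_left a)
        have e : a * (-1 * a ^ m) + 1 + a * (a ^ m + 1) = a + 1 := by ring
        rwa [e] at h10
      omega
  · norm_num at h

end Pool.Agent.RDF
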