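import Pool.Agent.Lib_helper5.EvenBL

/-!
The family `d = (2ak)² - a`, `a = 4A - 1`: the cycle of forms.
-/

namespace Pool.Agent.RDF.FE

open Finset (range)
open Pool.Agent.LibH4 Pool.Agent.LibH4.FA Pool.Agent.Lib_helper5

/-- `a = 4A - 1` -/
def aa (A : ℕ) : ℤ := 4 * A - 1

/-- `w = ak - A` -/
def w (A k : ℕ) : ℤ := aa A * k - A

/-- `B = 2ak - 1` -/
def bb (A k : ℕ) : ℤ := 2 * aa A * k - 1

/-- the first coefficients -/
def P (A k : ℕ) : ℕ → ℤ
  | 1 => 1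
  | 3 => aa A
  | _ => w A k

/-- the middle coefficients -/
def R (A k : ℕ) : ℕ → ℤ
  | 2 => 2 * aa A * k - aa A
  | 3 => 2 * aa A * k - aa A
  | _ => bb A k

/-- the last coefficients -/
def S (A k : ℕ) : ℕ → ℤ
  | 0 => 1
  | 2 => aa A
  | 4 => 1
  | _ => w A k

/-- the multipliers -/
def c (A k : ℕ) : ℕ → ℕ
  | 0 => 2 * (4 * A - 1) * k - 1
  | 2 => 2 * k - 1
  | _ => 2

variable {A k : ℕ}

lemma cast_aa (hA : 1 ≤ A) : ((4 * A - 1 : ℕ) : ℤ) = aa A := by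
  unfold aa
  have : 1 ≤ 4 * A := by omega
  rw [Nat.cast_sub this]
  push_cast
  ring

lemma cast_c0 (hA : 1 ≤ A) (hk : 1 ≤ k) : ((2 * (4 * A - 1) * k - 1 : ℕ) : ℤ) = bb A k := by
  have h1 : 1 ≤ 2 * (4 * A - 1) * k := by
    have : 1 ≤ 4 * A - 1 := by omega
    nlinarith
  rw [Nat.cast_sub h1]
  push_cast
  rw [cast_aa hA]
  unfold bb
  ring

lemma cast_c2 (hk : 1 ≤ k) : ((2 * k - 1 : ℕ) : ℤ) = 2 * k - 1 := by
  rw [Nat.cast_sub (by omega)]
  push_cast
  ring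

lemma aa_pos (hA : 1 ≤ A) : 3 ≤ aa A := by
  unfold aa
  have : (1 : ℤ) ≤ A := by exact_mod_cast hA
  linarith

lemma w_pos (hA : 1 ≤ A) (hk : 1 ≤ k) : 2 ≤ w A k := by
  have h1 : (1 : ℤ) ≤ A := by exact_mod_cast hA
  have h2 : (1 : ℤ) ≤ k := by exact_mod_cast hk
  unfold w aa
  nlinarith

lemma bb_pos (hA : 1 ≤ A) (hk : 1 ≤ k) : 5 ≤ bb A k := by
  have h1 : (1 : ℤ) ≤ A := by exact_mod_cast hA
  have h2 : (1 : ℤ) ≤ k := by exact_mod_cast hk
  unfold bb aa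
  nlinarith

lemma disc (A k : ℕ) : bb A k ^ 2 + 4 * w A k = (2 * aa A * k) ^ 2 - aa A := by
  unfold bb w aa
  ring

lemma cyc (hA : 1 ≤ A) (hk : 1 ≤ k) :
    CG.CycM (w A k) (bb A k) 4 (P A k) (R A k) (S A k) (c A k) where
  hP j hj := by
    interval_cases j <;> simp [P, S]
  hR j hj := by
    interval_cases j <;> simp only [R, S, c, w]
    · rw [cast_c0 hA hk]; ring
    · push_cast; unfold bb aa; ring
    · rw [cast_c2 hk]; unfold aa; ring
    · push_cast; unfold bb aa; ring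
  hS j hj := by
    interval_cases j <;> simp only [P, R, S, c, w]
    · rw [cast_c0 hA hk]; ring
    · push_cast; unfold bb aa; ring
    · rw [cast_c2 hk]; unfold aa; ring
    · push_cast; unfold aa; ring
  P0 := rfl
  R0 := rfl
  S0 := rfl
  Spos j hj := by
    have := w_pos hA hk
    have := aa_pos hA
    interval_cases j <;> simp only [S] <;> omega
  Ppos0 := by
    have := w_pos hA hk
    simp only [P]; omega
  cpos j hj := by
    have h1 : 3 ≤ 4 * A - 1 := by omega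
    have : 3 * 1 ≤ (4 * A - 1) * k := Nat.mul_le_mul h1 hk
    have h2 : 2 * (4 * A - 1) * k = 2 * ((4 * A - 1) * k) := by ring
    interval_cases j <;> simp only [c] <;> omega
  Pm := rfl
  RB := rfl
  S1 := rfl

lemma re_two (m B : ℤ) : (2 : QuadraticAlgebra ℤ m B).re = 2 := by
  have h : (2 : QuadraticAlgebra ℤ m B) = ((2 : ℕ) : QuadraticAlgebra ℤ m B) := by norm_num
  rw [h, QuadraticAlgebra.re_natCast]
  norm_num

lemma im_two (m B : ℤ) : (2 : QuadraticAlgebra ℤ m B).im = 0 := by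
  have h : (2 : QuadraticAlgebra ℤ m B) = ((2 : ℕ) : QuadraticAlgebra ℤ m B) := by norm_num
  rw [h, QuadraticAlgebra.im_natCast]

lemma closing (hA : 1 ≤ A) (hk : 1 ≤ k) :
    CG.rho (w A k) (bb A k) (c A k) 4 =
      CG.rho (w A k) (bb A k) (c A k) (4 + 1) * CG.om (w A k) (bb A k) := by
  have e2 : CG.rho (w A k) (bb A k) (c A k) 2 = ⟨-(bb A k), 1⟩ := by
    rw [CG.rho_add _ 0, CG.rho_zero, CG.rho_one]
    have := cast_c0 hA hk
    ext
    · simp [CG.om, c, this]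
    · simp [CG.om, c]
  have e3 : CG.rho (w A k) (bb A k) (c A k) 3 = ⟨1 + 2 * bb A k, -2⟩ := by
    rw [CG.rho_add _ 1, CG.rho_one, e2]
    ext
    · simp [c, QuadraticAlgebra.re_one, re_two, im_two]
    · simp [c, QuadraticAlgebra.im_one, re_two, im_two]
  have e4 : CG.rho (w A k) (bb A k) (c A k) 4 =
      ⟨-(bb A k) - (2 * k - 1) * (1 + 2 * bb A k), 1 + 2 * (2 * k - 1)⟩ := by
    rw [CG.rho_add _ 2, e2, e3]
    have := cast_c2 hk
    ext
    · simp [c, this]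
    · simp [c, this]
      try ring
  have e5 : CG.rho (w A k) (bb A k) (c A k) (4 + 1) =
      ⟨1 + 2 * bb A k - 2 * (-(bb A k) - (2 * k - 1) * (1 + 2 * bb A k)),
        -2 - 2 * (1 + 2 * (2 * k - 1))⟩ := by
    rw [CG.rho_add _ 3, e3, e4]
    ext
    · simp [c, re_two, im_two]
    · simp [c, re_two, im_two]
  rw [e4, e5, CG.om, QuadraticAlgebra.mk_mul_mk]
  ext
  · simp only [w, bb, aa]; ring
  · simp only [w, bb, aa]; ring

end Pool.Agent.RDF.FE
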