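import Pool.Agent.RDF.Ident

/-!
The cone sum of the family `d = (2ak)² - a` when the period divides `k`.
-/

namespace Pool.Agent.RDF

open Finset (range)
open Pool.Agent.LibH4 Pool.Agent.LibH4.FA Pool.Agent.Lib_helper5

section zmod

variable {Q : ℕ} [NeZero Q]

lemma sum_range_zmod {M : Type*} [AddCommMonoid M] (h : ZMod Q → M) :
    ∑ r ∈ range Q, h (r : ZMod Q) = ∑ x : ZMod Q, h x := by
  apply Finset.sum_nbij' (fun r : ℕ => (r : ZMod Q)) (fun x : ZMod Q => x.val)
  · intro r _; exact Finset.mem_univ _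
  · intro x _; exact Finset.mem_range.2 (ZMod.val_lt x)
  · intro r hr; exact ZMod.val_cast_of_lt (Finset.mem_range.1 hr)
  · intro x _; exact ZMod.natCast_zmod_val x
  · intro r _; rfl

lemma sum_range_zmod2 {M : Type*} [AddCommMonoid M] (h : ZMod Q → ZMod Q → M) :
    ∑ r ∈ range Q, ∑ s ∈ range Q, h (r : ZMod Q) (s : ZMod Q) = ∑ x : ZMod Q, ∑ y : ZMod Q, h x y := by
  rw [← sum_range_zmod]
  apply Finset.sum_congr rfl
  intro r _
  rw [← sum_range_zmod]

/-- the first Bernoulli weight on residues -/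
def β (x : ZMod Q) : ℤ := bZ Q x.val
/-- the second Bernoulli weight on residues -/
def γ (x : ZMod Q) : ℤ := b2Z Q x.val
/-- a periodic function on residues -/
def fz (Q : ℕ) (f : ℤ → ℤ) (x : ZMod Q) : ℤ := f (x.val : ℤ)

lemma fz_cast {f : ℤ → ℤ} (hper : ∀ x, f (x + Q) = f x) (n : ℤ) : fz Q f (n : ZMod Q) = f n := by
  unfold fz
  rw [← ZMod.natCast_zmod_val (n : ZMod Q)]
  apply per_congrZ hper
  rw [ZMod.natCast_zmod_val]
  have h : ((((n : ZMod Q).val : ℕ) : ℤ) : ZMod Q) = (n : ZMod Q) := by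
    push_cast; exact ZMod.natCast_zmod_val _
  rw [ZMod.intCast_eq_intCast_iff_dvd_sub] at h
  obtain ⟨t, ht⟩ := h
  exact ⟨-t, by linear_combination -ht⟩

lemma fz_neg {f : ℤ → ℤ} (hper : ∀ x, f (x + Q) = f x) (hodd : ∀ x, f (-x) = - f x) (x : ZMod Q) :
    fz Q f (-x) = - fz Q f x := by
  obtain ⟨n, rfl⟩ := ZMod.intCast_surjective x
  rw [← Int.cast_neg, fz_cast hper, fz_cast hper, hodd]

lemma β_neg (x : ZMod Q) : β (-x) = - β x := by
  unfold β bZ
  rcases eq_or_ne x 0 with rfl | h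
  · simp
  · have hx : x.val ≠ 0 := by rwa [Ne, ZMod.val_eq_zero]
    have hv : (-x).val = Q - x.val := by
      rw [ZMod.neg_val, if_neg h]
    have hlt := ZMod.val_lt x
    rw [hv, if_neg (by omega), if_neg hx, Nat.cast_sub hlt.le]
    ring

lemma γ_neg (x : ZMod Q) : γ (-x) = γ x := by
  unfold γ b2Z
  rcases eq_or_ne x 0 with rfl | h
  · simp
  · have hv : (-x).val = Q - x.val := by
      rw [ZMod.neg_val, if_neg h]
    have hlt := ZMod.val_lt x
    rw [hv, Nat.cast_sub hlt.le]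
    ring

/-- **the pointwise identity** of the Bernoulli weights -/
lemma three_term {x y : ZMod Q} (h : ¬ (x = 0 ∧ y = 0)) :
    3 * (β x * β y - β x * β (x + y) - β y * β (x + y)) + γ x + γ y + γ (x + y) = 0 := by
  have hx := ZMod.val_lt x
  have hy := ZMod.val_lt y
  have hx0 : x.val = 0 ↔ x = 0 := ZMod.val_eq_zero x
  have hy0 : y.val = 0 ↔ y = 0 := ZMod.val_eq_zero y
  have hxy : (x + y).val = (x.val + y.val) % Q := ZMod.val_add x y
  unfold β γ
  rw [hxy]
  set r := x.val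
  set s := y.val
  have hne : ¬ (r = 0 ∧ s = 0) := by rw [hx0, hy0]; exact h
  unfold bZ b2Z
  rcases Nat.eq_zero_or_pos r with hr | hr
  · rw [hr, zero_add, Nat.mod_eq_of_lt hy, if_pos rfl, if_neg (by omega)]
    push_cast
    ring
  · rcases Nat.eq_zero_or_pos s with hs | hs
    · rw [hs, add_zero, Nat.mod_eq_of_lt hx, if_neg (by omega), if_pos rfl]
      push_cast
      ring
    · rw [if_neg (by omega : ¬ r = 0), if_neg (by omega : ¬ s = 0)]
      by_cases h1 : r + s < Q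
      · rw [Nat.mod_eq_of_lt h1, if_neg (by omega)]
        push_cast
        ring
      · have e : (r + s) % Q = r + s - Q := by
          rw [Nat.mod_eq_sub_mod (by omega), Nat.mod_eq_of_lt (by omega)]
        rw [e]
        by_cases h2 : r + s - Q = 0
        · rw [if_pos h2, h2]
          have : (s : ℤ) = Q - r := by omega
          rw [this]
          push_cast
          ring
        · rw [if_neg h2, Nat.cast_sub (by omega)]
          push_cast
          ring

lemma XZ_zmod {f : ℤ → ℤ} (hper : ∀ x, f (x + Q) = f x) (P R S : ℤ) :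
    XZ Q f P R S = ∑ x : ZMod Q, ∑ y : ZMod Q,
      fz Q f ((P : ZMod Q) * x ^ 2 + R * x * y - S * y ^ 2) * (β x * β y) := by
  rw [← sum_range_zmod2]
  unfold XZ
  apply Finset.sum_congr rfl
  intro r hr
  apply Finset.sum_congr rfl
  intro s hs
  have e1 : (((r : ℕ) : ZMod Q)).val = r := ZMod.val_cast_of_lt (Finset.mem_range.1 hr)
  have e2 : (((s : ℕ) : ZMod Q)).val = s := ZMod.val_cast_of_lt (Finset.mem_range.1 hs)
  unfold β
  rw [e1, e2, ← fz_cast hper]
  push_cast
  rfl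

lemma YX_zmod {f : ℤ → ℤ} (hper : ∀ x, f (x + Q) = f x) (P R S : ℤ) :
    YX Q f P R S = ∑ x : ZMod Q, ∑ y : ZMod Q,
      fz Q f ((P : ZMod Q) * x ^ 2 + R * x * y - S * y ^ 2) * γ x := by
  rw [← sum_range_zmod2]
  unfold YX
  apply Finset.sum_congr rfl
  intro r hr
  apply Finset.sum_congr rfl
  intro s hs
  have e1 : (((r : ℕ) : ZMod Q)).val = r := ZMod.val_cast_of_lt (Finset.mem_range.1 hr)
  unfold γ
  rw [e1, ← fz_cast hper]
  push_cast
  rfl

/-- change of variables in a double sum -/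
lemma sum2_equiv {M : Type*} [AddCommMonoid M] (e : ZMod Q × ZMod Q ≃ ZMod Q × ZMod Q)
    (h : ZMod Q → ZMod Q → M) :
    ∑ x : ZMod Q, ∑ y : ZMod Q, h x y = ∑ x : ZMod Q, ∑ y : ZMod Q, h (e (x, y)).1 (e (x, y)).2 := by
  rw [← Finset.sum_product', ← Finset.sum_product']
  simp only [Finset.univ_product_univ]
  exact (Equiv.sum_comp e (fun z => h z.1 z.2)).symm

end zmod

namespace FE

variable {A k : ℕ} {Q : ℕ} [NeZero Q]

/-- the norm form of the ghost -/
def N (A : ℕ) (x y : ZMod Q) : ZMod Q := A * x ^ 2 + x * y + y ^ 2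

/-- first change of variables -/
def eq1 : ZMod Q × ZMod Q ≃ ZMod Q × ZMod Q where
  toFun z := (z.1 + z.2, z.1)
  invFun z := (z.2, z.1 - z.2)
  left_inv z := by ext <;> simp
  right_inv z := by ext <;> simp

/-- second change of variables -/
def eq2 : ZMod Q × ZMod Q ≃ ZMod Q × ZMod Q where
  toFun z := (-(z.1 + 2 * z.2), z.1 + z.2)
  invFun z := (z.1 + 2 * z.2, -z.1 - z.2)
  left_inv z := by ext <;> simp only <;> ring
  right_inv z := by ext <;> simp only <;> ring

/-- third change of variables -/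
def eq3 : ZMod Q × ZMod Q ≃ ZMod Q × ZMod Q where
  toFun z := (-z.2, -(z.1 + 2 * z.2))
  invFun z := (2 * z.1 - z.2, -z.1)
  left_inv z := by ext <;> simp only <;> ring
  right_inv z := by ext <;> simp only <;> ring

/-- **the cone sum near the ghost** -/
theorem LL_ghost (hA : 1 ≤ A) (hk : 1 ≤ k) (hQk : Q ∣ k)
    (f : ℤ → ℤ) (hper : ∀ x, f (x + Q) = f x) (hodd : ∀ x, f (-x) = - f x) :
    LL 4 (P A k) (R A k) (S A k) (c A k) Q f =
      - (2 * k) * (aa A * ∑ x : ZMod Q, ∑ y : ZMod Q, fz Q f (-(N A x y)) * γ x +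
        ∑ x : ZMod Q, ∑ y : ZMod Q, fz Q f (-(N A x y)) * γ (x + 2 * y)) := by
  have hk0 : ((k : ℤ) : ZMod Q) = 0 := by
    rw [Int.cast_natCast, ZMod.natCast_eq_zero_iff]; exact hQk
  have hk0' : ((k : ℕ) : ZMod Q) = 0 := by
    rw [ZMod.natCast_eq_zero_iff]; exact hQk
  have hneg := fz_neg (Q := Q) hper hodd
  have f0 : fz Q f 0 = 0 := by
    have := hneg 0
    rw [neg_zero] at this
    omega
  -- the eight sums
  have x0 : XZ Q f (P A k 0) (R A k 0) (S A k 0)
      = ∑ x : ZMod Q, ∑ y : ZMod Q, fz Q f (-(N A x y)) * (β x * β y) := by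
    rw [XZ_zmod hper]
    refine Finset.sum_congr rfl fun x _ => Finset.sum_congr rfl fun y _ => ?_
    congr 2
    simp only [P, R, S, w, bb, aa, N]
    push_cast
    rw [hk0']
    ring
  have y0 : YX Q f (P A k 0) (R A k 0) (S A k 0)
      = ∑ x : ZMod Q, ∑ y : ZMod Q, fz Q f (-(N A x y)) * γ x := by
    rw [YX_zmod hper]
    refine Finset.sum_congr rfl fun x _ => Finset.sum_congr rfl fun y _ => ?_
    congr 2
    simp only [P, R, S, w, bb, aa, N]
    push_cast
    rw [hk0']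
    ring
  have x1 : XZ Q f (P A k 1) (R A k 1) (S A k 1)
      = ∑ x : ZMod Q, ∑ y : ZMod Q, fz Q f (-(N A x y)) * (-(β (x + y) * β x)) := by
    rw [XZ_zmod hper, sum2_equiv eq1]
    refine Finset.sum_congr rfl fun x _ => Finset.sum_congr rfl fun y _ => ?_
    have e : (((P A k 1 : ℤ) : ZMod Q) * (x + y) ^ 2 + (R A k 1 : ℤ) * (x + y) * x
        - (S A k 1 : ℤ) * x ^ 2) = N A x y := by
      simp only [P, R, S, w, bb, aa, N]
      push_cast
      rw [hk0']
      ring
    simp only [eq1, Equiv.coe_fn_mk]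
    rw [e, hneg]
    ring
  have y1 : YX Q f (P A k 1) (R A k 1) (S A k 1)
      = ∑ x : ZMod Q, ∑ y : ZMod Q, fz Q f (-(N A x y)) * (-(γ (x + y))) := by
    rw [YX_zmod hper, sum2_equiv eq1]
    refine Finset.sum_congr rfl fun x _ => Finset.sum_congr rfl fun y _ => ?_
    have e : (((P A k 1 : ℤ) : ZMod Q) * (x + y) ^ 2 + (R A k 1 : ℤ) * (x + y) * x
        - (S A k 1 : ℤ) * x ^ 2) = N A x y := by
      simp only [P, R, S, w, bb, aa, N]
      push_cast
      rw [hk0']
      ring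
    simp only [eq1, Equiv.coe_fn_mk]
    rw [e, hneg]
    ring
  have x2 : XZ Q f (P A k 2) (R A k 2) (S A k 2)
      = ∑ x : ZMod Q, ∑ y : ZMod Q, fz Q f (-(N A x y)) * (-(β (x + 2 * y) * β (x + y))) := by
    rw [XZ_zmod hper, sum2_equiv eq2]
    refine Finset.sum_congr rfl fun x _ => Finset.sum_congr rfl fun y _ => ?_
    have e : (((P A k 2 : ℤ) : ZMod Q) * (-(x + 2 * y)) ^ 2 + (R A k 2 : ℤ) * (-(x + 2 * y)) * (x + y)
        - (S A k 2 : ℤ) * (x + y) ^ 2) = -(N A x y) := by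
      simp only [P, R, S, w, bb, aa, N]
      push_cast
      rw [hk0']
      ring
    simp only [eq2, Equiv.coe_fn_mk]
    rw [e, β_neg]
    ring
  have y2 : YX Q f (P A k 2) (R A k 2) (S A k 2)
      = ∑ x : ZMod Q, ∑ y : ZMod Q, fz Q f (-(N A x y)) * γ (x + 2 * y) := by
    rw [YX_zmod hper, sum2_equiv eq2]
    refine Finset.sum_congr rfl fun x _ => Finset.sum_congr rfl fun y _ => ?_
    have e : (((P A k 2 : ℤ) : ZMod Q) * (-(x + 2 * y)) ^ 2 + (R A k 2 : ℤ) * (-(x + 2 * y)) * (x + y)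
        - (S A k 2 : ℤ) * (x + y) ^ 2) = -(N A x y) := by
      simp only [P, R, S, w, bb, aa, N]
      push_cast
      rw [hk0']
      ring
    simp only [eq2, Equiv.coe_fn_mk]
    rw [e, γ_neg]
  have x3 : XZ Q f (P A k 3) (R A k 3) (S A k 3)
      = ∑ x : ZMod Q, ∑ y : ZMod Q, fz Q f (-(N A x y)) * (-(β y * β (x + 2 * y))) := by
    rw [XZ_zmod hper, sum2_equiv eq3]
    refine Finset.sum_congr rfl fun x _ => Finset.sum_congr rfl fun y _ => ?_
    have e : (((P A k 3 : ℤ) : ZMod Q) * (-y) ^ 2 + (R A k 3 : ℤ) * (-y) * (-(x + 2 * y))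
        - (S A k 3 : ℤ) * (-(x + 2 * y)) ^ 2) = N A x y := by
      simp only [P, R, S, w, bb, aa, N]
      push_cast
      rw [hk0']
      ring
    simp only [eq3, Equiv.coe_fn_mk]
    rw [e, hneg, β_neg, β_neg]
    ring
  have y3 : YX Q f (P A k 3) (R A k 3) (S A k 3)
      = ∑ x : ZMod Q, ∑ y : ZMod Q, fz Q f (-(N A x y)) * (-(γ y)) := by
    rw [YX_zmod hper, sum2_equiv eq3]
    refine Finset.sum_congr rfl fun x _ => Finset.sum_congr rfl fun y _ => ?_
    have e : (((P A k 3 : ℤ) : ZMod Q) * (-y) ^ 2 + (R A k 3 : ℤ) * (-y) * (-(x + 2 * y))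
        - (S A k 3 : ℤ) * (-(x + 2 * y)) ^ 2) = N A x y := by
      simp only [P, R, S, w, bb, aa, N]
      push_cast
      rw [hk0']
      ring
    simp only [eq3, Equiv.coe_fn_mk]
    rw [e, hneg, γ_neg]
    ring
  have c0 : ((c A k 0 : ℕ) : ℤ) = 2 * aa A * k - 1 := by
    have := cast_c0 hA hk
    unfold bb at this
    exact this
  have c1 : ((c A k 1 : ℕ) : ℤ) = 2 := rfl
  have c2 : ((c A k 2 : ℕ) : ℤ) = 2 * k - 1 := cast_c2 hk
  have c3 : ((c A k 3 : ℕ) : ℤ) = 2 := rfl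
  unfold LL
  rw [Finset.sum_range_succ, Finset.sum_range_succ, Finset.sum_range_succ, Finset.sum_range_succ,
    Finset.sum_range_zero, zero_add, x0, y0, x1, y1, x2, y2, x3, y3, c0, c1, c2, c3]
  rw [← sub_eq_zero]
  simp only [Finset.mul_sum, ← Finset.sum_sub_distrib, ← Finset.sum_add_distrib]
  apply Finset.sum_eq_zero
  intro x _
  apply Finset.sum_eq_zero
  intro y _
  by_cases h : x = 0 ∧ y = 0
  · obtain ⟨rfl, rfl⟩ := h
    have e : N A (0 : ZMod Q) 0 = 0 := by unfold N; ring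
    rw [e, neg_zero, f0]
    ring
  · have t1 := three_term h
    have h' : ¬ (x + y = 0 ∧ y = 0) := by
      rintro ⟨h1, h2⟩
      exact h ⟨by rw [h2, add_zero] at h1; exact h1, h2⟩
    have t2 := three_term h'
    have e : x + y + y = x + 2 * y := by ring
    rw [e] at t2
    linear_combination (fz Q f (-(N A x y))) * t1 + (fz Q f (-(N A x y))) * t2

end FE

end Pool.Agent.RDF
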