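import Pool.Agent.Lib_helper5.TFive

/-!
The right side of the identity as a product of half sums (smoothing by the inert prime `2`).
-/

namespace Pool.Agent.RDF

open Finset (range)
open Pool.Agent.LibH4 Pool.Agent.LibH4.FA Pool.Agent.Lib_helper5

/-- the sign of a residue -/
def sg (n r : ℕ) : ℤ := if r = 0 then 0 else if 2 * r < n then 1 else -1

lemma two_bZ {n r : ℕ} (hn : n % 2 = 1) (hr : r < n) :
    2 * bZ n r - bZ n (2 * r % n) = n * sg n r := by
  unfold bZ sg
  rcases Nat.eq_zero_or_pos r with h | h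
  · subst h; simp
  · have h0 : r ≠ 0 := by omega
    rw [if_neg h0, if_neg h0]
    by_cases h2 : 2 * r < n
    · rw [Nat.mod_eq_of_lt h2, if_neg (by omega), if_pos h2]
      push_cast
      ring
    · have e : 2 * r % n = 2 * r - n := by
        rw [Nat.mod_eq_sub_mod (by omega), Nat.mod_eq_of_lt (by omega)]
      rw [e, if_neg (by omega), if_neg h2, Nat.cast_sub (by omega)]
      push_cast
      ring

lemma sum_perm {M : Type*} [AddCommMonoid M] (Q n : ℕ) (hQ : 0 < Q) (hn : Nat.Coprime n Q)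
    (h : ℕ → M) : ∑ l ∈ range Q, h ((n * l) % Q) = ∑ l ∈ range Q, h l := by
  have hmaps : ∀ l ∈ range Q, (n * l) % Q ∈ range Q := fun l _ =>
    Finset.mem_range.2 (Nat.mod_lt _ hQ)
  have hinj : Set.InjOn (fun l => (n * l) % Q) (range Q : Set ℕ) := by
    intro x hx y hy hxy
    have hx' := Finset.mem_range.1 (Finset.mem_coe.1 hx)
    have hy' := Finset.mem_range.1 (Finset.mem_coe.1 hy)
    have h1 : n * x ≡ n * y [MOD Q] := hxy
    have h2 : x ≡ y [MOD Q] := Nat.ModEq.cancel_left_of_coprime hn.symm h1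
    have h3 : x % Q = y % Q := h2
    rwa [Nat.mod_eq_of_lt hx', Nat.mod_eq_of_lt hy'] at h3
  apply Finset.sum_nbij (fun l => (n * l) % Q) hmaps hinj
  · exact Finset.surjOn_of_injOn_of_card_le _ hmaps hinj le_rfl
  · intro _ _; rfl

/-- folding a sum with signs -/
lemma sum_sg {n : ℕ} (hn : n % 2 = 1) (g : ℕ → ℤ) (h0 : g 0 = 0)
    (hg : ∀ r, 0 < r → r < n → g (n - r) = - g r) :
    ∑ r ∈ range n, g r * sg n r = 2 * ∑ r ∈ range ((n + 1) / 2), g r := by
  obtain ⟨h, rfl⟩ : ∃ h, n = 2 * h + 1 := ⟨n / 2, by omega⟩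
  have e1 : (2 * h + 1 + 1) / 2 = h + 1 := by omega
  have e2 : 2 * h + 1 = (h + 1) + h := by ring
  rw [e1]
  conv_lhs => rw [show range (2 * h + 1) = range ((h + 1) + h) by rw [← e2]]
  rw [Finset.sum_range_add]
  have f1 : ∑ r ∈ range (h + 1), g r * sg (2 * h + 1) r = ∑ r ∈ range (h + 1), g r := by
    apply Finset.sum_congr rfl
    intro r hr
    have hr' := Finset.mem_range.1 hr
    unfold sg
    rcases Nat.eq_zero_or_pos r with h3 | h3
    · subst h3; rw [h0]; simp
    · rw [if_neg (by omega), if_pos (by omega), mul_one]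
  have f2 : ∑ r ∈ range h, g (h + 1 + r) * sg (2 * h + 1) (h + 1 + r)
      = ∑ r ∈ range h, g (r + 1) := by
    rw [← Finset.sum_range_reflect]
    apply Finset.sum_congr rfl
    intro r hr
    have hr' := Finset.mem_range.1 hr
    have e : h + 1 + (h - 1 - r) = (2 * h + 1) - (r + 1) := by omega
    rw [e, hg (r + 1) (by omega) (by omega)]
    unfold sg
    rw [if_neg (by omega), if_neg (by omega)]
    ring
  have f3 : ∑ r ∈ range (h + 1), g r = ∑ r ∈ range h, g (r + 1) := by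
    rw [Finset.sum_range_succ', h0, add_zero]
  rw [f1, f2, f3]
  ring

section

variable {q d : ℕ} (f : ℤ → ℤ)

/-- the product of half sums -/
def HH (q d : ℕ) (f : ℤ → ℤ) : ℤ :=
  ∑ r ∈ range ((q + 1) / 2), ∑ s ∈ range ((q * d + 1) / 2), f ((r : ℤ) * s) * jacobiSym s d

lemma per_mulZ {f : ℤ → ℤ} (hper : ∀ x, f (x + q) = f x) (x t : ℤ) : f (x + t * q) = f x := by
  induction t using Int.induction_on with
  | zero => simp
  | succ i ih =>
    rw [show x + (i + 1 : ℤ) * q = (x + i * q) + q by ring, hper, ih]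
  | pred i ih =>
    rw [← hper (x + (-(i : ℤ) - 1) * q), show x + (-(i : ℤ) - 1) * q + q = x + -(i : ℤ) * q by ring,
      ih]

lemma per_congrZ {f : ℤ → ℤ} (hper : ∀ x, f (x + q) = f x) {x y : ℤ} (h : ∃ t : ℤ, y = x + t * q) :
    f y = f x := by
  obtain ⟨t, rfl⟩ := h
  exact per_mulZ hper x t

lemma jac_mod (s d : ℕ) : jacobiSym ((s % d : ℕ) : ℤ) d = jacobiSym s d := by
  rw [Int.natCast_mod, ← jacobiSym.mod_left]

lemma jac_mod_mul (s q d : ℕ) : jacobiSym ((s % (q * d) : ℕ) : ℤ) d = jacobiSym s d := by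
  rw [← jac_mod (s % (q * d)) d, Nat.mod_mul_left_mod, jac_mod]

lemma jac_two_mul {d : ℕ} (h8 : d % 8 = 5) (s : ℕ) :
    jacobiSym ((2 * s : ℕ) : ℤ) d = - jacobiSym s d := by
  push_cast
  rw [jacobiSym.mul_left, J_two h8]
  ring

lemma jac_neg {d : ℕ} (h8 : d % 8 = 5) {q s : ℕ} (hs : s < q * d) :
    jacobiSym ((q * d - s : ℕ) : ℤ) d = jacobiSym s d := by
  have e : ((q * d - s : ℕ) : ℤ) = -(s : ℤ) + q * d := by
    rw [Nat.cast_sub hs.le]; push_cast; ring
  have h1 : jacobiSym (-(s : ℤ) + q * d) d = jacobiSym (-(s : ℤ)) d := by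
    rw [jacobiSym.mod_left, Int.add_mul_emod_self_right, ← jacobiSym.mod_left]
  have hodd : Odd d := Nat.odd_iff.2 (by omega)
  rw [e, h1, jacobiSym.neg _ hodd]
  have h4 : ZMod.χ₄ d = 1 := by
    rw [ZMod.χ₄_nat_one_mod_four (by omega)]
  rw [h4, one_mul]

/-- **smoothing by the inert prime two** -/
theorem RZ_smooth (hq : q % 2 = 1) (h8 : d % 8 = 5)
    (hper : ∀ x, f (x + q) = f x) (hodd : ∀ x, f (-x) = - f x) :
    RZ q d (fun x => 4 * f (4 * x) - f x) = 4 * (q : ℤ) ^ 2 * d * HH q d (fun x => f (4 * x)) := by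
  have hq0 : 0 < q := by omega
  have hd0 : 0 < d := by omega
  have hqd : (q * d) % 2 = 1 := by
    rw [Nat.mul_mod, hq, show d % 2 = 1 by omega]
  have hqd0 : 0 < q * d := Nat.mul_pos hq0 hd0
  have c1 : Nat.Coprime 2 q := Nat.coprime_two_left.2 (Nat.odd_iff.2 hq)
  have c2 : Nat.Coprime 2 (q * d) := Nat.coprime_two_left.2 (Nat.odd_iff.2 hqd)
  have hf0 : f 0 = 0 := by
    have := hodd 0
    simp at this
    omega
  -- the four sums
  let T : (ℤ → ℤ) → ℤ := fun F => ∑ r ∈ range q, ∑ s ∈ range (q * d),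
    (F ((r : ℤ) * s) * jacobiSym s d) * (bZ q r * bZ (q * d) s)
  have hT : ∀ F, RZ q d F = T F := fun F => rfl
  have key : ∑ r ∈ range q, ∑ s ∈ range (q * d),
      (f (4 * ((r : ℤ) * s)) * jacobiSym s d) * (((q : ℤ) * sg q r) * (((q * d : ℕ) : ℤ) * sg (q * d) s))
      = 4 * T (fun x => f (4 * x)) - T f := by
    have e0 : ∀ r ∈ range q, ∀ s ∈ range (q * d),
        (f (4 * ((r : ℤ) * s)) * jacobiSym s d) * (((q : ℤ) * sg q r) * (((q * d : ℕ) : ℤ) * sg (q * d) s))
        = 4 * ((f (4 * ((r : ℤ) * s)) * jacobiSym s d) * (bZ q r * bZ (q * d) s))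
        - 2 * ((f (4 * ((r : ℤ) * s)) * jacobiSym s d) * (bZ q (2 * r % q) * bZ (q * d) s))
        - 2 * ((f (4 * ((r : ℤ) * s)) * jacobiSym s d) * (bZ q r * bZ (q * d) (2 * s % (q * d))))
        + (f (4 * ((r : ℤ) * s)) * jacobiSym s d) *
          (bZ q (2 * r % q) * bZ (q * d) (2 * s % (q * d))) := by
      intro r hr s hs
      rw [← two_bZ hq (Finset.mem_range.1 hr), ← two_bZ hqd (Finset.mem_range.1 hs)]
      ring
    rw [Finset.sum_congr rfl fun r hr => Finset.sum_congr rfl fun s hs => e0 r hr s hs]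
    simp only [Finset.sum_add_distrib, Finset.sum_sub_distrib, ← Finset.mul_sum]
    have tB : ∑ r ∈ range q, ∑ s ∈ range (q * d), (f (4 * ((r : ℤ) * s)) * jacobiSym s d) *
        (bZ q (2 * r % q) * bZ (q * d) s) = T (fun x => f (2 * x)) := by
      show _ = ∑ r ∈ range q, ∑ s ∈ range (q * d),
        (f (2 * ((r : ℤ) * s)) * jacobiSym s d) * (bZ q r * bZ (q * d) s)
      rw [← sum_perm q 2 hq0 c1 (fun r => ∑ s ∈ range (q * d),
        (f (2 * ((r : ℤ) * s)) * jacobiSym s d) * (bZ q r * bZ (q * d) s))]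
      apply Finset.sum_congr rfl
      intro r _
      apply Finset.sum_congr rfl
      intro s _
      have e : f (4 * ((r : ℤ) * s)) = f (2 * (((2 * r % q : ℕ) : ℤ) * s)) := by
        apply per_congrZ hper
        obtain ⟨u, hu⟩ := mod_cast_eq q (2 * r)
        refine ⟨-(2 * (u * s)), ?_⟩
        rw [hu]; push_cast; ring
      rw [e]
    have tC : ∑ r ∈ range q, ∑ s ∈ range (q * d), (f (4 * ((r : ℤ) * s)) * jacobiSym s d) *
        (bZ q r * bZ (q * d) (2 * s % (q * d))) = - T (fun x => f (2 * x)) := by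
      show _ = - ∑ r ∈ range q, ∑ s ∈ range (q * d),
        (f (2 * ((r : ℤ) * s)) * jacobiSym s d) * (bZ q r * bZ (q * d) s)
      rw [← Finset.sum_neg_distrib]
      apply Finset.sum_congr rfl
      intro r _
      rw [← sum_perm (q * d) 2 hqd0 c2 (fun s =>
        (f (2 * ((r : ℤ) * s)) * jacobiSym s d) * (bZ q r * bZ (q * d) s)), ← Finset.sum_neg_distrib]
      apply Finset.sum_congr rfl
      intro s _
      have e : f (4 * ((r : ℤ) * s)) = f (2 * ((r : ℤ) * ((2 * s % (q * d) : ℕ) : ℤ))) := by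
        apply per_congrZ hper
        obtain ⟨u, hu⟩ := mod_cast_eq (q * d) (2 * s)
        refine ⟨-(2 * (r * (u * d))), ?_⟩
        rw [hu]; push_cast; ring
      rw [e, jac_mod_mul, jac_two_mul h8]
      ring
    have tD : ∑ r ∈ range q, ∑ s ∈ range (q * d), (f (4 * ((r : ℤ) * s)) * jacobiSym s d) *
        (bZ q (2 * r % q) * bZ (q * d) (2 * s % (q * d))) = - T f := by
      show _ = - ∑ r ∈ range q, ∑ s ∈ range (q * d),
        (f ((r : ℤ) * s) * jacobiSym s d) * (bZ q r * bZ (q * d) s)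
      rw [← sum_perm q 2 hq0 c1 (fun r => ∑ s ∈ range (q * d),
        (f ((r : ℤ) * s) * jacobiSym s d) * (bZ q r * bZ (q * d) s)), ← Finset.sum_neg_distrib]
      apply Finset.sum_congr rfl
      intro r _
      rw [← sum_perm (q * d) 2 hqd0 c2 (fun s =>
        (f (((2 * r % q : ℕ) : ℤ) * s) * jacobiSym s d) * (bZ q (2 * r % q) * bZ (q * d) s)),
        ← Finset.sum_neg_distrib]
      apply Finset.sum_congr rfl
      intro s _
      have e : f (4 * ((r : ℤ) * s)) =
          f (((2 * r % q : ℕ) : ℤ) * ((2 * s % (q * d) : ℕ) : ℤ)) := by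
        apply per_congrZ hper
        obtain ⟨u, hu⟩ := mod_cast_eq (q * d) (2 * s)
        obtain ⟨v, hv⟩ := mod_cast_eq q (2 * r)
        refine ⟨-(2 * r * (u * d) + v * (2 * s) + v * q * (u * d)), ?_⟩
        rw [hu, hv]; push_cast; ring
      rw [e, jac_mod_mul, jac_two_mul h8]
      ring
    rw [tB, tC, tD]
    show 4 * T (fun x => f (4 * x)) - 2 * T (fun x => f (2 * x)) - 2 * -T (fun x => f (2 * x)) + -T f
      = _
    ring
  have hlin : T (fun x => 4 * f (4 * x) - f x) = 4 * T (fun x => f (4 * x)) - T f := by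
    show ∑ r ∈ range q, ∑ s ∈ range (q * d),
      ((4 * f (4 * ((r : ℤ) * s)) - f ((r : ℤ) * s)) * jacobiSym s d) * (bZ q r * bZ (q * d) s)
      = 4 * (∑ r ∈ range q, ∑ s ∈ range (q * d),
      (f (4 * ((r : ℤ) * s)) * jacobiSym s d) * (bZ q r * bZ (q * d) s)) -
      ∑ r ∈ range q, ∑ s ∈ range (q * d),
      (f ((r : ℤ) * s) * jacobiSym s d) * (bZ q r * bZ (q * d) s)
    rw [Finset.mul_sum, ← Finset.sum_sub_distrib]
    apply Finset.sum_congr rfl
    intro r _
    rw [Finset.mul_sum, ← Finset.sum_sub_distrib]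
    apply Finset.sum_congr rfl
    intro s _
    ring
  rw [hT, hlin, ← key]
  -- folding
  have fold : ∑ r ∈ range q, ∑ s ∈ range (q * d),
      (f (4 * ((r : ℤ) * s)) * jacobiSym s d) * (((q : ℤ) * sg q r) * (((q * d : ℕ) : ℤ) * sg (q * d) s))
      = (q : ℤ) * ((q * d : ℕ) : ℤ) * ∑ r ∈ range q, (∑ s ∈ range (q * d),
        (f (4 * ((r : ℤ) * s)) * jacobiSym s d) * sg (q * d) s) * sg q r := by
    rw [Finset.mul_sum]
    apply Finset.sum_congr rfl
    intro r _
    rw [Finset.sum_mul, Finset.mul_sum]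
    apply Finset.sum_congr rfl
    intro s _
    ring
  rw [fold]
  have inner : ∀ r : ℕ, ∑ s ∈ range (q * d), (f (4 * ((r : ℤ) * s)) * jacobiSym s d) * sg (q * d) s
      = 2 * ∑ s ∈ range ((q * d + 1) / 2), f (4 * ((r : ℤ) * s)) * jacobiSym s d := by
    intro r
    apply sum_sg hqd (fun s => f (4 * ((r : ℤ) * s)) * jacobiSym s d)
    · simp [hf0]
    · intro s _ hs
      rw [jac_neg h8 hs]
      have e : f (4 * ((r : ℤ) * ((q * d - s : ℕ) : ℤ))) = - f (4 * ((r : ℤ) * s)) := by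
        rw [← hodd]
        apply per_congrZ hper
        refine ⟨4 * r * d, ?_⟩
        rw [Nat.cast_sub hs.le]; push_cast; ring
      rw [e]
      ring
  rw [Finset.sum_congr rfl fun r _ => by rw [inner r]]
  rw [sum_sg hq (fun r => 2 * ∑ s ∈ range ((q * d + 1) / 2), f (4 * ((r : ℤ) * s)) * jacobiSym s d)]
  · unfold HH
    rw [← Finset.mul_sum]
    push_cast
    ring
  · simp [hf0]
  · intro r _ hr
    rw [← mul_neg, ← Finset.sum_neg_distrib]
    congr 1
    apply Finset.sum_congr rfl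
    intro s _
    have e : f (4 * (((q - r : ℕ) : ℤ) * s)) = - f (4 * ((r : ℤ) * s)) := by
      rw [← hodd]
      apply per_congrZ hper
      refine ⟨4 * s, ?_⟩
      rw [Nat.cast_sub hr.le]; ring
    rw [e]
    ring

end

end Pool.Agent.RDF
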