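import Pool.Agent.RDF.Smooth

/-!
A zero of the `5`-adic `L`-function: exponents `m` for which the half sum of `(r/91) r ^ m` is
divisible by `5 ^ v`.
-/

namespace Pool.Agent.RDF

open Finset (range)
open Pool.Agent.LibH4 Pool.Agent.LibH4.FA Pool.Agent.Lib_helper5

/-- the quadratic character modulo seven -/
def T7 (x : ZMod 7) : ℤ := (![0, 1, 1, -1, 1, -1, -1] : Fin 7 → ℤ) x
/-- the quadratic character modulo thirteen -/
def T13 (x : ZMod 13) : ℤ := (![0, 1, -1, 1, 1, -1, -1, -1, -1, 1, 1, -1, 1] : Fin 13 → ℤ) x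

lemma T7_mul : ∀ x y : ZMod 7, T7 (x * y) = T7 x * T7 y := by decide
lemma T13_mul : ∀ x y : ZMod 13, T13 (x * y) = T13 x * T13 y := by decide
lemma T7_neg : ∀ x : ZMod 7, T7 (-x) = - T7 x := by decide
lemma T13_neg : ∀ x : ZMod 13, T13 (-x) = T13 x := by decide

/-- the quadratic character modulo `91` -/
def chi (u : ℤ) : ℤ := T7 (u : ZMod 7) * T13 (u : ZMod 13)

lemma chi_mul (u v : ℤ) : chi (u * v) = chi u * chi v := by
  unfold chi
  push_cast
  rw [T7_mul, T13_mul]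
  ring

lemma chi_neg (u : ℤ) : chi (-u) = - chi u := by
  unfold chi
  push_cast
  rw [T7_neg, T13_neg]
  ring

lemma chi_add (u t : ℤ) : chi (u + 91 * t) = chi u := by
  unfold chi
  push_cast
  have h7 : (91 : ZMod 7) = 0 := by decide
  have h13 : (91 : ZMod 13) = 0 := by decide
  rw [h7, h13]
  simp

/-- a full period of an odd function -/
lemma full_sum {w Q : ℕ} (hQ : 0 < Q) (g : ℤ → ZMod (5 ^ w)) (hper : ∀ x, g (x + Q) = g x)
    (hodd : ∀ x, g (-x) = - g x) : ∑ r ∈ range Q, g r = 0 := by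
  have : NeZero Q := ⟨hQ.ne'⟩
  have hper' : ∀ (x t : ℤ), g (x + t * Q) = g x := by
    intro x t
    induction t using Int.induction_on with
    | zero => simp
    | succ i ih =>
      rw [show x + (i + 1 : ℤ) * Q = (x + i * Q) + Q by ring, hper, ih]
    | pred i ih =>
      rw [← hper (x + (-(i : ℤ) - 1) * Q),
        show x + (-(i : ℤ) - 1) * Q + Q = x + -(i : ℤ) * Q by ring, ih]
  have e1 : ∀ r ∈ range Q, g r = (fun x : ZMod Q => g (x.val : ℤ)) (r : ZMod Q) := by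
    intro r hr
    simp only
    rw [ZMod.val_cast_of_lt (Finset.mem_range.1 hr)]
  rw [Finset.sum_congr rfl e1, sum_range_zmod (fun x : ZMod Q => g (x.val : ℤ))]
  have e2 : ∀ x : ZMod Q, g (((-x).val : ℕ) : ℤ) = - g (x.val : ℤ) := by
    intro x
    rw [← hodd]
    have h : ((((-x).val : ℕ) : ℤ) : ZMod Q) = ((-(x.val : ℤ) : ℤ) : ZMod Q) := by
      push_cast
      rw [ZMod.natCast_zmod_val, ZMod.natCast_zmod_val]
    rw [ZMod.intCast_eq_intCast_iff_dvd_sub] at h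
    obtain ⟨t, ht⟩ := h
    have : (((-x).val : ℕ) : ℤ) = -(x.val : ℤ) + (-t) * Q := by linear_combination -ht
    rw [this, hper']
  have e3 := Equiv.sum_comp (Equiv.neg (ZMod Q)) (fun x : ZMod Q => g (x.val : ℤ))
  simp only [Equiv.neg_apply, e2, Finset.sum_neg_distrib] at e3
  set S := ∑ x : ZMod Q, g (x.val : ℤ)
  have h2 : (2 : ZMod (5 ^ w)) * S = 0 := by linear_combination -e3
  have hu : IsUnit (2 : ZMod (5 ^ w)) := by
    have := (ZMod.isUnit_iff_coprime 2 (5 ^ w)).2 (Nat.Coprime.pow_right w (by norm_num))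
    exact_mod_cast this
  exact (hu.mul_right_eq_zero).1 h2

/-- half sums over multiples of the period -/
lemma half_sum {w Q : ℕ} (hQ : Q % 2 = 1) (s : ℕ) (g : ℤ → ZMod (5 ^ w))
    (hper : ∀ x, g (x + Q) = g x) (hodd : ∀ x, g (-x) = - g x) :
    ∑ r ∈ range (((2 * s + 1) * Q + 1) / 2), g r = ∑ r ∈ range ((Q + 1) / 2), g r := by
  have hQ0 : 0 < Q := by omega
  have e : ((2 * s + 1) * Q + 1) / 2 = s * Q + (Q + 1) / 2 := by
    have : (2 * s + 1) * Q + 1 = 2 * (s * Q) + (Q + 1) := by ring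
    omega
  have hper' : ∀ (n : ℕ) (x : ℤ), g (x + n * Q) = g x := by
    intro n x
    induction n with
    | zero => simp
    | succ i ih =>
      rw [show x + ((i + 1 : ℕ) : ℤ) * Q = (x + i * Q) + Q by push_cast; ring, hper, ih]
  rw [e, Finset.sum_range_add]
  have f1 : ∑ r ∈ range (s * Q), g r = 0 := by
    induction s with
    | zero => simp
    | succ i ih =>
      rw [Nat.succ_mul, Finset.sum_range_add]
      have e' : ((2 * i + 1) * Q + 1) / 2 = i * Q + (Q + 1) / 2 := by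
        have : (2 * i + 1) * Q + 1 = 2 * (i * Q) + (Q + 1) := by ring
        omega
      rw [ih e', zero_add, ← full_sum hQ0 g hper hodd]
      apply Finset.sum_congr rfl
      intro r _
      rw [← hper' i r]
      congr 1
      push_cast
      ring
  rw [f1, zero_add]
  apply Finset.sum_congr rfl
  intro r _
  rw [← hper' s r]
  congr 1
  push_cast
  ring

/-- the half sum -/
def Hs (v m : ℕ) : ℤ := ∑ r ∈ range ((91 * 5 ^ v + 1) / 2), chi r * (r : ℤ) ^ m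

/-- powers of `1 + 5c` -/
lemma pow_five (n : ℕ) (c : ℤ) : (5 : ℤ) ^ (n + 2) ∣ (1 + 5 * c) ^ (5 ^ n) - (1 + 5 ^ (n + 1) * c) := by
  induction n with
  | zero => simp
  | succ n ih =>
    obtain ⟨t, ht⟩ := ih
    have hx : (1 + 5 * c) ^ (5 ^ n) = 1 + 5 ^ (n + 1) * (c + 5 * t) := by
      have : (5 : ℤ) ^ (n + 2) = 5 ^ (n + 1) * 5 := by ring
      rw [this] at ht
      linear_combination ht
    rw [pow_succ 5 n, pow_mul, hx]
    set y := c + 5 * t with hy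
    obtain ⟨z, hz⟩ : ∃ z : ℤ, z = 5 ^ n := ⟨_, rfl⟩
    refine ⟨t + 2 * z * y ^ 2 + 10 * z ^ 2 * y ^ 3 + 25 * z ^ 3 * y ^ 4 + 25 * z ^ 4 * y ^ 5, ?_⟩
    have e1 : (5 : ℤ) ^ (n + 1) = 5 * z := by rw [hz]; ring
    have e2 : (5 : ℤ) ^ (n + 1 + 1) = 25 * z := by rw [hz]; ring
    have e3 : (5 : ℤ) ^ (n + 1 + 2) = 125 * z := by rw [hz]; ring
    rw [e1, e2, e3, hy]
    ring

/-- the Fermat quotient -/
def fq (r : ℤ) : ℤ := if (5 : ℤ) ∣ r then 0 else (r ^ 4 - 1) / 5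

lemma five_dvd_pow_four {r : ℤ} (h : ¬ (5 : ℤ) ∣ r) : (5 : ℤ) ∣ r ^ 4 - 1 := by
  have h5 : r % 5 = 1 ∨ r % 5 = 2 ∨ r % 5 = 3 ∨ r % 5 = 4 := by omega
  rw [Int.dvd_iff_emod_eq_zero]
  rcases h5 with h | h | h | h <;> simp [Int.sub_emod, pow_succ, Int.mul_emod, h]

lemma fq_spec {r : ℤ} (h : ¬ (5 : ℤ) ∣ r) : r ^ 4 = 1 + 5 * fq r := by
  unfold fq
  rw [if_neg h]
  have := Int.mul_ediv_cancel' (five_dvd_pow_four h)
  linarith

/-- changing the exponent -/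
lemma pow_change {r : ℤ} {v m j : ℕ} (hm : m % 4 = 2) (hmv : v + 2 ≤ m) :
    (5 : ℤ) ^ (v + 2) ∣ r ^ (m + 4 * 5 ^ v * j) - (r ^ m + 5 ^ (v + 1) * j * (r ^ 2 * fq r)) := by
  by_cases h : (5 : ℤ) ∣ r
  · have h0 : fq r = 0 := by unfold fq; rw [if_pos h]
    rw [h0, mul_zero, mul_zero, add_zero]
    have h1 : (5 : ℤ) ^ (v + 2) ∣ r ^ m := (pow_dvd_pow 5 hmv).trans (pow_dvd_pow_of_dvd h m)
    apply dvd_sub _ h1
    have e : r ^ (m + 4 * 5 ^ v * j) = r ^ m * r ^ (4 * 5 ^ v * j) := pow_add _ _ _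
    rw [e]
    exact h1.mul_right _
  · have h1 := fq_spec h
    set c := fq r
    -- `r ^ (4 * 5^v) = 1 + 5 ^ (v+1) c + 5 ^ (v+2) t`
    obtain ⟨t, ht⟩ := pow_five v c
    have h2 : r ^ (4 * 5 ^ v) = 1 + 5 ^ (v + 1) * (c + 5 * t) := by
      rw [pow_mul, h1]
      have : (5 : ℤ) ^ (v + 2) = 5 ^ (v + 1) * 5 := by ring
      rw [this] at ht
      linear_combination ht
    have h3 : ∃ s : ℤ, (1 + 5 ^ (v + 1) * (c + 5 * t)) ^ j
        = 1 + 5 ^ (v + 1) * (j * c) + 5 ^ (v + 2) * s := by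
      induction j with
      | zero => exact ⟨0, by simp⟩
      | succ j ih =>
        obtain ⟨s, hs⟩ := ih
        refine ⟨s + t + 5 ^ v * (j * c * (c + 5 * t)) + 5 ^ (v + 1) * (s * (c + 5 * t)), ?_⟩
        rw [pow_succ, hs]
        push_cast
        ring
    obtain ⟨s, hs⟩ := h3
    have h4 : ∃ u : ℤ, r ^ m = r ^ 2 + 5 * u := by
      obtain ⟨i, hi⟩ : ∃ i, m = 2 + 4 * i := ⟨m / 4, by omega⟩
      rw [hi, pow_add, pow_mul, h1]
      have h5 : (5 : ℤ) ∣ (1 + 5 * c) ^ i - 1 ^ i := by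
        refine dvd_trans ?_ (sub_dvd_pow_sub_pow (1 + 5 * c) 1 i)
        exact ⟨c, by ring⟩
      obtain ⟨u, hu⟩ := h5
      rw [one_pow] at hu
      refine ⟨r ^ 2 * u, ?_⟩
      linear_combination r ^ 2 * hu
    obtain ⟨u, hu⟩ := h4
    refine ⟨r ^ m * s + j * c * u, ?_⟩
    rw [pow_add, pow_mul, h2, hs]
    have e : (5 : ℤ) ^ (v + 2) = 5 ^ (v + 1) * 5 := by ring
    rw [e]
    linear_combination (5 ^ (v + 1) * (j : ℤ) * c) * hu

/-- the derivative -/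
def DD (n : ℕ) : ℤ := ∑ r ∈ range ((91 * 5 ^ n + 1) / 2), chi r * ((r : ℤ) ^ 2 * fq r)

lemma Hs_change {v m j : ℕ} (hm : m % 4 = 2) (hmv : v + 2 ≤ m) (n : ℕ) :
    (5 : ℤ) ^ (v + 2) ∣ Hs n (m + 4 * 5 ^ v * j) - (Hs n m + 5 ^ (v + 1) * j * DD n) := by
  unfold Hs DD
  rw [Finset.mul_sum, ← Finset.sum_add_distrib, ← Finset.sum_sub_distrib]
  apply Finset.dvd_sum
  intro r _
  have := pow_change (r := (r : ℤ)) (j := j) hm hmv
  have e : chi r * (r : ℤ) ^ (m + 4 * 5 ^ v * j) - (chi r * (r : ℤ) ^ m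
      + 5 ^ (v + 1) * j * (chi r * ((r : ℤ) ^ 2 * fq r)))
      = chi r * ((r : ℤ) ^ (m + 4 * 5 ^ v * j) - ((r : ℤ) ^ m + 5 ^ (v + 1) * j *
        ((r : ℤ) ^ 2 * fq r))) := by ring
  rw [e]
  exact this.mul_left _

lemma fq_add (r : ℤ) : ((fq (r + 25) : ℤ) : ZMod 5) = (fq r : ℤ) := by
  rw [ZMod.intCast_eq_intCast_iff_dvd_sub]
  by_cases h : (5 : ℤ) ∣ r
  · have h' : (5 : ℤ) ∣ r + 25 := by omega
    unfold fq
    rw [if_pos h, if_pos h']
    simp
  · have h' : ¬ (5 : ℤ) ∣ r + 25 := by omega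
    have e1 := fq_spec h
    have e2 := fq_spec h'
    refine ⟨-(4 * r ^ 3 + 6 * 25 * r ^ 2 + 4 * 25 ^ 2 * r + 25 ^ 3), ?_⟩
    have e3 : 5 * (fq r - fq (r + 25)) = 5 * (5 * -(4 * r ^ 3 + 6 * 25 * r ^ 2 + 4 * 25 ^ 2 * r + 25 ^ 3)) := by
      linear_combination e2 - e1
    exact mul_left_cancel₀ (by norm_num) e3

lemma fq_neg (r : ℤ) : fq (-r) = fq r := by
  have h4 : (-r) ^ 4 = r ^ 4 := by ring
  unfold fq
  by_cases h : (5 : ℤ) ∣ r
  · rw [if_pos h, if_pos ((dvd_neg).2 h)]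
  · rw [if_neg h, if_neg (fun h' => h ((dvd_neg).1 h')), h4]

/-- kernel check of the derivative -/
lemma DD_two : (DD 2) % 5 ≠ 0 := by
  decide +kernel

lemma Hs_one : (5 : ℤ) ∣ Hs 1 2 := by
  decide +kernel

lemma DD_mod (n : ℕ) : ((DD (n + 2) : ℤ) : ZMod 5) = (DD 2 : ℤ) := by
  have h5 : (5 : ℕ) ^ 1 = 5 := rfl
  let g : ℤ → ZMod (5 ^ 1) := fun r => ((chi r * (r ^ 2 * fq r) : ℤ) : ZMod (5 ^ 1))
  have hper : ∀ x, g (x + (91 * 25 : ℕ)) = g x := by
    intro x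
    simp only [g]
    have e1 : chi (x + (91 * 25 : ℕ)) = chi x := by
      have := chi_add x 25
      push_cast
      rw [← this]
      norm_num
    have e2 : ∀ n : ℕ, ((fq (x + 25 * n) : ℤ) : ZMod 5) = (fq x : ℤ) := by
      intro n
      induction n with
      | zero => simp
      | succ n ih =>
        have e : x + 25 * ((n + 1 : ℕ) : ℤ) = (x + 25 * n) + 25 := by push_cast; ring
        rw [e, fq_add, ih]
    have e3 : ((fq (x + (91 * 25 : ℕ)) : ℤ) : ZMod (5 ^ 1)) = (fq x : ℤ) := by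
      have := e2 91
      rw [show x + ((91 * 25 : ℕ) : ℤ) = x + 25 * (91 : ℕ) by push_cast; ring]
      exact this
    rw [e1]
    push_cast at e3 ⊢
    rw [e3]
    have h25 : (2275 : ZMod (5 ^ 1)) = 0 := by decide
    rw [h25, add_zero]
  have hodd : ∀ x, g (-x) = - g x := by
    intro x
    simp only [g]
    rw [chi_neg, fq_neg]
    push_cast
    ring
  obtain ⟨s, hs⟩ : ∃ s, 5 ^ n = 2 * s + 1 := by
    have : Odd (5 ^ n) := Odd.pow (by decide)
    obtain ⟨s, hs⟩ := this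
    exact ⟨s, hs⟩
  have key := half_sum (w := 1) (Q := 91 * 25) (by norm_num) s g hper hodd
  have e1 : (2 * s + 1) * (91 * 25) = 91 * 5 ^ (n + 2) := by rw [← hs]; ring
  rw [e1] at key
  have e2 : ∀ N : ℕ, ∑ r ∈ range N, g r
      = ((∑ r ∈ range N, chi r * ((r : ℤ) ^ 2 * fq r) : ℤ) : ZMod (5 ^ 1)) := by
    intro N
    push_cast
    apply Finset.sum_congr rfl
    intro r _
    simp only [g]
    push_cast
    rfl
  rw [e2, e2] at key
  exact key

lemma Hs_succ {v m : ℕ} (hm : m % 4 = 2) (h : (5 : ℤ) ^ (v + 1) ∣ Hs (v + 1) m) :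
    (5 : ℤ) ^ (v + 1) ∣ Hs (v + 2) m := by
  let g : ℤ → ZMod (5 ^ (v + 1)) := fun r => ((chi r * r ^ m : ℤ) : ZMod (5 ^ (v + 1)))
  have hper : ∀ x, g (x + (91 * 5 ^ (v + 1) : ℕ)) = g x := by
    intro x
    simp only [g]
    have e1 : chi (x + (91 * 5 ^ (v + 1) : ℕ)) = chi x := by
      have := chi_add x (5 ^ (v + 1))
      push_cast
      exact this
    rw [e1]
    push_cast
    have h0 : ((5 : ZMod (5 ^ (v + 1))) ^ (v + 1)) = 0 := by
      have := ZMod.natCast_self (5 ^ (v + 1))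
      push_cast at this
      exact this
    rw [h0, mul_zero, add_zero]
  have hodd : ∀ x, g (-x) = - g x := by
    intro x
    simp only [g]
    have hev : Even m := by rw [Nat.even_iff]; omega
    rw [chi_neg, hev.neg_pow]
    push_cast
    ring
  have hQ : (91 * 5 ^ (v + 1)) % 2 = 1 := by
    have : Odd (91 * 5 ^ (v + 1)) := Odd.mul (by decide) (Odd.pow (by decide))
    exact Nat.odd_iff.1 this
  have key := half_sum (w := v + 1) hQ 2 g hper hodd
  have e1 : (2 * 2 + 1) * (91 * 5 ^ (v + 1)) = 91 * 5 ^ (v + 2) := by ring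
  rw [e1] at key
  have e2 : ∀ N : ℕ, ∑ r ∈ range N, g r
      = ((∑ r ∈ range N, chi r * (r : ℤ) ^ m : ℤ) : ZMod (5 ^ (v + 1))) := by
    intro N
    push_cast
    apply Finset.sum_congr rfl
    intro r _
    simp only [g]
    push_cast
    rfl
  rw [e2, e2] at key
  have h1 : ((Hs (v + 1) m : ℤ) : ZMod (5 ^ (v + 1))) = 0 := by
    rw [ZMod.intCast_zmod_eq_zero_iff_dvd]
    push_cast
    exact h
  have h2 : ((Hs (v + 2) m : ℤ) : ZMod (5 ^ (v + 1))) = 0 := by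
    rw [← h1]; exact key
  rw [ZMod.intCast_zmod_eq_zero_iff_dvd] at h2
  push_cast at h2
  exact h2

/-- **zeros of the half sums** -/
theorem exists_zero (v : ℕ) : ∃ m, m % 4 = 2 ∧ v + 2 ≤ m ∧ (5 : ℤ) ^ (v + 1) ∣ Hs (v + 1) m := by
  induction v with
  | zero => exact ⟨2, rfl, le_rfl, by simpa using Hs_one⟩
  | succ v ih =>
    obtain ⟨m, hm, hmv, hd⟩ := ih
    obtain ⟨h, hh⟩ := Hs_succ hm hd
    have hD : ¬ (5 : ℤ) ∣ DD (v + 2) := by
      intro h5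
      have h5' : ((5 : ℕ) : ℤ) ∣ DD (v + 2) := by exact_mod_cast h5
      have h6 := DD_mod v
      have h7 : ((DD (v + 2) : ℤ) : ZMod 5) = 0 := (ZMod.intCast_zmod_eq_zero_iff_dvd _ 5).2 h5'
      rw [h7] at h6
      have h8 : (5 : ℤ) ∣ DD 2 := by
        have := (ZMod.intCast_zmod_eq_zero_iff_dvd (DD 2) 5).1 h6.symm
        exact_mod_cast this
      exact DD_two (Int.emod_eq_zero_of_dvd h8)
    obtain ⟨j, hj5, hj⟩ : ∃ j : ℕ, 5 ≤ j ∧ (5 : ℤ) ∣ h + j * DD (v + 2) := by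
      have hr : DD (v + 2) % 5 = 1 ∨ DD (v + 2) % 5 = 2 ∨ DD (v + 2) % 5 = 3 ∨
          DD (v + 2) % 5 = 4 := by omega
      have hh5 : h % 5 = 0 ∨ h % 5 = 1 ∨ h % 5 = 2 ∨ h % 5 = 3 ∨ h % 5 = 4 := by omega
      obtain ⟨x, hx⟩ : ∃ x : ℤ, DD (v + 2) = 5 * x + DD (v + 2) % 5 := ⟨DD (v + 2) / 5, by omega⟩
      have aux : ∀ j : ℕ, (h % 5 + j * (DD (v + 2) % 5)) % 5 = 0 → (5 : ℤ) ∣ h + j * DD (v + 2) := by
        intro j hj
        rw [Int.dvd_iff_emod_eq_zero, Int.add_emod, Int.mul_emod]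
        rw [Int.add_emod, Int.mul_emod, Int.emod_emod_of_dvd _ (dvd_refl 5),
          Int.emod_emod_of_dvd _ (dvd_refl 5)] at hj
        exact hj
      rcases hr with hr | hr | hr | hr <;> rcases hh5 with h1 | h1 | h1 | h1 | h1 <;>
        first
        | (refine ⟨5, by norm_num, aux 5 ?_⟩; rw [hr, h1]; decide)
        | (refine ⟨6, by norm_num, aux 6 ?_⟩; rw [hr, h1]; decide)
        | (refine ⟨7, by norm_num, aux 7 ?_⟩; rw [hr, h1]; decide)
        | (refine ⟨8, by norm_num, aux 8 ?_⟩; rw [hr, h1]; decide)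
        | (refine ⟨9, by norm_num, aux 9 ?_⟩; rw [hr, h1]; decide)
    refine ⟨m + 4 * 5 ^ v * j, ?_, ?_, ?_⟩
    · have : (m + 4 * 5 ^ v * j) = m + 4 * (5 ^ v * j) := by ring
      omega
    · have h1 : 1 ≤ 5 ^ v := Nat.one_le_pow _ _ (by norm_num)
      nlinarith
    · have h1 := Hs_change (j := j) hm hmv (v + 2)
      obtain ⟨t, ht⟩ := hj
      have e : Hs (v + 2) m + 5 ^ (v + 1) * j * DD (v + 2) = 5 ^ (v + 2) * t := by
        rw [hh]
        have : (5 : ℤ) ^ (v + 2) = 5 ^ (v + 1) * 5 := by ring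
        rw [this]
        linear_combination (5 : ℤ) ^ (v + 1) * ht
      rw [e] at h1
      have h2 := dvd_add h1 (Dvd.intro t rfl : (5 : ℤ) ^ (v + 2) ∣ 5 ^ (v + 2) * t)
      rw [sub_add_cancel] at h2
      exact h2

end Pool.Agent.RDF
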