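import Pool.Agent.RDF.EFam
import Pool.Agent.RDF.Half

/-!
The exact integer identity of a cycle of even length, and its smoothed form.
-/

namespace Pool.Agent.RDF

open Finset (range)
open Pool.Agent.LibH4 Pool.Agent.LibH4.FA Pool.Agent.Lib_helper5

/-- the cone sum of a cycle (integer form) -/
def LL (K : ℕ) (P R S : ℕ → ℤ) (c : ℕ → ℕ) (q : ℕ) (f : ℤ → ℤ) : ℤ :=
  ∑ k ∈ range K, (3 * XZ q f (P k) (R k) (S k) - c k * YX q f (P k) (R k) (S k))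

/-- the exact identity -/
theorem cyc_int {K : ℕ} {P R S : ℕ → ℤ} {c : ℕ → ℕ} (h : Cyc K P R S c) (d : ℕ) (h8 : d % 8 = 5)
    (hcnt : ∀ n : ℕ, n ≠ 0 →
      ((∑ k ∈ range K, (edgeSet (P k) (R k) (S k) (c k) n).ncard : ℕ) : ℤ) = sig d n)
    (q : ℕ) (hq : 0 < q) (hcop : Nat.Coprime q d)
    (hmean : ∀ f : ℤ → ℝ, (∀ x, f (x + q) = f x) → (∀ x, f (-x) = - f x) →
      ∑ r ∈ range q, ∑ s ∈ range q,
        f (P 0 * (r : ℤ) ^ 2 + R 0 * r * s - S 0 * (s : ℤ) ^ 2) = 0)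
    (f : ℤ → ℤ) (hper : ∀ x, f (x + q) = f x) (hodd : ∀ x, f (-x) = - f x) :
    (d : ℤ) * (2 * LL K P R S c q f) = 3 * RZ q d f := by
  have hd0 : 0 < d := by omega
  have hper' : ∀ x, ((f (x + q) : ℤ) : ℝ) = ((f x : ℤ) : ℝ) := fun x => by simp only [hper]
  have hodd' : ∀ x, ((f (-x) : ℤ) : ℝ) = - ((f x : ℤ) : ℝ) := fun x => by
    simp only [hodd]; push_cast; ring
  have key := cyc_identity h d h8 q hq hcop
    (fun x => ((f x : ℤ) : ℝ)) hper' hodd' (hmean (fun x => ((f x : ℤ) : ℝ)) hper' hodd') hcnt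
  have i5 := bb_RZ hq hd0 f
  have hreal : (d : ℝ) * (2 * (∑ k ∈ range K, (3 * (XZ q f (P k) (R k) (S k) : ℝ)
      - c k * (YX q f (P k) (R k) (S k) : ℝ))))
      = 3 * (RZ q d f : ℝ) := by
    rw [← i5, ← key]
    simp only [Finset.mul_sum]
    apply Finset.sum_congr rfl
    intro k _
    rw [← SS_XZ hq, ← MX_YX hq]
    ring
  unfold LL
  exact_mod_cast hreal

/-- the exact identity for cycles of even length -/
theorem even_int (m B : ℤ) (hm : 0 < m) (hm2 : m % 2 = 1) (hB2 : B % 2 = 1) {K : ℕ}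
    {P R S : ℕ → ℤ} {c : ℕ → ℕ} (h : CG.CycM m B K P R S c) (J : ℕ) (hK : K = 2 * J) (hJ : 0 < J)
    (hcl : CG.rho m B c K = CG.rho m B c (K + 1) * CG.om m B)
    (hP1 : ∀ k < K, k ≠ 1 → P k ≠ 1)
    [IsDomain (QuadraticAlgebra ℤ m B)] [UniqueFactorizationMonoid (QuadraticAlgebra ℤ m B)]
    {d : ℕ} (hd : (d : ℤ) = B ^ 2 + 4 * m) (h8 : d % 8 = 5)
    (q : ℕ) (hq : 0 < q) (hcop : Nat.Coprime q d)
    (f : ℤ → ℤ) (hper : ∀ x, f (x + q) = f x) (hodd : ∀ x, f (-x) = - f x) :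
    (d : ℤ) * (2 * LL K P R S c q f) = 3 * RZ q d f := by
  refine cyc_int h.toCyc d h8 ?_ q hq hcop ?_ f hper hodd
  · intro n hn
    rw [← CG.count_even hm h J hK hJ hcl hP1 n hn]
    exact (ncard_SN hd h8 n hn).2
  · intro f hper hodd'
    rw [h.Pm, h.RB, h.S1]
    apply mean_even m B hm2 hB2 q hq _ f hper hodd'
    rw [← hd]
    exact Nat.isCoprime_iff_coprime.2 hcop

namespace FE

variable {A k : ℕ}

/-- congruences of the family modulo eight -/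
lemma mod8 {d : ℕ} (hd : (d : ℤ) = (2 * aa A * k) ^ 2 - aa A) (h8 : d % 8 = 5) :
    w A k % 2 = 1 ∧ bb A k % 2 = 1 := by
  have e := disc A k
  rw [← hd] at e
  exact ⟨(parity e.symm h8).2, (parity e.symm h8).1⟩

lemma hP1 (hA : 1 ≤ A) (hk : 1 ≤ k) : ∀ j < 4, j ≠ 1 → P A k j ≠ 1 := by
  have := w_pos hA hk
  have := aa_pos hA
  intro j hj hj1
  interval_cases j <;> simp only [P] <;> omega

/-- **the exact identity for the family** -/
theorem ident (hA : 1 ≤ A) (hk : 1 ≤ k)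
    [IsDomain (QuadraticAlgebra ℤ (w A k) (bb A k))]
    [UniqueFactorizationMonoid (QuadraticAlgebra ℤ (w A k) (bb A k))]
    {d : ℕ} (hd : (d : ℤ) = (2 * aa A * k) ^ 2 - aa A) (h8 : d % 8 = 5)
    (q : ℕ) (hq : 0 < q) (hcop : Nat.Coprime q d)
    (f : ℤ → ℤ) (hper : ∀ x, f (x + q) = f x) (hodd : ∀ x, f (-x) = - f x) :
    (d : ℤ) * (2 * LL 4 (P A k) (R A k) (S A k) (c A k) q f) = 3 * RZ q d f :=
  even_int (w A k) (bb A k) (by have := w_pos hA hk; omega) (mod8 hd h8).1 (mod8 hd h8).2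
    (cyc hA hk) 2 rfl (by norm_num) (closing hA hk) (hP1 hA hk) (by rw [hd, disc]) h8 q hq hcop
    f hper hodd

/-- **the congruence T5 for the family** -/
theorem T5 (hA : 1 ≤ A) (hk : 1 ≤ k)
    [IsDomain (QuadraticAlgebra ℤ (w A k) (bb A k))]
    [UniqueFactorizationMonoid (QuadraticAlgebra ℤ (w A k) (bb A k))]
    {d : ℕ} (hd : (d : ℤ) = (2 * aa A * k) ^ 2 - aa A) (h8 : d % 8 = 5)
    (q l : ℕ) (hq : 0 < q) [Fact l.Prime] (hcop : Nat.Coprime q d) (hl6 : ¬ l ∣ 6)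
    (hld : ¬ l ∣ d)
    (χ : ZMod q → ZMod l)
    (hodd : ∀ x, χ (-x) = - χ x) (hmul : ∀ x y, χ (x * y) = χ x * χ y)
    (hsum : ∑ u ∈ range q, (u : ZMod l) * χ (u : ZMod q) = 0) :
    ∑ j ∈ range 4, ∑ r ∈ range q, ∑ s ∈ range q,
      χ ((P A k j * (r : ℤ) ^ 2 + R A k j * r * s - S A k j * (s : ℤ) ^ 2 : ℤ) : ZMod q)
        * (3 * ((bZ q r : ZMod l) * bZ q s) - c A k j * b2Z q r) = 0 :=
  even_T5 (w A k) (bb A k) (by have := w_pos hA hk; omega) (mod8 hd h8).1 (mod8 hd h8).2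
    (cyc hA hk) 2 rfl (by norm_num) (closing hA hk) (hP1 hA hk) (by rw [hd, disc]) h8 q l hq hcop
    hl6 hld χ hodd hmul hsum

end FE

end Pool.Agent.RDF
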