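import Pool.Agent.RDF.KP

/-! generated data -/

namespace Pool.Agent.LibH4.KF

open Ker T6 Pool.Agent.RDF

/-- classes -/
def CRG_7 : List (ℕ × ℕ) := [((nat_lit 0), (nat_lit 1)),((nat_lit 0), (nat_lit 2)),((nat_lit 0), (nat_lit 5)),((nat_lit 0), (nat_lit 6)),((nat_lit 1), (nat_lit 1)),((nat_lit 1), (nat_lit 3)),((nat_lit 1), (nat_lit 4)),((nat_lit 1), (nat_lit 6)),((nat_lit 3), (nat_lit 0)),((nat_lit 3), (nat_lit 3)),((nat_lit 3), (nat_lit 4)),((nat_lit 4), (nat_lit 0)),((nat_lit 4), (nat_lit 1)),((nat_lit 4), (nat_lit 6)),((nat_lit 5), (nat_lit 2)),((nat_lit 5), (nat_lit 3)),((nat_lit 5), (nat_lit 4)),((nat_lit 5), (nat_lit 5)),((nat_lit 6), (nat_lit 0)),((nat_lit 6), (nat_lit 2)),((nat_lit 6), (nat_lit 5))]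

lemma memRG_7 : memCheck (nat_lit 7) (clG (nat_lit 7)) CRG_7 = true := by decide +kernel

/-- classes -/
def CRG_5 : List (ℕ × ℕ) := [((nat_lit 0), (nat_lit 2)),((nat_lit 0), (nat_lit 3)),((nat_lit 1), (nat_lit 0)),((nat_lit 1), (nat_lit 1)),((nat_lit 1), (nat_lit 4)),((nat_lit 2), (nat_lit 0)),((nat_lit 2), (nat_lit 2)),((nat_lit 2), (nat_lit 3)),((nat_lit 3), (nat_lit 1)),((nat_lit 3), (nat_lit 4))]

lemma memRG_5 : memCheck (nat_lit 5) (clG (nat_lit 5)) CRG_5 = true := by decide +kernel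

/-- classes -/
def CRG_17 : List (ℕ × ℕ) := [((nat_lit 0), (nat_lit 1)),((nat_lit 0), (nat_lit 3)),((nat_lit 0), (nat_lit 4)),((nat_lit 0), (nat_lit 7)),((nat_lit 0), (nat_lit 10)),((nat_lit 0), (nat_lit 13)),((nat_lit 0), (nat_lit 14)),((nat_lit 0), (nat_lit 16)),((nat_lit 1), (nat_lit 0)),((nat_lit 1), (nat_lit 2)),((nat_lit 1), (nat_lit 4)),((nat_lit 1), (nat_lit 7)),((nat_lit 1), (nat_lit 8)),((nat_lit 1), (nat_lit 9)),((nat_lit 1), (nat_lit 10)),((nat_lit 1), (nat_lit 13)),((nat_lit 1), (nat_lit 15)),((nat_lit 2), (nat_lit 0)),((nat_lit 2), (nat_lit 2)),((nat_lit 2), (nat_lit 3)),((nat_lit 2), (nat_lit 5)),((nat_lit 2), (nat_lit 6)),((nat_lit 2), (nat_lit 11)),((nat_lit 2), (nat_lit 12)),((nat_lit 2), (nat_lit 14)),((nat_lit 2), (nat_lit 15)),((nat_lit 3), (nat_lit 0)),((nat_lit 3), (nat_lit 1)),((nat_lit 3), (nat_lit 3)),((nat_lit 3), (nat_lit 6)),((nat_lit 3), (nat_lit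 7)),((nat_lit 3), (nat_lit 10)),((nat_lit 3), (nat_lit 11)),((nat_lit 3), (nat_lit 14)),((nat_lit 3), (nat_lit 16)),((nat_lit 4), (nat_lit 3)),((nat_lit 4), (nat_lit 4)),((nat_lit 4), (nat_lit 5)),((nat_lit 4), (nat_lit 8)),((nat_lit 4), (nat_lit 9)),((nat_lit 4), (nat_lit 12)),((nat_lit 4), (nat_lit 13)),((nat_lit 4), (nat_lit 14)),((nat_lit 5), (nat_lit 1)),((nat_lit 5), (nat_lit 2)),((nat_lit 5), (nat_lit 3)),((nat_lit 5), (nat_lit 5)),((nat_lit 5), (nat_lit 12)),((nat_lit 5), (nat_lit 14)),((nat_lit 5), (nat_lit 15)),((nat_lit 5), (nat_lit 16)),((nat_lit 6), (nat_lit 0)),((nat_lit 6), (nat_lit 4)),((nat_lit 6), (nat_lit 5)),((nat_lit 6), (nat_lit 6)),((nat_lit 6), (nat_lit 7)),((nat_lit 6), (nat_lit 10)),((nat_lit 6), (nat_lit 11)),((nat_lit 6), (nat_lit 12)),((nat_lit 6), (nat_lit 13)),((nat_lit 7), (nat_lit 0)),((nat_lit 7), (nat_lit 3)),((nat_lit 7), (nat_lit 5)),((nat_lit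 7), (nat_lit 7)),((nat_lit 7), (nat_lit 8)),((nat_lit 7), (nat_lit 9)),((nat_lit 7), (nat_lit 10)),((nat_lit 7), (nat_lit 12)),((nat_lit 7), (nat_lit 14)),((nat_lit 8), (nat_lit 0)),((nat_lit 8), (nat_lit 1)),((nat_lit 8), (nat_lit 2)),((nat_lit 8), (nat_lit 6)),((nat_lit 8), (nat_lit 8)),((nat_lit 8), (nat_lit 9)),((nat_lit 8), (nat_lit 11)),((nat_lit 8), (nat_lit 15)),((nat_lit 8), (nat_lit 16)),((nat_lit 9), (nat_lit 1)),((nat_lit 9), (nat_lit 4)),((nat_lit 9), (nat_lit 5)),((nat_lit 9), (nat_lit 6)),((nat_lit 9), (nat_lit 11)),((nat_lit 9), (nat_lit 12)),((nat_lit 9), (nat_lit 13)),((nat_lit 9), (nat_lit 16)),((nat_lit 10), (nat_lit 0)),((nat_lit 10), (nat_lit 1)),((nat_lit 10), (nat_lit 3)),((nat_lit 10), (nat_lit 4)),((nat_lit 10), (nat_lit 8)),((nat_lit 10), (nat_lit 9)),((nat_lit 10), (nat_lit 13)),((nat_lit 10), (nat_lit 14)),((nat_lit 10), (nat_lit 16)),((nat_lit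 11), (nat_lit 2)),((nat_lit 11), (nat_lit 4)),((nat_lit 11), (nat_lit 6)),((nat_lit 11), (nat_lit 7)),((nat_lit 11), (nat_lit 10)),((nat_lit 11), (nat_lit 11)),((nat_lit 11), (nat_lit 13)),((nat_lit 11), (nat_lit 15)),((nat_lit 12), (nat_lit 2)),((nat_lit 12), (nat_lit 5)),((nat_lit 12), (nat_lit 7)),((nat_lit 12), (nat_lit 8)),((nat_lit 12), (nat_lit 9)),((nat_lit 12), (nat_lit 10)),((nat_lit 12), (nat_lit 12)),((nat_lit 12), (nat_lit 15)),((nat_lit 14), (nat_lit 2)),((nat_lit 14), (nat_lit 3)),((nat_lit 14), (nat_lit 6)),((nat_lit 14), (nat_lit 8)),((nat_lit 14), (nat_lit 9)),((nat_lit 14), (nat_lit 11)),((nat_lit 14), (nat_lit 14)),((nat_lit 14), (nat_lit 15)),((nat_lit 15), (nat_lit 1)),((nat_lit 15), (nat_lit 6)),((nat_lit 15), (nat_lit 7)),((nat_lit 15), (nat_lit 8)),((nat_lit 15), (nat_lit 9)),((nat_lit 15), (nat_lit 10)),((nat_lit 15), (nat_lit 11)),((nat_lit 15),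 (nat_lit 16)),((nat_lit 16), (nat_lit 0)),((nat_lit 16), (nat_lit 1)),((nat_lit 16), (nat_lit 2)),((nat_lit 16), (nat_lit 4)),((nat_lit 16), (nat_lit 5)),((nat_lit 16), (nat_lit 12)),((nat_lit 16), (nat_lit 13)),((nat_lit 16), (nat_lit 15)),((nat_lit 16), (nat_lit 16))]

lemma memRG_17 : memCheck (nat_lit 17) (clG (nat_lit 17)) CRG_17 = true := by decide +kernel

/-- classes -/
def CRG_13 : List (ℕ × ℕ) := [((nat_lit 0), (nat_lit 1)),((nat_lit 0), (nat_lit 3)),((nat_lit 0), (nat_lit 6)),((nat_lit 0), (nat_lit 7)),((nat_lit 0), (nat_lit 10)),((nat_lit 0), (nat_lit 12)),((nat_lit 1), (nat_lit 1)),((nat_lit 1), (nat_lit 2)),((nat_lit 1), (nat_lit 6)),((nat_lit 1), (nat_lit 7)),((nat_lit 1), (nat_lit 11)),((nat_lit 1), (nat_lit 12)),((nat_lit 2), (nat_lit 0)),((nat_lit 2), (nat_lit 1)),((nat_lit 2), (nat_lit 3)),((nat_lit 2), (nat_lit 5)),((nat_lit 2), (nat_lit 8)),((nat_lit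 2), (nat_lit 10)),((nat_lit 2), (nat_lit 12)),((nat_lit 3), (nat_lit 0)),((nat_lit 3), (nat_lit 1)),((nat_lit 3), (nat_lit 4)),((nat_lit 3), (nat_lit 6)),((nat_lit 3), (nat_lit 7)),((nat_lit 3), (nat_lit 9)),((nat_lit 3), (nat_lit 12)),((nat_lit 4), (nat_lit 0)),((nat_lit 4), (nat_lit 4)),((nat_lit 4), (nat_lit 5)),((nat_lit 4), (nat_lit 6)),((nat_lit 4), (nat_lit 7)),((nat_lit 4), (nat_lit 8)),((nat_lit 4), (nat_lit 9)),((nat_lit 5), (nat_lit 0)),((nat_lit 5), (nat_lit 1)),((nat_lit 5), (nat_lit 2)),((nat_lit 5), (nat_lit 5)),((nat_lit 5), (nat_lit 8)),((nat_lit 5), (nat_lit 11)),((nat_lit 5), (nat_lit 12)),((nat_lit 6), (nat_lit 3)),((nat_lit 6), (nat_lit 4)),((nat_lit 6), (nat_lit 5)),((nat_lit 6), (nat_lit 8)),((nat_lit 6), (nat_lit 9)),((nat_lit 6), (nat_lit 10)),((nat_lit 7), (nat_lit 2)),((nat_lit 7), (nat_lit 4)),((nat_lit 7), (nat_lit 5)),((nat_lit 7), (nat_lit 8)),((nat_lit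 7), (nat_lit 9)),((nat_lit 7), (nat_lit 11)),((nat_lit 8), (nat_lit 0)),((nat_lit 8), (nat_lit 2)),((nat_lit 8), (nat_lit 3)),((nat_lit 8), (nat_lit 6)),((nat_lit 8), (nat_lit 7)),((nat_lit 8), (nat_lit 10)),((nat_lit 8), (nat_lit 11)),((nat_lit 9), (nat_lit 3)),((nat_lit 9), (nat_lit 5)),((nat_lit 9), (nat_lit 6)),((nat_lit 9), (nat_lit 7)),((nat_lit 9), (nat_lit 8)),((nat_lit 9), (nat_lit 10)),((nat_lit 11), (nat_lit 1)),((nat_lit 11), (nat_lit 2)),((nat_lit 11), (nat_lit 4)),((nat_lit 11), (nat_lit 9)),((nat_lit 11), (nat_lit 11)),((nat_lit 11), (nat_lit 12)),((nat_lit 12), (nat_lit 0)),((nat_lit 12), (nat_lit 2)),((nat_lit 12), (nat_lit 3)),((nat_lit 12), (nat_lit 4)),((nat_lit 12), (nat_lit 9)),((nat_lit 12), (nat_lit 10)),((nat_lit 12), (nat_lit 11))]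

lemma memRG_13 : memCheck (nat_lit 13) (clG (nat_lit 13)) CRG_13 = true := by decide +kernel

/-- classes -/
def CRG_3 : List (ℕ × ℕ) := [((nat_lit 0), (nat_lit 1)),((nat_lit 0), (nat_lit 2)),((nat_lit 2), (nat_lit 0))]

lemma memRG_3 : memCheck (nat_lit 3) (clG (nat_lit 3)) CRG_3 = true := by decide +kernel

/-- classes -/
def CRG_19 : List (ℕ × ℕ) := [((nat_lit 0), (nat_lit 3)),((nat_lit 0), (nat_lit 4)),((nat_lit 0), (nat_lit 6)),((nat_lit 0), (nat_lit 8)),((nat_lit 0), (nat_lit 9)),((nat_lit 0), (nat_lit 10)),((nat_lit 0), (nat_lit 11)),((nat_lit 0), (nat_lit 13)),((nat_lit 0), (nat_lit 15)),((nat_lit 0), (nat_lit 16)),((nat_lit 1), (nat_lit 1)),((nat_lit 1), (nat_lit 2)),((nat_lit 1), (nat_lit 4)),((nat_lit 1), (nat_lit 7)),((nat_lit 1), (nat_lit 8)),((nat_lit 1), (nat_lit 11)),((nat_lit 1), (nat_lit 12)),((nat_lit 1), (nat_lit 15)),((nat_lit 1), (nat_lit 17)),((nat_lit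 1), (nat_lit 18)),((nat_lit 2), (nat_lit 0)),((nat_lit 2), (nat_lit 1)),((nat_lit 2), (nat_lit 4)),((nat_lit 2), (nat_lit 5)),((nat_lit 2), (nat_lit 7)),((nat_lit 2), (nat_lit 12)),((nat_lit 2), (nat_lit 14)),((nat_lit 2), (nat_lit 15)),((nat_lit 2), (nat_lit 18)),((nat_lit 3), (nat_lit 0)),((nat_lit 3), (nat_lit 3)),((nat_lit 3), (nat_lit 7)),((nat_lit 3), (nat_lit 8)),((nat_lit 3), (nat_lit 9)),((nat_lit 3), (nat_lit 10)),((nat_lit 3), (nat_lit 11)),((nat_lit 3), (nat_lit 12)),((nat_lit 3), (nat_lit 16)),((nat_lit 4), (nat_lit 2)),((nat_lit 4), (nat_lit 3)),((nat_lit 4), (nat_lit 4)),((nat_lit 4), (nat_lit 5)),((nat_lit 4), (nat_lit 8)),((nat_lit 4), (nat_lit 11)),((nat_lit 4), (nat_lit 14)),((nat_lit 4), (nat_lit 15)),((nat_lit 4), (nat_lit 16)),((nat_lit 4), (nat_lit 17)),((nat_lit 6), (nat_lit 0)),((nat_lit 6), (nat_lit 1)),((nat_lit 6), (nat_lit 3)),((nat_lit 6), (nat_lit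 4)),((nat_lit 6), (nat_lit 9)),((nat_lit 6), (nat_lit 10)),((nat_lit 6), (nat_lit 15)),((nat_lit 6), (nat_lit 16)),((nat_lit 6), (nat_lit 18)),((nat_lit 7), (nat_lit 4)),((nat_lit 7), (nat_lit 5)),((nat_lit 7), (nat_lit 6)),((nat_lit 7), (nat_lit 7)),((nat_lit 7), (nat_lit 9)),((nat_lit 7), (nat_lit 10)),((nat_lit 7), (nat_lit 12)),((nat_lit 7), (nat_lit 13)),((nat_lit 7), (nat_lit 14)),((nat_lit 7), (nat_lit 15)),((nat_lit 8), (nat_lit 1)),((nat_lit 8), (nat_lit 2)),((nat_lit 8), (nat_lit 4)),((nat_lit 8), (nat_lit 6)),((nat_lit 8), (nat_lit 9)),((nat_lit 8), (nat_lit 10)),((nat_lit 8), (nat_lit 13)),((nat_lit 8), (nat_lit 15)),((nat_lit 8), (nat_lit 17)),((nat_lit 8), (nat_lit 18)),((nat_lit 9), (nat_lit 0)),((nat_lit 9), (nat_lit 2)),((nat_lit 9), (nat_lit 5)),((nat_lit 9), (nat_lit 8)),((nat_lit 9), (nat_lit 9)),((nat_lit 9), (nat_lit 10)),((nat_lit 9), (nat_lit 11)),((nat_lit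 9), (nat_lit 14)),((nat_lit 9), (nat_lit 17)),((nat_lit 10), (nat_lit 0)),((nat_lit 10), (nat_lit 1)),((nat_lit 10), (nat_lit 2)),((nat_lit 10), (nat_lit 6)),((nat_lit 10), (nat_lit 8)),((nat_lit 10), (nat_lit 11)),((nat_lit 10), (nat_lit 13)),((nat_lit 10), (nat_lit 17)),((nat_lit 10), (nat_lit 18)),((nat_lit 11), (nat_lit 0)),((nat_lit 11), (nat_lit 2)),((nat_lit 11), (nat_lit 3)),((nat_lit 11), (nat_lit 4)),((nat_lit 11), (nat_lit 7)),((nat_lit 11), (nat_lit 12)),((nat_lit 11), (nat_lit 15)),((nat_lit 11), (nat_lit 16)),((nat_lit 11), (nat_lit 17)),((nat_lit 12), (nat_lit 0)),((nat_lit 12), (nat_lit 2)),((nat_lit 12), (nat_lit 6)),((nat_lit 12), (nat_lit 7)),((nat_lit 12), (nat_lit 9)),((nat_lit 12), (nat_lit 10)),((nat_lit 12), (nat_lit 12)),((nat_lit 12), (nat_lit 13)),((nat_lit 12), (nat_lit 17)),((nat_lit 13), (nat_lit 2)),((nat_lit 13), (nat_lit 3)),((nat_lit 13),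 (nat_lit 5)),((nat_lit 13), (nat_lit 6)),((nat_lit 13), (nat_lit 7)),((nat_lit 13), (nat_lit 12)),((nat_lit 13), (nat_lit 13)),((nat_lit 13), (nat_lit 14)),((nat_lit 13), (nat_lit 16)),((nat_lit 13), (nat_lit 17)),((nat_lit 14), (nat_lit 0)),((nat_lit 14), (nat_lit 1)),((nat_lit 14), (nat_lit 3)),((nat_lit 14), (nat_lit 5)),((nat_lit 14), (nat_lit 6)),((nat_lit 14), (nat_lit 13)),((nat_lit 14), (nat_lit 14)),((nat_lit 14), (nat_lit 16)),((nat_lit 14), (nat_lit 18)),((nat_lit 15), (nat_lit 1)),((nat_lit 15), (nat_lit 5)),((nat_lit 15), (nat_lit 7)),((nat_lit 15), (nat_lit 8)),((nat_lit 15), (nat_lit 9)),((nat_lit 15), (nat_lit 10)),((nat_lit 15), (nat_lit 11)),((nat_lit 15), (nat_lit 12)),((nat_lit 15), (nat_lit 14)),((nat_lit 15), (nat_lit 18)),((nat_lit 16), (nat_lit 0)),((nat_lit 16), (nat_lit 4)),((nat_lit 16), (nat_lit 5)),((nat_lit 16), (nat_lit 6)),((nat_lit 16), (nat_lit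 8)),((nat_lit 16), (nat_lit 11)),((nat_lit 16), (nat_lit 13)),((nat_lit 16), (nat_lit 14)),((nat_lit 16), (nat_lit 15)),((nat_lit 17), (nat_lit 1)),((nat_lit 17), (nat_lit 2)),((nat_lit 17), (nat_lit 3)),((nat_lit 17), (nat_lit 5)),((nat_lit 17), (nat_lit 9)),((nat_lit 17), (nat_lit 10)),((nat_lit 17), (nat_lit 14)),((nat_lit 17), (nat_lit 16)),((nat_lit 17), (nat_lit 17)),((nat_lit 17), (nat_lit 18)),((nat_lit 18), (nat_lit 1)),((nat_lit 18), (nat_lit 3)),((nat_lit 18), (nat_lit 6)),((nat_lit 18), (nat_lit 7)),((nat_lit 18), (nat_lit 8)),((nat_lit 18), (nat_lit 11)),((nat_lit 18), (nat_lit 12)),((nat_lit 18), (nat_lit 13)),((nat_lit 18), (nat_lit 16)),((nat_lit 18), (nat_lit 18))]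

lemma memRG_19 : memCheck (nat_lit 19) (clG (nat_lit 19)) CRG_19 = true := by decide +kernel

/-- classes -/
def CRG_15 : List (ℕ × ℕ) := [((nat_lit 0), (nat_lit 7)),((nat_lit 0), (nat_lit 13)),((nat_lit 6), (nat_lit 10)),((nat_lit 6), (nat_lit 1)),((nat_lit 6), (nat_lit 4)),((nat_lit 12), (nat_lit 10)),((nat_lit 12), (nat_lit 7)),((nat_lit 12), (nat_lit 13)),((nat_lit 3), (nat_lit 1)),((nat_lit 3), (nat_lit 4)),((nat_lit 0), (nat_lit 2)),((nat_lit 0), (nat_lit 8)),((nat_lit 6), (nat_lit 5)),((nat_lit 6), (nat_lit 11)),((nat_lit 6), (nat_lit 14)),((nat_lit 12), (nat_lit 5)),((nat_lit 12), (nat_lit 2)),((nat_lit 12), (nat_lit 8)),((nat_lit 3), (nat_lit 11)),((nat_lit 3), (nat_lit 14)),((nat_lit 5), (nat_lit 12)),((nat_lit 5), (nat_lit 3)),((nat_lit 11), (nat_lit 0)),((nat_lit 11), (nat_lit 6)),((nat_lit 11), (nat_lit 9)),((nat_lit 2), (nat_lit 0)),((nat_lit 2), (nat_lit 12)),((nat_lit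 2), (nat_lit 3)),((nat_lit 8), (nat_lit 6)),((nat_lit 8), (nat_lit 9))]

lemma lenRG_15 : CRG_5.length = 10 := by decide +kernel

lemma prdRG_15 {a t i j : ℕ} (hi : i < CRG_3.length) (hj : j < CRG_5.length)
    (h1 : CRG_3[i] = (a % 3, t % 3)) (h2 : CRG_5[j] = (a % 5, t % 5)) :
    ∃ h : i * 10 + j < CRG_15.length, CRG_15[i * 10 + j] = (a % 15, t % 15) := by
  have e : CRG_15 = prodL 15 10 6 CRG_3 CRG_5 := by decide +kernel
  obtain ⟨h3, h4⟩ := prodL_get 15 10 6 CRG_3 CRG_5 hi hj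
  rw [h1, h2] at h4
  simp only [lenRG_15] at h3 h4
  simp only [← e] at h3 h4
  refine ⟨h3, ?_⟩
  rw [h4]
  ext
  · change (a % 3 * 10 + a % 5 * 6) % 15 = a % 15
    omega
  · change (t % 3 * 10 + t % 5 * 6) % 15 = t % 15
    omega

end Pool.Agent.LibH4.KF
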