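import Pool.Agent.RDF.KP

/-! generated data -/

namespace Pool.Agent.LibH4.KF

open Ker T6

/-- weights -/
def DR_7_15_13_0 : List ((ℕ × ℕ) × ℕ) := [((nat_lit 1, nat_lit 0), nat_lit 13264634073520059132043805207518552153263646328965461482170666769991791083463833253913607697779779118513209964256323130040867545677731798616935337629615795450290447459364922720854780386494140914215752187706606802866571703028873987771335775816200400151791956809954569652525748372534021191929352855510743869795799336200800768622592),
  ((nat_lit 1, nat_lit 1), nat_lit 71215483227441863203080286472516997024616805941040005353901232305630494606677754440331148812894893292996704326041624129915720420593175126612328296658474567810102697115838575011802524578726697092763011504650123144152123645818430197383979854574213121444318328873037526022292272925495086673690990916095879420104726828297031687348028021145607),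
  ((nat_lit 1, nat_lit 2), nat_lit 28487106075547046912634864449795136715151245329652898137168739168174382556153221292502295663669641404793145345363487551477303302701537350441331441203342269811505665424096453854247141569701485903402377206323518691053746525897578530835758644854773496847291266489064252214366105115963433212910845510233120660345242900246133634852608783941642),
  ((nat_lit 1, nat_lit 3), nat_lit 85456971644818914559235200845043979925380058318674374211098703435027522929776035222355651564344576680422492623720066259718276244700506309503823965678394481147866787405793672991491964478731652362869937328515366290957443525091848667102641152441458256528169863759786222710343631342542947269607532161973742020448669197812329633611054143504386),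
  ((nat_lit 1, nat_lit 4), nat_lit 85459362250230041482962548917044310806821152116990115081480854766722958676281935595983074766843493329959498675631666257269537143552475791659715209834002256463470767555986395578285832680757229307089728349530666360877549356179969875715479400537073906330855308748230335012102295329498272664019230679570245924540678471881069039494032844128267),
  ((nat_lit 1, nat_lit 5), nat_lit 28486888747782399015531600007053028776625558007198877825933475712843894579855346076573357835966607226878940961231192168240791757822778356330558882850209698455471066304157678475779063388242183070321466196430721006520677604989947952628631110256375272116874270433100697435856255340339792156613681560167956065186791894535792835684556999753731),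
  ((nat_lit 1, nat_lit 6), nat_lit 71215265899677215305977022029774883599967049824877811158706917664930029791212230934382727234104117765278182960409036367144690851344565705005732443554511686809674367326169110202402903259116099892194195012607196495146695746707075292840362732206921098520592715857595223067562292510041507589768868883047372298032156356000324096261589664006150),
  ((nat_lit 0, nat_lit 1), nat_lit 71213961919824693822813759962607589924992830259152498975761530089717982622029243075537596745095916791377911395778973440098668501795155263731334707689327645725258995209388717989793898218959195301010985992391354517021588384864203574485901322506993125204030194947744779322318858552919152959226960105145342178795770228398179748361303123558400)]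

theorem dr_7_15_13_0 : DR_7_15_13_0 = DRstd 7 15 13 15 91 212419344 108297520107227152 P7 P15 :=
  drCheck_spec (by decide +kernel : drCheck (nat_lit 7) (nat_lit 15) (nat_lit 105) (nat_lit 13)
    (nat_lit 15) (nat_lit 91) (nat_lit 212419344) (nat_lit 108297520107227152) P7 P15 DR_7_15_13_0 = true)

lemma hyp_7_15_13_0 : Hyp 7 15 13 15 91 212419344 108297520107227152 P7 P15 :=
  mkHyp (by norm_num) (by norm_num) (by norm_num) (by norm_num) (by norm_num)
    (by decide +kernel : tabCheck (nat_lit 7) (nat_lit 13) (nat_lit 212419344) = true)
    (by decide +kernel : tabCheck (nat_lit 15) (nat_lit 13) (nat_lit 108297520107227152) = true)
    (by decide +kernel : obCheck (nat_lit 7) (nat_lit 15) (nat_lit 105) (nat_lit 13) (nat_lit 212419344) (nat_lit 108297520107227152) = true)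
    isP1_7 isP1_15 (by decide) (by decide) (by norm_num) (by norm_num) (by norm_num)

end Pool.Agent.LibH4.KF
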