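import Pool.Agent.Lib_helper4.KR_7_17_13_0
import Pool.Agent.Lib_helper4.KR_7_17_5_0
import Pool.Agent.RDF.KR_17_13_5_0
import Pool.Agent.RDF.KR_7_15_13_0

/-! generated data -/

namespace Pool.Agent.LibH4.KF

open Ker T6 Pool.Agent.RDF

/-- classes -/
def CRGc_7 : List (ℕ × ℕ) := [((nat_lit 5), (nat_lit 2)),((nat_lit 5), (nat_lit 3)),((nat_lit 5), (nat_lit 4)),((nat_lit 5), (nat_lit 5))]

lemma memRGc_7 : memCheck (nat_lit 7) (spc (nat_lit 5) (clG (nat_lit 7))) CRGc_7 = true := by decide +kernel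

/-- classes -/
def CRGc_5 : List (ℕ × ℕ) := [((nat_lit 0), (nat_lit 2)),((nat_lit 0), (nat_lit 3))]

lemma memRGc_5 : memCheck (nat_lit 5) (spc (nat_lit 0) (clG (nat_lit 5))) CRGc_5 = true := by decide +kernel

/-- classes -/
def CRGc_17 : List (ℕ × ℕ) := [((nat_lit 5), (nat_lit 1)),((nat_lit 5), (nat_lit 2)),((nat_lit 5), (nat_lit 3)),((nat_lit 5), (nat_lit 5)),((nat_lit 5), (nat_lit 12)),((nat_lit 5), (nat_lit 14)),((nat_lit 5), (nat_lit 15)),((nat_lit 5), (nat_lit 16))]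

lemma memRGc_17 : memCheck (nat_lit 17) (spc (nat_lit 5) (clG (nat_lit 17))) CRGc_17 = true := by decide +kernel

/-- classes -/
def CRGc_13 : List (ℕ × ℕ) := [((nat_lit 5), (nat_lit 0)),((nat_lit 5), (nat_lit 1)),((nat_lit 5), (nat_lit 2)),((nat_lit 5), (nat_lit 5)),((nat_lit 5), (nat_lit 8)),((nat_lit 5), (nat_lit 11)),((nat_lit 5), (nat_lit 12))]

lemma memRGc_13 : memCheck (nat_lit 13) (spc (nat_lit 5) (clG (nat_lit 13))) CRGc_13 = true := by decide +kernel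

/-- classes -/
def CRGc_3 : List (ℕ × ℕ) := [((nat_lit 2), (nat_lit 0))]

lemma memRGc_3 : memCheck (nat_lit 3) (spc (nat_lit 2) (clG (nat_lit 3))) CRGc_3 = true := by decide +kernel

/-- classes -/
def CRGc_15 : List (ℕ × ℕ) := [((nat_lit 5), (nat_lit 12)),((nat_lit 5), (nat_lit 3))]

lemma lenRGc_15 : CRGc_5.length = 2 := by decide +kernel

lemma prdRGc_15 {a t i j : ℕ} (hi : i < CRGc_3.length) (hj : j < CRGc_5.length)
    (h1 : CRGc_3[i] = (a % 3, t % 3)) (h2 : CRGc_5[j] = (a % 5, t % 5)) :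
    ∃ h : i * 2 + j < CRGc_15.length, CRGc_15[i * 2 + j] = (a % 15, t % 15) := by
  have e : CRGc_15 = prodL 15 10 6 CRGc_3 CRGc_5 := by decide +kernel
  obtain ⟨h3, h4⟩ := prodL_get 15 10 6 CRGc_3 CRGc_5 hi hj
  rw [h1, h2] at h4
  simp only [lenRGc_15] at h3 h4
  simp only [← e] at h3 h4
  refine ⟨h3, ?_⟩
  rw [h4]
  ext
  · change (a % 3 * 10 + a % 5 * 6) % 15 = a % 15
    omega
  · change (t % 3 * 10 + t % 5 * 6) % 15 = t % 15
    omega

/-- table -/
def TBRGc_7_17_5_0 : ℕ := nat_lit 3107897041880710474925687902215523126043388412047720597644676084040193403526236989387853744832184250189334227202370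

theorem ctRGc_7_17_5_0 : checkR (nat_lit 96) (nat_lit 7) (nat_lit 17) (nat_lit 5) (nat_lit 71385360) (nat_lit 19893600294952583440)
    DR_7_17_5_0 formsG P17 CRGc_7 CRGc_17 TBRGc_7_17_5_0 = true := by
  decide +kernel

/-- table -/
def TBRGc_7_17_13_0 : ℕ := nat_lit 13299424472504114989223426416626746885140114471238684668234602560504818785777198957166742641295025254754479916909931

theorem ctRGc_7_17_13_0 : checkR (nat_lit 96) (nat_lit 7) (nat_lit 17) (nat_lit 13) (nat_lit 205760784) (nat_lit 32865112616832437264)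
    DR_7_17_13_0 formsG P17 CRGc_7 CRGc_17 TBRGc_7_17_13_0 = true := by
  decide +kernel

/-- table -/
def TBRGc_17_13_5_0 : ℕ := nat_lit 3756409801935201226857851594611770111357838687308117016001640895799508099064625353889254112826278557841622998078405458330940314434645541472690054511542670688039110426581609357932729463302804670956770065

theorem ctRGc_17_13_5_0 : checkR (nat_lit 84) (nat_lit 17) (nat_lit 13) (nat_lit 5) (nat_lit 23207668197802189840) (nat_lit 1165560225469200)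
    DR_17_13_5_0 formsG P13 CRGc_17 CRGc_13 TBRGc_17_13_5_0 = true := by
  decide +kernel

/-- table -/
def TBRGc_7_15_13_0 : ℕ := nat_lit 23604034794379154692961502403

theorem ctRGc_7_15_13_0 : checkR (nat_lit 24) (nat_lit 7) (nat_lit 15) (nat_lit 13) (nat_lit 212419344) (nat_lit 108297520107227152)
    DR_7_15_13_0 formsG P15 CRGc_7 CRGc_15 TBRGc_7_15_13_0 = true := by
  decide +kernel

/-- stage -/
def stRGc_4 (a13 i5 r_7_15_13_0 t13 : ℕ) : Bool :=
  allI (fun i3 c3 =>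
    imp (chkG (nat_lit 13) (dg (nat_lit 12) r_7_15_13_0 (Nat.add (Nat.mul i3 (nat_lit 2)) i5)) a13 t13) <|
    false) CRGc_3 (nat_lit 0)

/-- stage -/
def stRGc_3 (a5 e_7_17_13_0 i5 r_17_13_5_0 r_7_15_13_0 t5 : ℕ) : Bool :=
  allI (fun i13 c13 =>
    imp (chkG (nat_lit 13) e_7_17_13_0 c13.1 c13.2) <|
    imp (chkG (nat_lit 5) (dg (nat_lit 12) r_17_13_5_0 i13) a5 t5) <|
    stRGc_4 c13.1 i5 r_7_15_13_0 c13.2) CRGc_13 (nat_lit 0)

/-- stage -/
def stRGc_2 (a5 i5 r_7_15_13_0 r_7_17_13_0 r_7_17_5_0 t5 : ℕ) : Bool :=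
  allI (fun i17 c17 =>
    imp (chkG (nat_lit 5) (dg (nat_lit 12) r_7_17_5_0 i17) a5 t5) <|
    strict (dg (nat_lit 12) r_7_17_13_0 i17) fun e_7_17_13_0 =>
    strict (dg (nat_lit 84) TBRGc_17_13_5_0 i17) fun r_17_13_5_0 =>
    stRGc_3 a5 e_7_17_13_0 i5 r_17_13_5_0 r_7_15_13_0 t5) CRGc_17 (nat_lit 0)

/-- stage -/
def stRGc_1 (r_7_15_13_0 r_7_17_13_0 r_7_17_5_0 : ℕ) : Bool :=
  allI (fun i5 c5 =>
    stRGc_2 c5.1 i5 r_7_15_13_0 r_7_17_13_0 r_7_17_5_0 c5.2) CRGc_5 (nat_lit 0)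

/-- stage -/
def bdRGc (i7 : ℕ) (c7 : ℕ × ℕ) : Bool :=
    strict (dg (nat_lit 96) TBRGc_7_17_5_0 i7) fun r_7_17_5_0 =>
    strict (dg (nat_lit 96) TBRGc_7_17_13_0 i7) fun r_7_17_13_0 =>
    strict (dg (nat_lit 24) TBRGc_7_15_13_0 i7) fun r_7_15_13_0 =>
    stRGc_1 r_7_15_13_0 r_7_17_13_0 r_7_17_5_0

theorem allRGc : allI (fun i c => bdRGc i c) CRGc_7 (nat_lit 0) = true := by
  decide +kernel

theorem falseRGc {a t : ℕ} {i7 i5 i17 i13 i3 : ℕ}
    (b7 : i7 < CRGc_7.length)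
    (b5 : i5 < CRGc_5.length)
    (b17 : i17 < CRGc_17.length)
    (b13 : i13 < CRGc_13.length)
    (b3 : i3 < CRGc_3.length)
    (top : bdRGc i7 CRGc_7[i7] = true)
    (h7 : CRGc_7[i7] = (a % 7, t % 7))
    (h5 : CRGc_5[i5] = (a % 5, t % 5))
    (h17 : CRGc_17[i17] = (a % 17, t % 17))
    (h13 : CRGc_13[i13] = (a % 13, t % 13))
    (h3 : CRGc_3[i3] = (a % 3, t % 3))
    (r_7_17_5_0 : chkG 5 (dg 12 (dg 96 TBRGc_7_17_5_0 i7) i17) (a % 5) (t % 5) = true)
    (r_7_17_13_0 : chkG 13 (dg 12 (dg 96 TBRGc_7_17_13_0 i7) i17) (a % 13) (t % 13) = true)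
    (r_17_13_5_0 : chkG 5 (dg 12 (dg 84 TBRGc_17_13_5_0 i17) i13) (a % 5) (t % 5) = true)
    (r_7_15_13_0 : chkG 13 (dg 12 (dg 24 TBRGc_7_15_13_0 i7) (i3 * 2 + i5)) (a % 13) (t % 13) = true)
    : False := by
  try rw [h7] at top
  unfold bdRGc at top
  simp only [strict_eq] at top
  unfold stRGc_1 at top
  replace top := allI_get top b5
  try rw [h5] at top
  unfold stRGc_2 at top
  replace top := allI_get top b17
  try rw [h17] at top
  simp only [strict_eq] at top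
  replace top := imp_spec top r_7_17_5_0
  unfold stRGc_3 at top
  replace top := allI_get top b13
  try rw [h13] at top
  replace top := imp_spec top r_7_17_13_0
  replace top := imp_spec top r_17_13_5_0
  unfold stRGc_4 at top
  replace top := allI_get top b3
  try rw [h3] at top
  replace top := imp_spec top r_7_15_13_0
  exact Bool.false_ne_true top

/-- no field with `a = 19` -/
theorem noG19 {a n d : ℕ} (ha : a = 5) (hd : (d : ℤ) = (2 * FE.aa a * n) ^ 2 - FE.aa a)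
    (j3 : jacobiSym d 3 = -1)
    (j5 : jacobiSym d 5 = -1)
    (j7 : jacobiSym d 7 = -1)
    (j13 : jacobiSym d 13 = -1)
    (j17 : jacobiSym d 17 = -1)
    (hT : AllG a n d) : False := by
  have q3 : ¬ 3 ∣ d := nd_of (by norm_num) j3
  have q5 : ¬ 5 ∣ d := nd_of (by norm_num) j5
  have q7 : ¬ 7 ∣ d := nd_of (by norm_num) j7
  have q13 : ¬ 13 ∣ d := nd_of (by norm_num) j13
  have q17 : ¬ 17 ∣ d := nd_of (by norm_num) j17
  have c7 : Nat.Coprime 7 d := cop_of (p := 7) (k := 1) (by norm_num) q7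
  have c5 : Nat.Coprime 5 d := cop_of (p := 5) (k := 1) (by norm_num) q5
  have c17 : Nat.Coprime 17 d := cop_of (p := 17) (k := 1) (by norm_num) q17
  have c13 : Nat.Coprime 13 d := cop_of (p := 13) (k := 1) (by norm_num) q13
  have c3 : Nat.Coprime 3 d := cop_of (p := 3) (k := 1) (by norm_num) q3
  have c15 : Nat.Coprime 15 d := c3.mul_left c5
  obtain ⟨i7, b7, e7⟩ := memCheck_spec memRGc_7 (Nat.mod_lt a (by norm_num))
    (Nat.mod_lt n (by norm_num)) (spc_of (clG_of (n := 7) (by norm_num) (by norm_num) hd j7) (by rw [ha]))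
  obtain ⟨i5, b5, e5⟩ := memCheck_spec memRGc_5 (Nat.mod_lt a (by norm_num))
    (Nat.mod_lt n (by norm_num)) (spc_of (clG_of (n := 5) (by norm_num) (by norm_num) hd j5) (by rw [ha]))
  obtain ⟨i17, b17, e17⟩ := memCheck_spec memRGc_17 (Nat.mod_lt a (by norm_num))
    (Nat.mod_lt n (by norm_num)) (spc_of (clG_of (n := 17) (by norm_num) (by norm_num) hd j17) (by rw [ha]))
  obtain ⟨i13, b13, e13⟩ := memCheck_spec memRGc_13 (Nat.mod_lt a (by norm_num))
    (Nat.mod_lt n (by norm_num)) (spc_of (clG_of (n := 13) (by norm_num) (by norm_num) hd j13) (by rw [ha]))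
  obtain ⟨i3, b3, e3⟩ := memCheck_spec memRGc_3 (Nat.mod_lt a (by norm_num))
    (Nat.mod_lt n (by norm_num)) (spc_of (clG_of (n := 3) (by norm_num) (by norm_num) hd j3) (by rw [ha]))
  obtain ⟨b15, e15⟩ := prdRGc_15 b3 b5 e3 e5
  exact falseRGc b7 b5 b17 b13 b3 (allI_get allRGc b7)
    e7 e5 e17 e13 e3
    (chkG_of hyp_7_17_5_0 dr_7_17_5_0 ctRGc_7_17_5_0 hT (by norm_num) (by norm_num) (c7.mul_left c17) q5 b7 b17 e7 e17)
    (chkG_of hyp_7_17_13_0 dr_7_17_13_0 ctRGc_7_17_13_0 hT (by norm_num) (by norm_num) (c7.mul_left c17) q13 b7 b17 e7 e17)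
    (chkG_of hyp_17_13_5_0 dr_17_13_5_0 ctRGc_17_13_5_0 hT (by norm_num) (by norm_num) (c17.mul_left c13) q5 b17 b13 e17 e13)
    (chkG_of hyp_7_15_13_0 dr_7_15_13_0 ctRGc_7_15_13_0 hT (by norm_num) (by norm_num) (c7.mul_left c15) q13 b7 b15 e7 e15)

end Pool.Agent.LibH4.KF
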