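import Pool.Agent.Lib_helper4.KR_7_17_13_0
import Pool.Agent.Lib_helper4.KR_7_17_5_0
import Pool.Agent.RDF.KR_17_13_5_0

/-! generated data -/

namespace Pool.Agent.LibH4.KF

open Ker T6 Pool.Agent.RDF

/-- classes -/
def CRGa_7 : List (ℕ × ℕ) := [((nat_lit 1), (nat_lit 1)),((nat_lit 1), (nat_lit 3)),((nat_lit 1), (nat_lit 4)),((nat_lit 1), (nat_lit 6))]

lemma memRGa_7 : memCheck (nat_lit 7) (spc (nat_lit 1) (clG (nat_lit 7))) CRGa_7 = true := by decide +kernel

/-- classes -/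
def CRGa_5 : List (ℕ × ℕ) := [((nat_lit 1), (nat_lit 0)),((nat_lit 1), (nat_lit 1)),((nat_lit 1), (nat_lit 4))]

lemma memRGa_5 : memCheck (nat_lit 5) (spc (nat_lit 1) (clG (nat_lit 5))) CRGa_5 = true := by decide +kernel

/-- classes -/
def CRGa_17 : List (ℕ × ℕ) := [((nat_lit 1), (nat_lit 0)),((nat_lit 1), (nat_lit 2)),((nat_lit 1), (nat_lit 4)),((nat_lit 1), (nat_lit 7)),((nat_lit 1), (nat_lit 8)),((nat_lit 1), (nat_lit 9)),((nat_lit 1), (nat_lit 10)),((nat_lit 1), (nat_lit 13)),((nat_lit 1), (nat_lit 15))]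

lemma memRGa_17 : memCheck (nat_lit 17) (spc (nat_lit 1) (clG (nat_lit 17))) CRGa_17 = true := by decide +kernel

/-- classes -/
def CRGa_13 : List (ℕ × ℕ) := [((nat_lit 1), (nat_lit 1)),((nat_lit 1), (nat_lit 2)),((nat_lit 1), (nat_lit 6)),((nat_lit 1), (nat_lit 7)),((nat_lit 1), (nat_lit 11)),((nat_lit 1), (nat_lit 12))]

lemma memRGa_13 : memCheck (nat_lit 13) (spc (nat_lit 1) (clG (nat_lit 13))) CRGa_13 = true := by decide +kernel

/-- table -/
def TBRGa_7_17_5_0 : ℕ := nat_lit 2957513017799347575085217710484545391322439704275634742781174257113825469610819043243252783394933610350458509446078844489613706305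

theorem ctRGa_7_17_5_0 : checkR (nat_lit 108) (nat_lit 7) (nat_lit 17) (nat_lit 5) (nat_lit 71385360) (nat_lit 19893600294952583440)
    DR_7_17_5_0 formsG P17 CRGa_7 CRGa_17 TBRGa_7_17_5_0 = true := by
  decide +kernel

/-- table -/
def TBRGa_7_17_13_0 : ℕ := nat_lit 6489191322048693596226374007122697932191000187810893594236030997502641743497149424639962336350682720776746761236983351496358087004

theorem ctRGa_7_17_13_0 : checkR (nat_lit 108) (nat_lit 7) (nat_lit 17) (nat_lit 13) (nat_lit 205760784) (nat_lit 32865112616832437264)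
    DR_7_17_13_0 formsG P17 CRGa_7 CRGa_17 TBRGa_7_17_13_0 = true := by
  decide +kernel

/-- table -/
def TBRGa_17_13_5_0 : ℕ := nat_lit 224469776935337037398570304318405226328274276554073234467602138565532907744699423944420384126844530952044317050414584934376919500894368851457062737370432618238082292415243328828361676630587949840

theorem ctRGa_17_13_5_0 : checkR (nat_lit 72) (nat_lit 17) (nat_lit 13) (nat_lit 5) (nat_lit 23207668197802189840) (nat_lit 1165560225469200)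
    DR_17_13_5_0 formsG P13 CRGa_17 CRGa_13 TBRGa_17_13_5_0 = true := by
  decide +kernel

/-- stage -/
def stRGa_3 (a5 e_7_17_13_0 r_17_13_5_0 t5 : ℕ) : Bool :=
  allI (fun i13 c13 =>
    imp (chkG (nat_lit 13) e_7_17_13_0 c13.1 c13.2) <|
    imp (chkG (nat_lit 5) (dg (nat_lit 12) r_17_13_5_0 i13) a5 t5) <|
    false) CRGa_13 (nat_lit 0)

/-- stage -/
def stRGa_2 (a5 r_7_17_13_0 r_7_17_5_0 t5 : ℕ) : Bool :=
  allI (fun i17 c17 =>
    imp (chkG (nat_lit 5) (dg (nat_lit 12) r_7_17_5_0 i17) a5 t5) <|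
    strict (dg (nat_lit 12) r_7_17_13_0 i17) fun e_7_17_13_0 =>
    strict (dg (nat_lit 72) TBRGa_17_13_5_0 i17) fun r_17_13_5_0 =>
    stRGa_3 a5 e_7_17_13_0 r_17_13_5_0 t5) CRGa_17 (nat_lit 0)

/-- stage -/
def stRGa_1 (r_7_17_13_0 r_7_17_5_0 : ℕ) : Bool :=
  allI (fun i5 c5 =>
    stRGa_2 c5.1 r_7_17_13_0 r_7_17_5_0 c5.2) CRGa_5 (nat_lit 0)

/-- stage -/
def bdRGa (i7 : ℕ) (c7 : ℕ × ℕ) : Bool :=
    strict (dg (nat_lit 108) TBRGa_7_17_5_0 i7) fun r_7_17_5_0 =>
    strict (dg (nat_lit 108) TBRGa_7_17_13_0 i7) fun r_7_17_13_0 =>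
    stRGa_1 r_7_17_13_0 r_7_17_5_0

theorem allRGa : allI (fun i c => bdRGa i c) CRGa_7 (nat_lit 0) = true := by
  decide +kernel

theorem falseRGa {a t : ℕ} {i7 i5 i17 i13 : ℕ}
    (b7 : i7 < CRGa_7.length)
    (b5 : i5 < CRGa_5.length)
    (b17 : i17 < CRGa_17.length)
    (b13 : i13 < CRGa_13.length)
    (top : bdRGa i7 CRGa_7[i7] = true)
    (h7 : CRGa_7[i7] = (a % 7, t % 7))
    (h5 : CRGa_5[i5] = (a % 5, t % 5))
    (h17 : CRGa_17[i17] = (a % 17, t % 17))
    (h13 : CRGa_13[i13] = (a % 13, t % 13))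
    (r_7_17_5_0 : chkG 5 (dg 12 (dg 108 TBRGa_7_17_5_0 i7) i17) (a % 5) (t % 5) = true)
    (r_7_17_13_0 : chkG 13 (dg 12 (dg 108 TBRGa_7_17_13_0 i7) i17) (a % 13) (t % 13) = true)
    (r_17_13_5_0 : chkG 5 (dg 12 (dg 72 TBRGa_17_13_5_0 i17) i13) (a % 5) (t % 5) = true)
    : False := by
  try rw [h7] at top
  unfold bdRGa at top
  simp only [strict_eq] at top
  unfold stRGa_1 at top
  replace top := allI_get top b5
  try rw [h5] at top
  unfold stRGa_2 at top
  replace top := allI_get top b17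
  try rw [h17] at top
  simp only [strict_eq] at top
  replace top := imp_spec top r_7_17_5_0
  unfold stRGa_3 at top
  replace top := allI_get top b13
  try rw [h13] at top
  replace top := imp_spec top r_7_17_13_0
  replace top := imp_spec top r_17_13_5_0
  exact Bool.false_ne_true top

/-- no field with `a = 3` -/
theorem noG3 {a n d : ℕ} (ha : a = 1) (hd : (d : ℤ) = (2 * FE.aa a * n) ^ 2 - FE.aa a)
    (j5 : jacobiSym d 5 = -1)
    (j7 : jacobiSym d 7 = -1)
    (j13 : jacobiSym d 13 = -1)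
    (j17 : jacobiSym d 17 = -1)
    (hT : AllG a n d) : False := by
  have q5 : ¬ 5 ∣ d := nd_of (by norm_num) j5
  have q7 : ¬ 7 ∣ d := nd_of (by norm_num) j7
  have q13 : ¬ 13 ∣ d := nd_of (by norm_num) j13
  have q17 : ¬ 17 ∣ d := nd_of (by norm_num) j17
  have c7 : Nat.Coprime 7 d := cop_of (p := 7) (k := 1) (by norm_num) q7
  have c5 : Nat.Coprime 5 d := cop_of (p := 5) (k := 1) (by norm_num) q5
  have c17 : Nat.Coprime 17 d := cop_of (p := 17) (k := 1) (by norm_num) q17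
  have c13 : Nat.Coprime 13 d := cop_of (p := 13) (k := 1) (by norm_num) q13
  obtain ⟨i7, b7, e7⟩ := memCheck_spec memRGa_7 (Nat.mod_lt a (by norm_num))
    (Nat.mod_lt n (by norm_num)) (spc_of (clG_of (n := 7) (by norm_num) (by norm_num) hd j7) (by rw [ha]))
  obtain ⟨i5, b5, e5⟩ := memCheck_spec memRGa_5 (Nat.mod_lt a (by norm_num))
    (Nat.mod_lt n (by norm_num)) (spc_of (clG_of (n := 5) (by norm_num) (by norm_num) hd j5) (by rw [ha]))
  obtain ⟨i17, b17, e17⟩ := memCheck_spec memRGa_17 (Nat.mod_lt a (by norm_num))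
    (Nat.mod_lt n (by norm_num)) (spc_of (clG_of (n := 17) (by norm_num) (by norm_num) hd j17) (by rw [ha]))
  obtain ⟨i13, b13, e13⟩ := memCheck_spec memRGa_13 (Nat.mod_lt a (by norm_num))
    (Nat.mod_lt n (by norm_num)) (spc_of (clG_of (n := 13) (by norm_num) (by norm_num) hd j13) (by rw [ha]))
  exact falseRGa b7 b5 b17 b13 (allI_get allRGa b7)
    e7 e5 e17 e13
    (chkG_of hyp_7_17_5_0 dr_7_17_5_0 ctRGa_7_17_5_0 hT (by norm_num) (by norm_num) (c7.mul_left c17) q5 b7 b17 e7 e17)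
    (chkG_of hyp_7_17_13_0 dr_7_17_13_0 ctRGa_7_17_13_0 hT (by norm_num) (by norm_num) (c7.mul_left c17) q13 b7 b17 e7 e17)
    (chkG_of hyp_17_13_5_0 dr_17_13_5_0 ctRGa_17_13_5_0 hT (by norm_num) (by norm_num) (c17.mul_left c13) q5 b17 b13 e17 e13)

end Pool.Agent.LibH4.KF
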