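import Pool.Agent.RDF.KP

/-! generated data -/

namespace Pool.Agent.LibH4.KF

open Ker T6

/-- weights -/
def DR_5_19_13_0 : List ((ℕ × ℕ) × ℕ) := [((nat_lit 1, nat_lit 0), nat_lit 6339534374366024413117385891530922656362554392161487619298759970606151424461930070245973454197282205278695073907811617311582445075600292118499355260453542813656151964068406869944611972928547640724175321195951162962167740729248925869093613645552329812757079660727560568832),
  ((nat_lit 1, nat_lit 1), nat_lit 27228439036043587844758621260195238583723616087476635481717105161198325487642073409638687895944059317833132286600324581615102889205467551851041116442346208153323021495625213648690144000709405058707189255487518054833729907114103113309347932487419512963117770993928498713003607195658),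
  ((nat_lit 1, nat_lit 2), nat_lit 2269215474085233449287423924320404775370163917231418328330347160630399630907749028981831018546468710708113203297049000591149307632705597476921920471406834100051668488231298176802143098182059431541153439843092242406541074178152012641923711860827240889081551789644820521549865943046),
  ((nat_lit 1, nat_lit 3), nat_lit 2269250096395625956860024649876231855021701467673099469503944274336468619824012626162811045693828236383122471069230624074952637975290760093137355209195983495522143296663500702768771630540080245843394357156509232828434620245921893859094387052472495369443644895890397340446910054407),
  ((nat_lit 1, nat_lit 4), nat_lit 27228196679870840296178529787337369140415128533065062629022393017196902658475463627414078638938335658203788418262249229953864790484005643225780194033835036628873749240724432411456368766902475693091862551743376768475414841326763115590408862239056337557819063235736589621611420712963),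
  ((nat_lit 0, nat_lit 1), nat_lit 27228092806600128401800772623461507775317108411872506378588406486790302468845591841465245296334389239320064768469608517262384651595434444922799037474725214080354054486892092966954972535902767773988024507992145910906843173052631034301818060851525912380151865054820858537496964759552)]

theorem dr_5_19_13_0 : DR_5_19_13_0 = DRstd 5 19 13 76 20 808976 7548839422382730090768 P5 P19 :=
  drCheck_spec (by decide +kernel : drCheck (nat_lit 5) (nat_lit 19) (nat_lit 95) (nat_lit 13)
    (nat_lit 76) (nat_lit 20) (nat_lit 808976) (nat_lit 7548839422382730090768) P5 P19 DR_5_19_13_0 = true)

lemma hyp_5_19_13_0 : Hyp 5 19 13 76 20 808976 7548839422382730090768 P5 P19 :=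
  mkHyp (by norm_num) (by norm_num) (by norm_num) (by norm_num) (by norm_num)
    (by decide +kernel : tabCheck (nat_lit 5) (nat_lit 13) (nat_lit 808976) = true)
    (by decide +kernel : tabCheck (nat_lit 19) (nat_lit 13) (nat_lit 7548839422382730090768) = true)
    (by decide +kernel : obCheck (nat_lit 5) (nat_lit 19) (nat_lit 95) (nat_lit 13) (nat_lit 808976) (nat_lit 7548839422382730090768) = true)
    isP1_5 isP1_19 (by decide) (by decide) (by norm_num) (by norm_num) (by norm_num)

end Pool.Agent.LibH4.KF
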