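import Pool.Agent.Lib_helper4.KR_13_11_5_0
import Pool.Agent.RDF.KR_17_13_5_0
import Pool.Agent.RDF.KR_17_19_13_0
import Pool.Agent.RDF.KR_5_19_13_0

/-! generated data -/

namespace Pool.Agent.LibH4.KF

open Ker T6 Pool.Agent.RDF

/-- classes -/
def CRGb_17 : List (ℕ × ℕ) := [((nat_lit 2), (nat_lit 0)),((nat_lit 2), (nat_lit 2)),((nat_lit 2), (nat_lit 3)),((nat_lit 2), (nat_lit 5)),((nat_lit 2), (nat_lit 6)),((nat_lit 2), (nat_lit 11)),((nat_lit 2), (nat_lit 12)),((nat_lit 2), (nat_lit 14)),((nat_lit 2), (nat_lit 15))]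

lemma memRGb_17 : memCheck (nat_lit 17) (spc (nat_lit 2) (clG (nat_lit 17))) CRGb_17 = true := by decide +kernel

/-- classes -/
def CRGb_13 : List (ℕ × ℕ) := [((nat_lit 2), (nat_lit 0)),((nat_lit 2), (nat_lit 1)),((nat_lit 2), (nat_lit 3)),((nat_lit 2), (nat_lit 5)),((nat_lit 2), (nat_lit 8)),((nat_lit 2), (nat_lit 10)),((nat_lit 2), (nat_lit 12))]

lemma memRGb_13 : memCheck (nat_lit 13) (spc (nat_lit 2) (clG (nat_lit 13))) CRGb_13 = true := by decide +kernel

/-- classes -/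
def CRGb_11 : List (ℕ × ℕ) := [((nat_lit 2), (nat_lit 1)),((nat_lit 2), (nat_lit 2)),((nat_lit 2), (nat_lit 3)),((nat_lit 2), (nat_lit 8)),((nat_lit 2), (nat_lit 9)),((nat_lit 2), (nat_lit 10))]

lemma memRGb_11 : memCheck (nat_lit 11) (spc (nat_lit 2) (clG (nat_lit 11))) CRGb_11 = true := by decide +kernel

/-- classes -/
def CRGb_5 : List (ℕ × ℕ) := [((nat_lit 2), (nat_lit 0)),((nat_lit 2), (nat_lit 2)),((nat_lit 2), (nat_lit 3))]

lemma memRGb_5 : memCheck (nat_lit 5) (spc (nat_lit 2) (clG (nat_lit 5))) CRGb_5 = true := by decide +kernel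

/-- classes -/
def CRGb_19 : List (ℕ × ℕ) := [((nat_lit 2), (nat_lit 0)),((nat_lit 2), (nat_lit 1)),((nat_lit 2), (nat_lit 4)),((nat_lit 2), (nat_lit 5)),((nat_lit 2), (nat_lit 7)),((nat_lit 2), (nat_lit 12)),((nat_lit 2), (nat_lit 14)),((nat_lit 2), (nat_lit 15)),((nat_lit 2), (nat_lit 18))]

lemma memRGb_19 : memCheck (nat_lit 19) (spc (nat_lit 2) (clG (nat_lit 19))) CRGb_19 = true := by decide +kernel

/-- table -/
def TBRGb_17_13_5_0 : ℕ := nat_lit 25287311410128639508240657739605179599865851786306795755772379156011222071230968873319763809334580397373243283878832324630162344674965589232520658477481604155488998902667813436766125599610835717098185114938491526473352210555155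

theorem ctRGb_17_13_5_0 : checkR (nat_lit 84) (nat_lit 17) (nat_lit 13) (nat_lit 5) (nat_lit 23207668197802189840) (nat_lit 1165560225469200)
    DR_17_13_5_0 formsG P13 CRGb_17 CRGb_13 TBRGb_17_13_5_0 = true := by
  decide +kernel

/-- table -/
def TBRGb_13_11_5_0 : ℕ := nat_lit 9366007982706328892510633233881410979155588393019198714400830546194785933220674125991015109323979092104572031157137943848469711512622948669206530

theorem ctRGb_13_11_5_0 : checkR (nat_lit 72) (nat_lit 13) (nat_lit 11) (nat_lit 5) (nat_lit 353030276977680) (nat_lit 4485087826960)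
    DR_13_11_5_0 formsG P11 CRGb_13 CRGb_11 TBRGb_13_11_5_0 = true := by
  decide +kernel

/-- table -/
def TBRGb_5_19_13_0 : ℕ := nat_lit 9393100386480523954318026354666233061071637367693850159805970898049828623802114665804018316962170

theorem ctRGb_5_19_13_0 : checkR (nat_lit 108) (nat_lit 5) (nat_lit 19) (nat_lit 13) (nat_lit 808976) (nat_lit 7548839422382730090768)
    DR_5_19_13_0 formsG P19 CRGb_5 CRGb_19 TBRGb_5_19_13_0 = true := by
  decide +kernel

/-- table -/
def TBRGb_17_19_13_0 : ℕ := nat_lit 25344008684988228900645065267966884631637459028063415843166633985237115611556571793156255979879825077406581125769731199255112606496471745655241219991156479627089576615105423839474671188104932272578398959483618938528529367346102767892345895389760010397592750697894304458654403216228554110641084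

theorem ctRGb_17_19_13_0 : checkR (nat_lit 108) (nat_lit 17) (nat_lit 19) (nat_lit 13) (nat_lit 32648151485734018064) (nat_lit 56996749644674662255632)
    DR_17_19_13_0 formsG P19 CRGb_17 CRGb_19 TBRGb_17_19_13_0 = true := by
  decide +kernel

/-- stage -/
def stRGb_4 (a13 r_17_19_13_0 r_5_19_13_0 t13 : ℕ) : Bool :=
  allI (fun i19 c19 =>
    imp (chkG (nat_lit 13) (dg (nat_lit 12) r_5_19_13_0 i19) a13 t13) <|
    imp (chkG (nat_lit 13) (dg (nat_lit 12) r_17_19_13_0 i19) a13 t13) <|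
    false) CRGb_19 (nat_lit 0)

/-- stage -/
def stRGb_3 (a13 e_13_11_5_0 e_17_13_5_0 r_17_19_13_0 t13 : ℕ) : Bool :=
  allI (fun i5 c5 =>
    imp (chkG (nat_lit 5) e_17_13_5_0 c5.1 c5.2) <|
    imp (chkG (nat_lit 5) e_13_11_5_0 c5.1 c5.2) <|
    strict (dg (nat_lit 108) TBRGb_5_19_13_0 i5) fun r_5_19_13_0 =>
    stRGb_4 a13 r_17_19_13_0 r_5_19_13_0 t13) CRGb_5 (nat_lit 0)

/-- stage -/
def stRGb_2 (a13 e_17_13_5_0 r_13_11_5_0 r_17_19_13_0 t13 : ℕ) : Bool :=
  allI (fun i11 c11 =>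
    strict (dg (nat_lit 12) r_13_11_5_0 i11) fun e_13_11_5_0 =>
    stRGb_3 a13 e_13_11_5_0 e_17_13_5_0 r_17_19_13_0 t13) CRGb_11 (nat_lit 0)

/-- stage -/
def stRGb_1 (r_17_13_5_0 r_17_19_13_0 : ℕ) : Bool :=
  allI (fun i13 c13 =>
    strict (dg (nat_lit 12) r_17_13_5_0 i13) fun e_17_13_5_0 =>
    strict (dg (nat_lit 72) TBRGb_13_11_5_0 i13) fun r_13_11_5_0 =>
    stRGb_2 c13.1 e_17_13_5_0 r_13_11_5_0 r_17_19_13_0 c13.2) CRGb_13 (nat_lit 0)

/-- stage -/
def bdRGb (i17 : ℕ) (c17 : ℕ × ℕ) : Bool :=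
    strict (dg (nat_lit 84) TBRGb_17_13_5_0 i17) fun r_17_13_5_0 =>
    strict (dg (nat_lit 108) TBRGb_17_19_13_0 i17) fun r_17_19_13_0 =>
    stRGb_1 r_17_13_5_0 r_17_19_13_0

theorem allRGb : allI (fun i c => bdRGb i c) CRGb_17 (nat_lit 0) = true := by
  decide +kernel

theorem falseRGb {a t : ℕ} {i17 i13 i11 i5 i19 : ℕ}
    (b17 : i17 < CRGb_17.length)
    (b13 : i13 < CRGb_13.length)
    (b11 : i11 < CRGb_11.length)
    (b5 : i5 < CRGb_5.length)
    (b19 : i19 < CRGb_19.length)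
    (top : bdRGb i17 CRGb_17[i17] = true)
    (h17 : CRGb_17[i17] = (a % 17, t % 17))
    (h13 : CRGb_13[i13] = (a % 13, t % 13))
    (h11 : CRGb_11[i11] = (a % 11, t % 11))
    (h5 : CRGb_5[i5] = (a % 5, t % 5))
    (h19 : CRGb_19[i19] = (a % 19, t % 19))
    (r_17_13_5_0 : chkG 5 (dg 12 (dg 84 TBRGb_17_13_5_0 i17) i13) (a % 5) (t % 5) = true)
    (r_13_11_5_0 : chkG 5 (dg 12 (dg 72 TBRGb_13_11_5_0 i13) i11) (a % 5) (t % 5) = true)
    (r_5_19_13_0 : chkG 13 (dg 12 (dg 108 TBRGb_5_19_13_0 i5) i19) (a % 13) (t % 13) = true)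
    (r_17_19_13_0 : chkG 13 (dg 12 (dg 108 TBRGb_17_19_13_0 i17) i19) (a % 13) (t % 13) = true)
    : False := by
  try rw [h17] at top
  unfold bdRGb at top
  simp only [strict_eq] at top
  unfold stRGb_1 at top
  replace top := allI_get top b13
  try rw [h13] at top
  simp only [strict_eq] at top
  unfold stRGb_2 at top
  replace top := allI_get top b11
  try rw [h11] at top
  simp only [strict_eq] at top
  unfold stRGb_3 at top
  replace top := allI_get top b5
  try rw [h5] at top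
  simp only [strict_eq] at top
  replace top := imp_spec top r_17_13_5_0
  replace top := imp_spec top r_13_11_5_0
  unfold stRGb_4 at top
  replace top := allI_get top b19
  try rw [h19] at top
  replace top := imp_spec top r_5_19_13_0
  replace top := imp_spec top r_17_19_13_0
  exact Bool.false_ne_true top

/-- no field with `a = 7` -/
theorem noG7 {a n d : ℕ} (ha : a = 2) (hd : (d : ℤ) = (2 * FE.aa a * n) ^ 2 - FE.aa a)
    (j5 : jacobiSym d 5 = -1)
    (j11 : jacobiSym d 11 = -1)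
    (j13 : jacobiSym d 13 = -1)
    (j17 : jacobiSym d 17 = -1)
    (j19 : jacobiSym d 19 = -1)
    (hT : AllG a n d) : False := by
  have q5 : ¬ 5 ∣ d := nd_of (by norm_num) j5
  have q11 : ¬ 11 ∣ d := nd_of (by norm_num) j11
  have q13 : ¬ 13 ∣ d := nd_of (by norm_num) j13
  have q17 : ¬ 17 ∣ d := nd_of (by norm_num) j17
  have q19 : ¬ 19 ∣ d := nd_of (by norm_num) j19
  have c17 : Nat.Coprime 17 d := cop_of (p := 17) (k := 1) (by norm_num) q17
  have c13 : Nat.Coprime 13 d := cop_of (p := 13) (k := 1) (by norm_num) q13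
  have c11 : Nat.Coprime 11 d := cop_of (p := 11) (k := 1) (by norm_num) q11
  have c5 : Nat.Coprime 5 d := cop_of (p := 5) (k := 1) (by norm_num) q5
  have c19 : Nat.Coprime 19 d := cop_of (p := 19) (k := 1) (by norm_num) q19
  obtain ⟨i17, b17, e17⟩ := memCheck_spec memRGb_17 (Nat.mod_lt a (by norm_num))
    (Nat.mod_lt n (by norm_num)) (spc_of (clG_of (n := 17) (by norm_num) (by norm_num) hd j17) (by rw [ha]))
  obtain ⟨i13, b13, e13⟩ := memCheck_spec memRGb_13 (Nat.mod_lt a (by norm_num))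
    (Nat.mod_lt n (by norm_num)) (spc_of (clG_of (n := 13) (by norm_num) (by norm_num) hd j13) (by rw [ha]))
  obtain ⟨i11, b11, e11⟩ := memCheck_spec memRGb_11 (Nat.mod_lt a (by norm_num))
    (Nat.mod_lt n (by norm_num)) (spc_of (clG_of (n := 11) (by norm_num) (by norm_num) hd j11) (by rw [ha]))
  obtain ⟨i5, b5, e5⟩ := memCheck_spec memRGb_5 (Nat.mod_lt a (by norm_num))
    (Nat.mod_lt n (by norm_num)) (spc_of (clG_of (n := 5) (by norm_num) (by norm_num) hd j5) (by rw [ha]))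
  obtain ⟨i19, b19, e19⟩ := memCheck_spec memRGb_19 (Nat.mod_lt a (by norm_num))
    (Nat.mod_lt n (by norm_num)) (spc_of (clG_of (n := 19) (by norm_num) (by norm_num) hd j19) (by rw [ha]))
  exact falseRGb b17 b13 b11 b5 b19 (allI_get allRGb b17)
    e17 e13 e11 e5 e19
    (chkG_of hyp_17_13_5_0 dr_17_13_5_0 ctRGb_17_13_5_0 hT (by norm_num) (by norm_num) (c17.mul_left c13) q5 b17 b13 e17 e13)
    (chkG_of hyp_13_11_5_0 dr_13_11_5_0 ctRGb_13_11_5_0 hT (by norm_num) (by norm_num) (c13.mul_left c11) q5 b13 b11 e13 e11)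
    (chkG_of hyp_5_19_13_0 dr_5_19_13_0 ctRGb_5_19_13_0 hT (by norm_num) (by norm_num) (c5.mul_left c19) q13 b5 b19 e5 e19)
    (chkG_of hyp_17_19_13_0 dr_17_19_13_0 ctRGb_17_19_13_0 hT (by norm_num) (by norm_num) (c17.mul_left c19) q13 b17 b19 e17 e19)

end Pool.Agent.LibH4.KF
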