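import Pool.Agent.RDF.KR_21_23_13_0
import Pool.Agent.RDF.KR_35_23_13_0
import Pool.Agent.RDF.KR_37_5_13_0
import Pool.Agent.RDF.KR_37_7_13_0
import Pool.Agent.RDF.KR_37_7_13_1

/-! generated data -/

namespace Pool.Agent.LibH4.KF

open Ker T6 Pool.Agent.RDF

/-- classes -/
def CRM_37 : List (ℕ × ℕ) := [((nat_lit 2), (nat_lit 0)),((nat_lit 2), (nat_lit 2)),((nat_lit 2), (nat_lit 4)),((nat_lit 2), (nat_lit 5)),((nat_lit 2), (nat_lit 9)),((nat_lit 2), (nat_lit 10)),((nat_lit 2), (nat_lit 11)),((nat_lit 2), (nat_lit 12)),((nat_lit 2), (nat_lit 13)),((nat_lit 2), (nat_lit 16)),((nat_lit 2), (nat_lit 21)),((nat_lit 2), (nat_lit 24)),((nat_lit 2), (nat_lit 25)),((nat_lit 2), (nat_lit 26)),((nat_lit 2), (nat_lit 27)),((nat_lit 2), (nat_lit 28)),((nat_lit 2), (nat_lit 32)),((nat_lit 2), (nat_lit 33)),((nat_lit 2), (nat_lit 35))]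

lemma memRM_37 : memCheck (nat_lit 37) (spc (nat_lit 2) (clE (nat_lit 37))) CRM_37 = true := by decide +kernel

/-- classes -/
def CRM_7 : List (ℕ × ℕ) := [((nat_lit 2), (nat_lit 0)),((nat_lit 2), (nat_lit 1)),((nat_lit 2), (nat_lit 6))]

lemma memRM_7 : memCheck (nat_lit 7) (spc (nat_lit 2) (clE (nat_lit 7))) CRM_7 = true := by decide +kernel

/-- classes -/
def CRM_13 : List (ℕ × ℕ) := [((nat_lit 2), (nat_lit 0)),((nat_lit 2), (nat_lit 2)),((nat_lit 2), (nat_lit 3)),((nat_lit 2), (nat_lit 6)),((nat_lit 2), (nat_lit 7)),((nat_lit 2), (nat_lit 10)),((nat_lit 2), (nat_lit 11))]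

lemma memRM_13 : memCheck (nat_lit 13) (spc (nat_lit 2) (clE (nat_lit 13))) CRM_13 = true := by decide +kernel

/-- classes -/
def CRM_5 : List (ℕ × ℕ) := [((nat_lit 2), (nat_lit 0)),((nat_lit 2), (nat_lit 2)),((nat_lit 2), (nat_lit 3))]

lemma memRM_5 : memCheck (nat_lit 5) (spc (nat_lit 2) (clE (nat_lit 5))) CRM_5 = true := by decide +kernel

/-- classes -/
def CRM_3 : List (ℕ × ℕ) := [((nat_lit 2), (nat_lit 1)),((nat_lit 2), (nat_lit 2))]

lemma memRM_3 : memCheck (nat_lit 3) (spc (nat_lit 2) (clE (nat_lit 3))) CRM_3 = true := by decide +kernel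

/-- classes -/
def CRM_23 : List (ℕ × ℕ) := [((nat_lit 2), (nat_lit 0)),((nat_lit 2), (nat_lit 1)),((nat_lit 2), (nat_lit 3)),((nat_lit 2), (nat_lit 4)),((nat_lit 2), (nat_lit 6)),((nat_lit 2), (nat_lit 9)),((nat_lit 2), (nat_lit 14)),((nat_lit 2), (nat_lit 17)),((nat_lit 2), (nat_lit 19)),((nat_lit 2), (nat_lit 20)),((nat_lit 2), (nat_lit 22))]

lemma memRM_23 : memCheck (nat_lit 23) (spc (nat_lit 2) (clE (nat_lit 23))) CRM_23 = true := by decide +kernel

/-- classes -/
def CRM_21 : List (ℕ × ℕ) := [((nat_lit 2), (nat_lit 7)),((nat_lit 2), (nat_lit 1)),((nat_lit 2), (nat_lit 13)),((nat_lit 2), (nat_lit 14)),((nat_lit 2), (nat_lit 8)),((nat_lit 2), (nat_lit 20))]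

lemma lenRM_21 : CRM_7.length = 3 := by decide +kernel

lemma prdRM_21 {a t i j : ℕ} (hi : i < CRM_3.length) (hj : j < CRM_7.length)
    (h1 : CRM_3[i] = (a % 3, t % 3)) (h2 : CRM_7[j] = (a % 7, t % 7)) :
    ∃ h : i * 3 + j < CRM_21.length, CRM_21[i * 3 + j] = (a % 21, t % 21) := by
  have e : CRM_21 = prodL 21 7 15 CRM_3 CRM_7 := by decide +kernel
  obtain ⟨h3, h4⟩ := prodL_get 21 7 15 CRM_3 CRM_7 hi hj
  rw [h1, h2] at h4
  simp only [lenRM_21] at h3 h4
  simp only [← e] at h3 h4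
  refine ⟨h3, ?_⟩
  rw [h4]
  ext
  · change (a % 3 * 7 + a % 7 * 15) % 21 = a % 21
    omega
  · change (t % 3 * 7 + t % 7 * 15) % 21 = t % 21
    omega

/-- classes -/
def CRM_35 : List (ℕ × ℕ) := [((nat_lit 2), (nat_lit 0)),((nat_lit 2), (nat_lit 15)),((nat_lit 2), (nat_lit 20)),((nat_lit 2), (nat_lit 7)),((nat_lit 2), (nat_lit 22)),((nat_lit 2), (nat_lit 27)),((nat_lit 2), (nat_lit 28)),((nat_lit 2), (nat_lit 8)),((nat_lit 2), (nat_lit 13))]

lemma lenRM_35 : CRM_7.length = 3 := by decide +kernel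

lemma prdRM_35 {a t i j : ℕ} (hi : i < CRM_5.length) (hj : j < CRM_7.length)
    (h1 : CRM_5[i] = (a % 5, t % 5)) (h2 : CRM_7[j] = (a % 7, t % 7)) :
    ∃ h : i * 3 + j < CRM_35.length, CRM_35[i * 3 + j] = (a % 35, t % 35) := by
  have e : CRM_35 = prodL 35 21 15 CRM_5 CRM_7 := by decide +kernel
  obtain ⟨h3, h4⟩ := prodL_get 35 21 15 CRM_5 CRM_7 hi hj
  rw [h1, h2] at h4
  simp only [lenRM_35] at h3 h4
  simp only [← e] at h3 h4
  refine ⟨h3, ?_⟩
  rw [h4]
  ext
  · change (a % 5 * 21 + a % 7 * 15) % 35 = a % 35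
    omega
  · change (t % 5 * 21 + t % 7 * 15) % 35 = t % 35
    omega

/-- table -/
def TBRM_37_7_13_0 : ℕ := nat_lit 21775936496384106703068138256128497551448649842324499685278911491772523094011687822867237997995633156111409342585010193301932988605697501556142494070629650245165960033899448898145246680952725458455136568176

theorem ctRM_37_7_13_0 : checkR (nat_lit 36) (nat_lit 37) (nat_lit 7) (nat_lit 13) (nat_lit 276253319472027154998219359486781036551644944) (nat_lit 26425616)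
    DR_37_7_13_0 formsE P7 CRM_37 CRM_7 TBRM_37_7_13_0 = true := by
  decide +kernel

/-- table -/
def TBRM_37_7_13_1 : ℕ := nat_lit 5703722062032146132696548838240729347035580323558815088998454648958240823040656632377107380806004735240583477582987434655429891087252845548216829019526157429564847143622026783710583592294934667780051122800

theorem ctRM_37_7_13_1 : checkR (nat_lit 36) (nat_lit 37) (nat_lit 7) (nat_lit 13) (nat_lit 278853695967866967751310547316382614143419664) (nat_lit 20550416)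
    DR_37_7_13_1 formsE P7 CRM_37 CRM_7 TBRM_37_7_13_1 = true := by
  decide +kernel

/-- table -/
def TBRM_37_5_13_0 : ℕ := nat_lit 43453863008372921440164646987611805752215879110742072277120357085575568294509302960084800921052836389783206725736311879974457357238096523404233676025957503313680879910963270635879982227520924668748467754288

theorem ctRM_37_5_13_0 : checkR (nat_lit 36) (nat_lit 37) (nat_lit 5) (nat_lit 13) (nat_lit 283775869761167327441946389485679068507816464) (nat_lit 117776)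
    DR_37_5_13_0 formsE P5 CRM_37 CRM_5 TBRM_37_5_13_0 = true := by
  decide +kernel

/-- table -/
def TBRM_21_23_13_0 : ℕ := nat_lit 758713506953535483106159749772009943639309088816384547687555860483530327089313901338283194245147236713783013448052085658711690129308770678358484090318999569861694590547241508909335115083492751324057311941920463431262774268813314

theorem ctRM_21_23_13_0 : checkR (nat_lit 132) (nat_lit 21) (nat_lit 23) (nat_lit 13) (nat_lit 1967216182370621575465488) (nat_lit 3961355976715083878785683728)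
    DR_21_23_13_0 formsE P23 CRM_21 CRM_23 TBRM_21_23_13_0 = true := by
  decide +kernel

/-- table -/
def TBRM_35_23_13_0 : ℕ := nat_lit 5134263611179107374468234372201638644775633161460986984819774550800753611581394562918560205886545252215825588267528932684775663793508210804987219965635265039534134084070430489054751818180762925931031588627707664124153245186636433352492963131979138369355946990999319001452487194725123806632435080216287526540731407019240779813098745965241118783031295905792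

theorem ctRM_35_23_13_0 : checkR (nat_lit 132) (nat_lit 35) (nat_lit 23) (nat_lit 13) (nat_lit 112357071181482641874692023463643760010256) (nat_lit 3961355976715083878785683728)
    DR_35_23_13_0 formsE P23 CRM_35 CRM_23 TBRM_35_23_13_0 = true := by
  decide +kernel

/-- stage -/
def stRM_5 (a13 r_21_23_13_0 r_35_23_13_0 t13 : ℕ) : Bool :=
  allI (fun i23 c23 =>
    imp (chkE (nat_lit 13) (dg (nat_lit 12) r_21_23_13_0 i23) a13 t13) <|
    imp (chkE (nat_lit 13) (dg (nat_lit 12) r_35_23_13_0 i23) a13 t13) <|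
    false) CRM_23 (nat_lit 0)

/-- stage -/
def stRM_4 (a13 i7 r_35_23_13_0 t13 : ℕ) : Bool :=
  allI (fun i3 c3 =>
    strict (dg (nat_lit 132) TBRM_21_23_13_0 (Nat.add (Nat.mul i3 (nat_lit 3)) i7)) fun r_21_23_13_0 =>
    stRM_5 a13 r_21_23_13_0 r_35_23_13_0 t13) CRM_3 (nat_lit 0)

/-- stage -/
def stRM_3 (a13 i7 r_37_5_13_0 t13 : ℕ) : Bool :=
  allI (fun i5 c5 =>
    imp (chkE (nat_lit 13) (dg (nat_lit 12) r_37_5_13_0 i5) a13 t13) <|
    strict (dg (nat_lit 132) TBRM_35_23_13_0 (Nat.add (Nat.mul i5 (nat_lit 3)) i7)) fun r_35_23_13_0 =>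
    stRM_4 a13 i7 r_35_23_13_0 t13) CRM_5 (nat_lit 0)

/-- stage -/
def stRM_2 (e_37_7_13_0 e_37_7_13_1 i7 r_37_5_13_0 : ℕ) : Bool :=
  allI (fun i13 c13 =>
    imp (chkE (nat_lit 13) e_37_7_13_0 c13.1 c13.2) <|
    imp (chkE (nat_lit 13) e_37_7_13_1 c13.1 c13.2) <|
    stRM_3 c13.1 i7 r_37_5_13_0 c13.2) CRM_13 (nat_lit 0)

/-- stage -/
def stRM_1 (r_37_5_13_0 r_37_7_13_0 r_37_7_13_1 : ℕ) : Bool :=
  allI (fun i7 c7 =>
    strict (dg (nat_lit 12) r_37_7_13_0 i7) fun e_37_7_13_0 =>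
    strict (dg (nat_lit 12) r_37_7_13_1 i7) fun e_37_7_13_1 =>
    stRM_2 e_37_7_13_0 e_37_7_13_1 i7 r_37_5_13_0) CRM_7 (nat_lit 0)

/-- stage -/
def bdRM (i37 : ℕ) (c37 : ℕ × ℕ) : Bool :=
    strict (dg (nat_lit 36) TBRM_37_7_13_0 i37) fun r_37_7_13_0 =>
    strict (dg (nat_lit 36) TBRM_37_7_13_1 i37) fun r_37_7_13_1 =>
    strict (dg (nat_lit 36) TBRM_37_5_13_0 i37) fun r_37_5_13_0 =>
    stRM_1 r_37_5_13_0 r_37_7_13_0 r_37_7_13_1

theorem allRM : allI (fun i c => bdRM i c) CRM_37 (nat_lit 0) = true := by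
  decide +kernel

theorem falseRM {a t : ℕ} {i37 i7 i13 i5 i3 i23 : ℕ}
    (b37 : i37 < CRM_37.length)
    (b7 : i7 < CRM_7.length)
    (b13 : i13 < CRM_13.length)
    (b5 : i5 < CRM_5.length)
    (b3 : i3 < CRM_3.length)
    (b23 : i23 < CRM_23.length)
    (top : bdRM i37 CRM_37[i37] = true)
    (h37 : CRM_37[i37] = (a % 37, t % 37))
    (h7 : CRM_7[i7] = (a % 7, t % 7))
    (h13 : CRM_13[i13] = (a % 13, t % 13))
    (h5 : CRM_5[i5] = (a % 5, t % 5))
    (h3 : CRM_3[i3] = (a % 3, t % 3))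
    (h23 : CRM_23[i23] = (a % 23, t % 23))
    (r_37_7_13_0 : chkE 13 (dg 12 (dg 36 TBRM_37_7_13_0 i37) i7) (a % 13) (t % 13) = true)
    (r_37_7_13_1 : chkE 13 (dg 12 (dg 36 TBRM_37_7_13_1 i37) i7) (a % 13) (t % 13) = true)
    (r_37_5_13_0 : chkE 13 (dg 12 (dg 36 TBRM_37_5_13_0 i37) i5) (a % 13) (t % 13) = true)
    (r_21_23_13_0 : chkE 13 (dg 12 (dg 132 TBRM_21_23_13_0 (i3 * 3 + i7)) i23) (a % 13) (t % 13) = true)
    (r_35_23_13_0 : chkE 13 (dg 12 (dg 132 TBRM_35_23_13_0 (i5 * 3 + i7)) i23) (a % 13) (t % 13) = true)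
    : False := by
  try rw [h37] at top
  unfold bdRM at top
  simp only [strict_eq] at top
  unfold stRM_1 at top
  replace top := allI_get top b7
  try rw [h7] at top
  simp only [strict_eq] at top
  unfold stRM_2 at top
  replace top := allI_get top b13
  try rw [h13] at top
  replace top := imp_spec top r_37_7_13_0
  replace top := imp_spec top r_37_7_13_1
  unfold stRM_3 at top
  replace top := allI_get top b5
  try rw [h5] at top
  simp only [strict_eq] at top
  replace top := imp_spec top r_37_5_13_0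
  unfold stRM_4 at top
  replace top := allI_get top b3
  try rw [h3] at top
  simp only [strict_eq] at top
  unfold stRM_5 at top
  replace top := allI_get top b23
  try rw [h23] at top
  replace top := imp_spec top r_21_23_13_0
  replace top := imp_spec top r_35_23_13_0
  exact Bool.false_ne_true top

/-- no large field in the family `n² - 2` -/
theorem noM {a n d : ℕ} (ha : a = 2) (hd : (d : ℤ) = ((a : ℤ) * n) ^ 2 - 4 * a)
    (j3 : jacobiSym d 3 = -1)
    (j5 : jacobiSym d 5 = -1)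
    (j7 : jacobiSym d 7 = -1)
    (j13 : jacobiSym d 13 = -1)
    (j23 : jacobiSym d 23 = -1)
    (j37 : jacobiSym d 37 = -1)
    (hT : AllE a n d) : False := by
  have q3 : ¬ 3 ∣ d := nd_of (by norm_num) j3
  have q5 : ¬ 5 ∣ d := nd_of (by norm_num) j5
  have q7 : ¬ 7 ∣ d := nd_of (by norm_num) j7
  have q13 : ¬ 13 ∣ d := nd_of (by norm_num) j13
  have q23 : ¬ 23 ∣ d := nd_of (by norm_num) j23
  have q37 : ¬ 37 ∣ d := nd_of (by norm_num) j37
  have c37 : Nat.Coprime 37 d := cop_of (p := 37) (k := 1) (by norm_num) q37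
  have c7 : Nat.Coprime 7 d := cop_of (p := 7) (k := 1) (by norm_num) q7
  have c13 : Nat.Coprime 13 d := cop_of (p := 13) (k := 1) (by norm_num) q13
  have c5 : Nat.Coprime 5 d := cop_of (p := 5) (k := 1) (by norm_num) q5
  have c3 : Nat.Coprime 3 d := cop_of (p := 3) (k := 1) (by norm_num) q3
  have c23 : Nat.Coprime 23 d := cop_of (p := 23) (k := 1) (by norm_num) q23
  have c21 : Nat.Coprime 21 d := c3.mul_left c7
  have c35 : Nat.Coprime 35 d := c5.mul_left c7
  obtain ⟨i37, b37, e37⟩ := memCheck_spec memRM_37 (Nat.mod_lt a (by norm_num))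
    (Nat.mod_lt n (by norm_num)) (spc_of (clE_of (n := 37) (by norm_num) (by norm_num) hd j37) (by rw [ha]))
  obtain ⟨i7, b7, e7⟩ := memCheck_spec memRM_7 (Nat.mod_lt a (by norm_num))
    (Nat.mod_lt n (by norm_num)) (spc_of (clE_of (n := 7) (by norm_num) (by norm_num) hd j7) (by rw [ha]))
  obtain ⟨i13, b13, e13⟩ := memCheck_spec memRM_13 (Nat.mod_lt a (by norm_num))
    (Nat.mod_lt n (by norm_num)) (spc_of (clE_of (n := 13) (by norm_num) (by norm_num) hd j13) (by rw [ha]))
  obtain ⟨i5, b5, e5⟩ := memCheck_spec memRM_5 (Nat.mod_lt a (by norm_num))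
    (Nat.mod_lt n (by norm_num)) (spc_of (clE_of (n := 5) (by norm_num) (by norm_num) hd j5) (by rw [ha]))
  obtain ⟨i3, b3, e3⟩ := memCheck_spec memRM_3 (Nat.mod_lt a (by norm_num))
    (Nat.mod_lt n (by norm_num)) (spc_of (clE_of (n := 3) (by norm_num) (by norm_num) hd j3) (by rw [ha]))
  obtain ⟨i23, b23, e23⟩ := memCheck_spec memRM_23 (Nat.mod_lt a (by norm_num))
    (Nat.mod_lt n (by norm_num)) (spc_of (clE_of (n := 23) (by norm_num) (by norm_num) hd j23) (by rw [ha]))
  obtain ⟨b21, e21⟩ := prdRM_21 b3 b7 e3 e7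
  obtain ⟨b35, e35⟩ := prdRM_35 b5 b7 e5 e7
  exact falseRM b37 b7 b13 b5 b3 b23 (allI_get allRM b37)
    e37 e7 e13 e5 e3 e23
    (chkE_of hyp_37_7_13_0 dr_37_7_13_0 ctRM_37_7_13_0 hT (by norm_num) (by norm_num) (c37.mul_left c7) q13 b37 b7 e37 e7)
    (chkE_of hyp_37_7_13_1 dr_37_7_13_1 ctRM_37_7_13_1 hT (by norm_num) (by norm_num) (c37.mul_left c7) q13 b37 b7 e37 e7)
    (chkE_of hyp_37_5_13_0 dr_37_5_13_0 ctRM_37_5_13_0 hT (by norm_num) (by norm_num) (c37.mul_left c5) q13 b37 b5 e37 e5)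
    (chkE_of hyp_21_23_13_0 dr_21_23_13_0 ctRM_21_23_13_0 hT (by norm_num) (by norm_num) (c21.mul_left c23) q13 b21 b23 e21 e23)
    (chkE_of hyp_35_23_13_0 dr_35_23_13_0 ctRM_35_23_13_0 hT (by norm_num) (by norm_num) (c35.mul_left c23) q13 b35 b23 e35 e23)

end Pool.Agent.LibH4.KF
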