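import Pool.Agent.Lib_helper4.KR_13_19_7_0
import Pool.Agent.Lib_helper4.KR_13_19_7_1
import Pool.Agent.RDF.KR_19_31_7_0
import Pool.Agent.RDF.KR_19_31_7_1
import Pool.Agent.RDF.KR_19_31_7_2

/-! generated data -/

namespace Pool.Agent.LibH4.KF

open Ker T6 Pool.Agent.RDF

/-- classes -/
def CRP_13 : List (ℕ × ℕ) := [((nat_lit 2), (nat_lit 0)),((nat_lit 2), (nat_lit 2)),((nat_lit 2), (nat_lit 3)),((nat_lit 2), (nat_lit 4)),((nat_lit 2), (nat_lit 9)),((nat_lit 2), (nat_lit 10)),((nat_lit 2), (nat_lit 11))]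

lemma memRP_13 : memCheck (nat_lit 13) (spc (nat_lit 2) (clB (nat_lit 13))) CRP_13 = true := by decide +kernel

/-- classes -/
def CRP_19 : List (ℕ × ℕ) := [((nat_lit 2), (nat_lit 0)),((nat_lit 2), (nat_lit 1)),((nat_lit 2), (nat_lit 4)),((nat_lit 2), (nat_lit 5)),((nat_lit 2), (nat_lit 7)),((nat_lit 2), (nat_lit 12)),((nat_lit 2), (nat_lit 14)),((nat_lit 2), (nat_lit 15)),((nat_lit 2), (nat_lit 18))]

lemma memRP_19 : memCheck (nat_lit 19) (spc (nat_lit 2) (clB (nat_lit 19))) CRP_19 = true := by decide +kernel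

/-- classes -/
def CRP_7 : List (ℕ × ℕ) := [((nat_lit 2), (nat_lit 1)),((nat_lit 2), (nat_lit 2)),((nat_lit 2), (nat_lit 5)),((nat_lit 2), (nat_lit 6))]

lemma memRP_7 : memCheck (nat_lit 7) (spc (nat_lit 2) (clB (nat_lit 7))) CRP_7 = true := by decide +kernel

/-- classes -/
def CRP_31 : List (ℕ × ℕ) := [((nat_lit 2), (nat_lit 1)),((nat_lit 2), (nat_lit 2)),((nat_lit 2), (nat_lit 3)),((nat_lit 2), (nat_lit 5)),((nat_lit 2), (nat_lit 9)),((nat_lit 2), (nat_lit 11)),((nat_lit 2), (nat_lit 12)),((nat_lit 2), (nat_lit 14)),((nat_lit 2), (nat_lit 17)),((nat_lit 2), (nat_lit 19)),((nat_lit 2), (nat_lit 20)),((nat_lit 2), (nat_lit 22)),((nat_lit 2), (nat_lit 26)),((nat_lit 2), (nat_lit 28)),((nat_lit 2), (nat_lit 29)),((nat_lit 2), (nat_lit 30))]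

lemma memRP_31 : memCheck (nat_lit 31) (spc (nat_lit 2) (clB (nat_lit 31))) CRP_31 = true := by decide +kernel

/-- table -/
def TBRP_13_19_7_0 : ℕ := nat_lit 79057984690319840846984895095608871684371965490741337340639169103288150711001285970348930984961818300036950897226222476650940677500871328350604016742983690280727250181309558328524624506345701692129061969046048172234634708796768

theorem ctRP_13_19_7_0 : checkR (nat_lit 108) (nat_lit 13) (nat_lit 19) (nat_lit 7) (nat_lit 319138687099408) (nat_lit 28965222469048455157008)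
    DR_13_19_7_0 formsB P19 CRP_13 CRP_19 TBRP_13_19_7_0 = true := by
  decide +kernel

/-- table -/
def TBRP_13_19_7_1 : ℕ := nat_lit 121906794628740305176034315352476583011495870415702322033403535726672415370975452678769801276054591797983801747859234437372126992265867527766920992877514960190762281062606927307876795551265557769915892027360043023011549394789184

theorem ctRP_13_19_7_1 : checkR (nat_lit 108) (nat_lit 13) (nat_lit 19) (nat_lit 7) (nat_lit 338814222615312) (nat_lit 28965222469048455157008)
    DR_13_19_7_1 formsB P19 CRP_13 CRP_19 TBRP_13_19_7_1 = true := by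
  decide +kernel

/-- table -/
def TBRP_19_31_7_0 : ℕ := nat_lit 5800672114282303316590381045226179999465406567528501351863046929984014330570477427937176323752085023462475854862502371546662086156225218691712550822197152415209228188889446979162813804599518137353115864831703960661788769515614321681830419796321703804508410819774372632432701552907699422100806155418938841282400228826363483262891137497671376127440876281506725595858680972185196448317929911096518202543457397315731673069376965590385211054051042021584284584852642899894488169154518551788701201418553864316613515124899202598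

theorem ctRP_19_31_7_0 : checkR (nat_lit 192) (nat_lit 19) (nat_lit 31) (nat_lit 7) (nat_lit 5354329900725502747152) (nat_lit 8486223987540734509560688383373693200)
    DR_19_31_7_0 formsB P31 CRP_19 CRP_31 TBRP_19_31_7_0 = true := by
  decide +kernel

/-- table -/
def TBRP_19_31_7_1 : ℕ := nat_lit 2131841699396003699810270578795786249332041330845479997674662094396023553189891309072698637684644347389809818648067524656633272120937193850096738592231756802475817765593081440639106440345303069374383453368567193677895643578129472712393809794784248227488851849829135533917520257771097891099758038277935947478764955229001388855077332110718055792845365584779724695668314997994502714343144208927490026193530880875887678072778608105839087748782959241049519731296502127538438797942258872485999464192348320499921873484294414918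

theorem ctRP_19_31_7_1 : checkR (nat_lit 192) (nat_lit 19) (nat_lit 31) (nat_lit 7) (nat_lit 28965222469048455157008) (nat_lit 1433444409455675656845669721259983120)
    DR_19_31_7_1 formsB P31 CRP_19 CRP_31 TBRP_19_31_7_1 = true := by
  decide +kernel

/-- table -/
def TBRP_19_31_7_2 : ℕ := nat_lit 4509685216502575110057725873715209287352439645259859934588165222356835510516622579226955991455270293974554330851022960166578713168278063571457694005665654586372852076480824362094912997309891139764453410038173751446821060933986813594787819222256238682349459165389242817119214364059413495075110305703776735969675187604555721103858190400708447149534887524576087935866875977209882548748006602136388237679890125936571126896028466552278208051109828960890603930609219448044589345859046052854828830598612118146123355406340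

theorem ctRP_19_31_7_2 : checkR (nat_lit 192) (nat_lit 19) (nat_lit 31) (nat_lit 7) (nat_lit 28655172155794458240528) (nat_lit 1423097687460219056025636105428738320)
    DR_19_31_7_2 formsB P31 CRP_19 CRP_31 TBRP_19_31_7_2 = true := by
  decide +kernel

/-- stage -/
def stRP_3 (a7 r_19_31_7_0 r_19_31_7_1 r_19_31_7_2 t7 : ℕ) : Bool :=
  allI (fun i31 c31 =>
    imp (chkB (nat_lit 7) (dg (nat_lit 12) r_19_31_7_0 i31) a7 t7) <|
    imp (chkB (nat_lit 7) (dg (nat_lit 12) r_19_31_7_1 i31) a7 t7) <|
    imp (chkB (nat_lit 7) (dg (nat_lit 12) r_19_31_7_2 i31) a7 t7) <|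
    false) CRP_31 (nat_lit 0)

/-- stage -/
def stRP_2 (e_13_19_7_0 e_13_19_7_1 r_19_31_7_0 r_19_31_7_1 r_19_31_7_2 : ℕ) : Bool :=
  allI (fun i7 c7 =>
    imp (chkB (nat_lit 7) e_13_19_7_0 c7.1 c7.2) <|
    imp (chkB (nat_lit 7) e_13_19_7_1 c7.1 c7.2) <|
    stRP_3 c7.1 r_19_31_7_0 r_19_31_7_1 r_19_31_7_2 c7.2) CRP_7 (nat_lit 0)

/-- stage -/
def stRP_1 (r_13_19_7_0 r_13_19_7_1 : ℕ) : Bool :=
  allI (fun i19 c19 =>
    strict (dg (nat_lit 12) r_13_19_7_0 i19) fun e_13_19_7_0 =>
    strict (dg (nat_lit 12) r_13_19_7_1 i19) fun e_13_19_7_1 =>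
    strict (dg (nat_lit 192) TBRP_19_31_7_0 i19) fun r_19_31_7_0 =>
    strict (dg (nat_lit 192) TBRP_19_31_7_1 i19) fun r_19_31_7_1 =>
    strict (dg (nat_lit 192) TBRP_19_31_7_2 i19) fun r_19_31_7_2 =>
    stRP_2 e_13_19_7_0 e_13_19_7_1 r_19_31_7_0 r_19_31_7_1 r_19_31_7_2) CRP_19 (nat_lit 0)

/-- stage -/
def bdRP (i13 : ℕ) (c13 : ℕ × ℕ) : Bool :=
    strict (dg (nat_lit 108) TBRP_13_19_7_0 i13) fun r_13_19_7_0 =>
    strict (dg (nat_lit 108) TBRP_13_19_7_1 i13) fun r_13_19_7_1 =>
    stRP_1 r_13_19_7_0 r_13_19_7_1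

theorem allRP : allI (fun i c => bdRP i c) CRP_13 (nat_lit 0) = true := by
  decide +kernel

theorem falseRP {a t : ℕ} {i13 i19 i7 i31 : ℕ}
    (b13 : i13 < CRP_13.length)
    (b19 : i19 < CRP_19.length)
    (b7 : i7 < CRP_7.length)
    (b31 : i31 < CRP_31.length)
    (top : bdRP i13 CRP_13[i13] = true)
    (h13 : CRP_13[i13] = (a % 13, t % 13))
    (h19 : CRP_19[i19] = (a % 19, t % 19))
    (h7 : CRP_7[i7] = (a % 7, t % 7))
    (h31 : CRP_31[i31] = (a % 31, t % 31))
    (r_13_19_7_0 : chkB 7 (dg 12 (dg 108 TBRP_13_19_7_0 i13) i19) (a % 7) (t % 7) = true)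
    (r_13_19_7_1 : chkB 7 (dg 12 (dg 108 TBRP_13_19_7_1 i13) i19) (a % 7) (t % 7) = true)
    (r_19_31_7_0 : chkB 7 (dg 12 (dg 192 TBRP_19_31_7_0 i19) i31) (a % 7) (t % 7) = true)
    (r_19_31_7_1 : chkB 7 (dg 12 (dg 192 TBRP_19_31_7_1 i19) i31) (a % 7) (t % 7) = true)
    (r_19_31_7_2 : chkB 7 (dg 12 (dg 192 TBRP_19_31_7_2 i19) i31) (a % 7) (t % 7) = true)
    : False := by
  try rw [h13] at top
  unfold bdRP at top
  simp only [strict_eq] at top
  unfold stRP_1 at top
  replace top := allI_get top b19
  try rw [h19] at top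
  simp only [strict_eq] at top
  unfold stRP_2 at top
  replace top := allI_get top b7
  try rw [h7] at top
  replace top := imp_spec top r_13_19_7_0
  replace top := imp_spec top r_13_19_7_1
  unfold stRP_3 at top
  replace top := allI_get top b31
  try rw [h31] at top
  replace top := imp_spec top r_19_31_7_0
  replace top := imp_spec top r_19_31_7_1
  replace top := imp_spec top r_19_31_7_2
  exact Bool.false_ne_true top

/-- no large field in the family `n² + 2` -/
theorem noP {a n d : ℕ} (ha : a = 2) (hd : (d : ℤ) = ((a : ℤ) * n) ^ 2 + 4 * a)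
    (j7 : jacobiSym d 7 = -1)
    (j13 : jacobiSym d 13 = -1)
    (j19 : jacobiSym d 19 = -1)
    (j31 : jacobiSym d 31 = -1)
    (hT : AllB a n d) : False := by
  have q7 : ¬ 7 ∣ d := nd_of (by norm_num) j7
  have q13 : ¬ 13 ∣ d := nd_of (by norm_num) j13
  have q19 : ¬ 19 ∣ d := nd_of (by norm_num) j19
  have q31 : ¬ 31 ∣ d := nd_of (by norm_num) j31
  have c13 : Nat.Coprime 13 d := cop_of (p := 13) (k := 1) (by norm_num) q13
  have c19 : Nat.Coprime 19 d := cop_of (p := 19) (k := 1) (by norm_num) q19
  have c7 : Nat.Coprime 7 d := cop_of (p := 7) (k := 1) (by norm_num) q7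
  have c31 : Nat.Coprime 31 d := cop_of (p := 31) (k := 1) (by norm_num) q31
  obtain ⟨i13, b13, e13⟩ := memCheck_spec memRP_13 (Nat.mod_lt a (by norm_num))
    (Nat.mod_lt n (by norm_num)) (spc_of (clB_of (n := 13) (by norm_num) (by norm_num) hd j13) (by rw [ha]))
  obtain ⟨i19, b19, e19⟩ := memCheck_spec memRP_19 (Nat.mod_lt a (by norm_num))
    (Nat.mod_lt n (by norm_num)) (spc_of (clB_of (n := 19) (by norm_num) (by norm_num) hd j19) (by rw [ha]))
  obtain ⟨i7, b7, e7⟩ := memCheck_spec memRP_7 (Nat.mod_lt a (by norm_num))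
    (Nat.mod_lt n (by norm_num)) (spc_of (clB_of (n := 7) (by norm_num) (by norm_num) hd j7) (by rw [ha]))
  obtain ⟨i31, b31, e31⟩ := memCheck_spec memRP_31 (Nat.mod_lt a (by norm_num))
    (Nat.mod_lt n (by norm_num)) (spc_of (clB_of (n := 31) (by norm_num) (by norm_num) hd j31) (by rw [ha]))
  exact falseRP b13 b19 b7 b31 (allI_get allRP b13)
    e13 e19 e7 e31
    (chkB_of hyp_13_19_7_0 dr_13_19_7_0 ctRP_13_19_7_0 hT (by norm_num) (by norm_num) (c13.mul_left c19) q7 b13 b19 e13 e19)
    (chkB_of hyp_13_19_7_1 dr_13_19_7_1 ctRP_13_19_7_1 hT (by norm_num) (by norm_num) (c13.mul_left c19) q7 b13 b19 e13 e19)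
    (chkB_of hyp_19_31_7_0 dr_19_31_7_0 ctRP_19_31_7_0 hT (by norm_num) (by norm_num) (c19.mul_left c31) q7 b19 b31 e19 e31)
    (chkB_of hyp_19_31_7_1 dr_19_31_7_1 ctRP_19_31_7_1 hT (by norm_num) (by norm_num) (c19.mul_left c31) q7 b19 b31 e19 e31)
    (chkB_of hyp_19_31_7_2 dr_19_31_7_2 ctRP_19_31_7_2 hT (by norm_num) (by norm_num) (c19.mul_left c31) q7 b19 b31 e19 e31)

end Pool.Agent.LibH4.KF
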