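import Pool.Agent.RDF.KN_G
import Pool.Agent.RDF.KS_G3
import Pool.Agent.RDF.KS_G7
import Pool.Agent.RDF.KS_G19
import Pool.Agent.RDF.KS_P
import Pool.Agent.RDF.KS_M

/-!
The eliminations for the extended Richaud-Degert types.
-/

namespace Pool.Agent.RDF

open Pool.Agent.LibH4.KF

/-- **the elimination of the two-parameter family** -/
theorem stmtElimE : StmtElimE := by
  intro A k d hA hk hd h8 hj hall
  have hT := allG hA hk hall
  by_cases h1 : A = 1
  · exact (noG3 h1 hd
      (hj 5 (by norm_num) (by norm_num) (by norm_num) (by unfold FE.aa; omega))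
      (hj 7 (by norm_num) (by norm_num) (by norm_num) (by unfold FE.aa; omega))
      (hj 13 (by norm_num) (by norm_num) (by norm_num) (by unfold FE.aa; omega))
      (hj 17 (by norm_num) (by norm_num) (by norm_num) (by unfold FE.aa; omega)) hT).elim
  by_cases h2 : A = 2
  · exact (noG7 h2 hd
      (hj 5 (by norm_num) (by norm_num) (by norm_num) (by unfold FE.aa; omega))
      (hj 11 (by norm_num) (by norm_num) (by norm_num) (by unfold FE.aa; omega))
      (hj 13 (by norm_num) (by norm_num) (by norm_num) (by unfold FE.aa; omega))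
      (hj 17 (by norm_num) (by norm_num) (by norm_num) (by unfold FE.aa; omega))
      (hj 19 (by norm_num) (by norm_num) (by norm_num) (by unfold FE.aa; omega)) hT).elim
  by_cases h5 : A = 5
  · exact (noG19 h5 hd
      (hj 3 (by norm_num) (by norm_num) (by norm_num) (by unfold FE.aa; omega))
      (hj 5 (by norm_num) (by norm_num) (by norm_num) (by unfold FE.aa; omega))
      (hj 7 (by norm_num) (by norm_num) (by norm_num) (by unfold FE.aa; omega))
      (hj 13 (by norm_num) (by norm_num) (by norm_num) (by unfold FE.aa; omega))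
      (hj 17 (by norm_num) (by norm_num) (by norm_num) (by unfold FE.aa; omega)) hT).elim
  refine ⟨?_, ?_⟩
  · unfold FE.aa
    omega
  · by_contra ng
    exact noRG hd
      (hj 3 (by norm_num) (by norm_num) (by norm_num) (by unfold FE.aa; omega))
      (hj 5 (by norm_num) (by norm_num) (by norm_num) (by unfold FE.aa; omega))
      (hj 7 (by norm_num) (by norm_num) (by norm_num) (by unfold FE.aa; omega))
      (hj 13 (by norm_num) (by norm_num) (by norm_num) (by unfold FE.aa; omega))
      (hj 17 (by norm_num) (by norm_num) (by norm_num) (by unfold FE.aa; omega))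
      (hj 19 (by norm_num) (by norm_num) (by norm_num) (by unfold FE.aa; omega)) ng hT

/-- **the elimination of `n² + 2`** -/
theorem stmtElimPlus : StmtElimPlus := by
  intro n D hD hj hall
  have hd : (D : ℤ) = (((2 : ℕ) : ℤ) * n) ^ 2 + 4 * ((2 : ℕ) : ℤ) := by
    rw [hD]
    push_cast
    ring
  exact noP rfl hd
    (hj 7 (by norm_num) (by norm_num) (by norm_num))
    (hj 13 (by norm_num) (by norm_num) (by norm_num))
    (hj 19 (by norm_num) (by norm_num) (by norm_num))
    (hj 31 (by norm_num) (by norm_num) (by norm_num)) (allB2 hall)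

/-- **the elimination of `n² - 2`** -/
theorem stmtElimMinus : StmtElimMinus := by
  intro n D hD hj hall
  have hd : (D : ℤ) = (((2 : ℕ) : ℤ) * n) ^ 2 - 4 * ((2 : ℕ) : ℤ) := by
    have h : ((D + 8 : ℕ) : ℤ) = (((2 * n) ^ 2 : ℕ) : ℤ) := by rw [hD]
    push_cast at h ⊢
    linear_combination h
  exact noM rfl hd
    (hj 3 (by norm_num) (by norm_num) (by norm_num))
    (hj 5 (by norm_num) (by norm_num) (by norm_num))
    (hj 7 (by norm_num) (by norm_num) (by norm_num))
    (hj 13 (by norm_num) (by norm_num) (by norm_num))
    (hj 23 (by norm_num) (by norm_num) (by norm_num))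
    (hj 37 (by norm_num) (by norm_num) (by norm_num)) (allE2 hall)

end Pool.Agent.RDF
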