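import Pool.Agent.Lib_helper4.KData
import Pool.Agent.RDF.Stmts

/-!
The family `d = (2ak)² - a`, `a = 4A - 1`: relations and final checks for the kernel tables;
the relations of the families `n² ± 2` in the form of the tables.
-/

namespace Pool.Agent.LibH4.KF

open Finset Ker T6 Pool.Agent.Lib_helper5 Pool.Agent.RDF

/-- `4A - 1` modulo `N` -/
def gA (N A : ℕ) : ℕ := Nat.mod (Nat.add (Nat.mul (nat_lit 4) A) (Nat.sub N (nat_lit 1))) N
/-- `(4A - 1) k` modulo `N` -/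
def gAK (N A k : ℕ) : ℕ := Nat.mod (Nat.mul (gA N A) k) N
/-- `(4A - 1) k - A` modulo `N` -/
def gW1 (N A k : ℕ) : ℕ := Nat.mod (Nat.add (gAK N A k) (Nat.mul (Nat.sub N (nat_lit 1)) A)) N
/-- `2 (4A - 1) k - 1` modulo `N` -/
def gR1 (N A k : ℕ) : ℕ := Nat.mod (Nat.add (Nat.mul (nat_lit 2) (gAK N A k))
  (Nat.sub N (nat_lit 1))) N
/-- `2 (4A - 1) k - (4A - 1)` modulo `N` -/
def gR3 (N A k : ℕ) : ℕ := Nat.mod (Nat.add (Nat.mul (nat_lit 2) (gAK N A k))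
  (Nat.mul (Nat.sub N (nat_lit 1)) (gA N A))) N
/-- `-(4A - 1)` modulo `N` -/
def gS3 (N A : ℕ) : ℕ := Nat.mod (Nat.mul (Nat.sub N (nat_lit 1)) (gA N A)) N

/-- first form -/
def cfG1 : CF (ℕ × ℕ) := fun N c k => strict (gW1 N c.1 c.2) fun P => strict (gR1 N c.1 c.2) fun R =>
  k P R (Nat.sub N (nat_lit 1))
/-- second form -/
def cfG3 : CF (ℕ × ℕ) := fun N c k => strict (gW1 N c.1 c.2) fun P => strict (gR3 N c.1 c.2) fun R =>
  strict (gS3 N c.1) fun S => k P R S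

/-- the forms with their weights -/
def formsG : List (WF (ℕ × ℕ)) := [(cfG1, nat_lit 6, nat_lit 2, nat_lit 16777216),
  (cfG3, nat_lit 6, nat_lit 2, nat_lit 281474976710656)]

lemma gA_cast {N : ℕ} [NeZero N] (A : ℕ) : (gA N (A % N) : ZMod N) = 4 * (A : ZMod N) - 1 := by
  have : gA N (A % N) = (4 * (A % N) + (N - 1)) % N := rfl
  rw [this, ZMod.natCast_mod]
  push_cast
  rw [cast_pred, ZMod.natCast_mod]
  ring

lemma gAK_cast {N : ℕ} [NeZero N] (A k : ℕ) :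
    (gAK N (A % N) (k % N) : ZMod N) = (4 * (A : ZMod N) - 1) * k := by
  have : gAK N (A % N) (k % N) = (gA N (A % N) * (k % N)) % N := rfl
  rw [this, ZMod.natCast_mod]
  push_cast
  rw [gA_cast, ZMod.natCast_mod]

lemma repG1 {N : ℕ} [NeZero N] (A k : ℕ) : Rep cfG1 N (A % N, k % N) (FE.w A k)
    (FE.bb A k) (-1) := by
  refine ⟨gW1 N (A % N) (k % N), gR1 N (A % N) (k % N), N - 1, ?_, ?_, ?_, ?_⟩
  · intro k
    unfold cfG1
    rw [strict_eq, strict_eq]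
    rfl
  · have : gW1 N (A % N) (k % N) = (gAK N (A % N) (k % N) + (N - 1) * (A % N)) % N := rfl
    rw [this, ZMod.natCast_mod]
    push_cast
    rw [cast_pred, gAK_cast, ZMod.natCast_mod]
    unfold FE.w FE.aa
    push_cast
    ring
  · have : gR1 N (A % N) (k % N) = (2 * gAK N (A % N) (k % N) + (N - 1)) % N := rfl
    rw [this, ZMod.natCast_mod]
    push_cast
    rw [cast_pred, gAK_cast]
    unfold FE.bb FE.aa
    push_cast
    ring
  · rw [cast_pred]; push_cast; ring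

lemma repG3 {N : ℕ} [NeZero N] (A k : ℕ) : Rep cfG3 N (A % N, k % N) (FE.w A k)
    (2 * FE.aa A * k - FE.aa A) (-FE.aa A) := by
  refine ⟨gW1 N (A % N) (k % N), gR3 N (A % N) (k % N), gS3 N (A % N), ?_, ?_, ?_, ?_⟩
  · intro k
    unfold cfG3
    rw [strict_eq, strict_eq, strict_eq]
  · have : gW1 N (A % N) (k % N) = (gAK N (A % N) (k % N) + (N - 1) * (A % N)) % N := rfl
    rw [this, ZMod.natCast_mod]
    push_cast
    rw [cast_pred, gAK_cast, ZMod.natCast_mod]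
    unfold FE.w FE.aa
    push_cast
    ring
  · have : gR3 N (A % N) (k % N) = (2 * gAK N (A % N) (k % N) + (N - 1) * gA N (A % N)) % N := rfl
    rw [this, ZMod.natCast_mod]
    push_cast
    rw [cast_pred, gAK_cast, gA_cast]
    unfold FE.aa
    push_cast
    ring
  · have : gS3 N (A % N) = ((N - 1) * gA N (A % N)) % N := rfl
    rw [this, ZMod.natCast_mod]
    push_cast
    rw [cast_pred, gA_cast]
    unfold FE.aa
    push_cast
    ring

/-- final check -/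
def chkG (l e A k : ℕ) : Bool := strict e fun e => strict (gAK l A k) fun ak =>
  strict (Nat.sub l (nat_lit 1)) fun m =>
  Nat.beq (Nat.mod (Nat.add (dg (nat_lit 4) e (nat_lit 0)) (Nat.mul m
    (Nat.add (Nat.mul (Nat.add (Nat.mul (nat_lit 2) ak) m) (dg (nat_lit 4) e (nat_lit 1)))
      (Nat.mul (Nat.add (Nat.mul (nat_lit 2) k) m) (dg (nat_lit 4) e (nat_lit 2)))))) l) (nat_lit 0)

/-- the relation of the family -/
def RelG (A k q l : ℕ) [NeZero q] (chi : ZMod q → ZMod l) : Prop :=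
  (6 * XX chi (FE.w A k) (FE.bb A k) (-1) + 2 * YY chi (FE.w A k) (FE.bb A k) (-1) +
    6 * XX chi (FE.w A k) (2 * FE.aa A * k - FE.aa A) (-FE.aa A) +
    2 * YY chi (FE.w A k) (2 * FE.aa A * k - FE.aa A) (-FE.aa A)) -
    ((2 * ((4 * A - 1) * k) - 1) * YX chi (FE.w A k) (FE.bb A k) (-1) +
    (2 * k - 1) * YX chi (FE.w A k) (2 * FE.aa A * k - FE.aa A) (-FE.aa A)) = 0

/-- all relations -/
def AllG (A k d : ℕ) : Prop := ∀ (q l : ℕ) [NeZero q], l.Prime → Nat.Coprime q d →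
  ¬ l ∣ 6 → ¬ l ∣ d → ∀ chi : ZMod q → ZMod l, (∀ x, chi (-x) = - chi x) →
  (∀ x y, chi (x * y) = chi x * chi y) →
  (∑ u ∈ range q, (u : ZMod l) * chi (u : ZMod q) = 0) → RelG A k q l chi

theorem allG {A k d : ℕ} (hA : 1 ≤ A) (hk : 1 ≤ k) (hall : FE.All A k d) : AllG A k d := by
  intro q l _ hl hco hl6 hld chi hodd hmul hsum
  have : Fact l.Prime := ⟨hl⟩
  have h := hall q l (Nat.pos_of_ne_zero (NeZero.ne q)) hco hl6 hld chi hodd hmul hsum
  have hc0 : (FE.c A k 0 : ZMod l) = 2 * ((4 * A - 1) * k) - 1 := by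
    have := FE.cast_c0 hA hk
    have e : (FE.c A k 0 : ZMod l) = (((2 * (4 * A - 1) * k - 1 : ℕ) : ℤ) : ZMod l) := by
      unfold FE.c; push_cast; rfl
    rw [e, this]
    unfold FE.bb FE.aa
    push_cast
    ring
  have hc2 : (FE.c A k 2 : ZMod l) = 2 * k - 1 := by
    have := FE.cast_c2 (k := k) hk
    have e : (FE.c A k 2 : ZMod l) = (((2 * k - 1 : ℕ) : ℤ) : ZMod l) := by
      unfold FE.c; push_cast; rfl
    rw [e, this]
    push_cast
    ring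
  have hc1 : (FE.c A k 1 : ZMod l) = 2 := by unfold FE.c; norm_num
  have hc3 : (FE.c A k 3 : ZMod l) = 2 := by unfold FE.c; norm_num
  rw [Finset.sum_range_succ, Finset.sum_range_succ, Finset.sum_range_succ, Finset.sum_range_one,
    range_term, range_term, range_term, range_term, hc0, hc1, hc2, hc3] at h
  simp only [FE.P, FE.R, FE.S] at h
  have s1 := XX_swap chi hodd (FE.w A k) (FE.bb A k) (-1)
  have s2 := YX_swap chi hodd (FE.w A k) (FE.bb A k) (-1)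
  have s3 := XX_swap chi hodd (FE.w A k) (2 * FE.aa A * k - FE.aa A) (-FE.aa A)
  have s4 := YX_swap chi hodd (FE.w A k) (2 * FE.aa A * k - FE.aa A) (-FE.aa A)
  rw [neg_neg] at s1 s2 s3 s4
  rw [s1, s2, s3, s4] at h
  unfold RelG
  linear_combination h

section EntryG

variable {n1 n2 l e1 e2 T1 T2 : ℕ} {L1 L2 : List (ℕ × ℕ)} [NeZero n1] [NeZero n2]
    [NeZero (n1 * n2)]

lemma entG_digits (H : Hyp n1 n2 l e1 e2 T1 T2 L1 L2) (c c2 : ℕ × ℕ) (h1 : CFok cfG1 n2 c2)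
    (h3 : CFok cfG3 n2 c2) :
    entA n1 n2 l e1 e2 T1 T2 L1 L2 formsG c c2 =
      (6 * zW n1 n2 l T1 T2 L1 L2 (wD n1 n2 l e1 e2 T1 T2) cfG1 c c2 +
        2 * zW n1 n2 l T1 T2 L1 L2 (wE1 n1 n2 l e1 e2 T1 T2) cfG1 c c2 +
        6 * zW n1 n2 l T1 T2 L1 L2 (wD n1 n2 l e1 e2 T1 T2) cfG3 c c2 +
        2 * zW n1 n2 l T1 T2 L1 L2 (wE1 n1 n2 l e1 e2 T1 T2) cfG3 c c2) +
      2 ^ 24 * zW n1 n2 l T1 T2 L1 L2 (wE2 n1 n2 l e1 e2 T1 T2) cfG1 c c2 +
      2 ^ 48 * zW n1 n2 l T1 T2 L1 L2 (wE2 n1 n2 l e1 e2 T1 T2) cfG3 c c2 ∧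
    (6 * zW n1 n2 l T1 T2 L1 L2 (wD n1 n2 l e1 e2 T1 T2) cfG1 c c2 +
        2 * zW n1 n2 l T1 T2 L1 L2 (wE1 n1 n2 l e1 e2 T1 T2) cfG1 c c2 +
        6 * zW n1 n2 l T1 T2 L1 L2 (wD n1 n2 l e1 e2 T1 T2) cfG3 c c2 +
        2 * zW n1 n2 l T1 T2 L1 L2 (wE1 n1 n2 l e1 e2 T1 T2) cfG3 c c2) < 2 ^ 24 ∧
    zW n1 n2 l T1 T2 L1 L2 (wE2 n1 n2 l e1 e2 T1 T2) cfG1 c c2 < 2 ^ 24 ∧
    zW n1 n2 l T1 T2 L1 L2 (wE2 n1 n2 l e1 e2 T1 T2) cfG3 c c2 < 2 ^ 24 := by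
  have b1 := zW_lt (n1 := n1) (T1 := T1) (T2 := T2) (L1 := L1) (c := c) H.l3 H.l16 H.len2
    (wD n1 n2 l e1 e2 T1 T2) h1
  have b2 := zW_lt (n1 := n1) (T1 := T1) (T2 := T2) (L1 := L1) (c := c) H.l3 H.l16 H.len2
    (wE1 n1 n2 l e1 e2 T1 T2) h1
  have b3 := zW_lt (n1 := n1) (T1 := T1) (T2 := T2) (L1 := L1) (c := c) H.l3 H.l16 H.len2
    (wE2 n1 n2 l e1 e2 T1 T2) h1
  have b4 := zW_lt (n1 := n1) (T1 := T1) (T2 := T2) (L1 := L1) (c := c) H.l3 H.l16 H.len2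
    (wD n1 n2 l e1 e2 T1 T2) h3
  have b5 := zW_lt (n1 := n1) (T1 := T1) (T2 := T2) (L1 := L1) (c := c) H.l3 H.l16 H.len2
    (wE1 n1 n2 l e1 e2 T1 T2) h3
  have b6 := zW_lt (n1 := n1) (T1 := T1) (T2 := T2) (L1 := L1) (c := c) H.l3 H.l16 H.len2
    (wE2 n1 n2 l e1 e2 T1 T2) h3
  refine ⟨?_, by norm_num; omega, by norm_num; omega, by norm_num; omega⟩
  unfold entA formsG
  simp only [List.map_cons, List.map_nil, List.sum_cons, List.sum_nil]
  unfold entF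
  simp only
  ring

/-- **soundness** for the family `(2ak)² - a` -/
theorem soundG (H : Hyp n1 n2 l e1 e2 T1 T2 L1 L2) {W : ℕ} {D1 D2 : List (ℕ × ℕ)} {TB : ℕ}
    {DRs : List ((ℕ × ℕ) × ℕ)} (hDR : DRs = DRstd n1 n2 l e1 e2 T1 T2 L1 L2)
    (hc : checkR W n1 n2 l T1 T2 DRs formsG L2 D1 D2 TB = true) {A k : ℕ}
    (hrel : RelG A k (n1 * n2) l (chiF n1 n2 l T1 T2)) {i j : ℕ} (hi : i < D1.length)
    (hj : j < D2.length) (h1 : D1[i] = (A % n1, k % n1)) (h2 : D2[j] = (A % n2, k % n2)) :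
    chkG l (dg 12 (dg W TB i) j) (A % l) (k % l) = true := by
  have hok : ∀ (N : ℕ) (c : ℕ × ℕ), CFok cfG1 N c ∧ CFok cfG3 N c := by
    intro N c
    constructor
    · refine ⟨gW1 N c.1 c.2, gR1 N c.1 c.2, N - 1, ?_⟩
      intro k
      unfold cfG1
      rw [strict_eq, strict_eq]
      rfl
    · refine ⟨gW1 N c.1 c.2, gR3 N c.1 c.2, gS3 N c.1, ?_⟩
      intro k
      unfold cfG3
      rw [strict_eq, strict_eq, strict_eq]
  rw [checkR_spec H.l3 H.l16 H.qle H.len1 hDR ?_ ?_ hc i j hi hj, h1, h2]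
  · obtain ⟨e, l0, l1, l2⟩ := entG_digits H (A % n1, k % n1) (A % n2, k % n2)
      (hok _ _).1 (hok _ _).2
    have hlpos : 1 ≤ l := by have := H.l3; omega
    have : NeZero l := ⟨by omega⟩
    obtain ⟨g0, g1, g2⟩ := red_digits hlpos H.l16 l0 l1 l2
    unfold chkG
    rw [strict_eq, strict_eq, strict_eq, e]
    change Nat.beq ((dg 4 _ 0 + (l - 1) * ((2 * gAK l (A % l) (k % l) + (l - 1)) * dg 4 _ 1 +
      (2 * (k % l) + (l - 1)) * dg 4 _ 2)) % l) 0 = true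
    rw [g0, g1, g2, Nat.beq_eq, ← Nat.dvd_iff_mod_eq_zero, ← ZMod.natCast_eq_zero_iff]
    have r1 := repG1 (N := n1) A k
    have r2 := repG1 (N := n2) A k
    have r3 := repG3 (N := n1) A k
    have r4 := repG3 (N := n2) A k
    push_cast [Nat.cast_sub hlpos]
    simp only [ZMod.natCast_mod]
    push_cast
    rw [z0_cast H r1 r2, z1_cast H r1 r2, z2_cast H r1 r2, z0_cast H r3 r4, z1_cast H r3 r4,
      z2_cast H r3 r4, gAK_cast]
    rw [ZMod.natCast_self]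
    unfold RelG at hrel
    linear_combination hrel
  · intro c _ f hf
    unfold formsG at hf
    simp only [List.mem_cons, List.not_mem_nil, or_false] at hf
    rcases hf with rfl | rfl
    · exact (hok _ _).1
    · exact (hok _ _).2
  · intro c _ c2 _
    obtain ⟨e, l0, l1, l2⟩ := entG_digits H c c2 (hok _ _).1 (hok _ _).2
    rw [e]
    norm_num at l0 l1 l2 ⊢
    omega

lemma chkG_of (H : Hyp n1 n2 l e1 e2 T1 T2 L1 L2) {W : ℕ} {D1 D2 : List (ℕ × ℕ)} {TB : ℕ}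
    {DRs : List ((ℕ × ℕ) × ℕ)} (hDR : DRs = DRstd n1 n2 l e1 e2 T1 T2 L1 L2)
    (hc : checkR W n1 n2 l T1 T2 DRs formsG L2 D1 D2 TB = true) {A k d : ℕ}
    (hT : AllG A k d) (hl : l.Prime) (hl6 : ¬ l ∣ 6) (hco : Nat.Coprime (n1 * n2) d)
    (hld : ¬ l ∣ d) {i j : ℕ} (hi : i < D1.length)
    (hj : j < D2.length) (h1 : D1[i] = (A % n1, k % n1)) (h2 : D2[j] = (A % n2, k % n2)) :
    chkG l (dg 12 (dg W TB i) j) (A % l) (k % l) = true :=
  soundG H hDR hc (hT (n1 * n2) l hl hco hl6 hld _ (chiF_neg H) (chiF_mul H) (chiF_bern H))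
    hi hj h1 h2

end EntryG

/-- discriminant of the family modulo `p` -/
def dG (p u v : ℕ) : ℕ := Nat.mod (Nat.add (Nat.mul (nat_lit 4) (Nat.mul (gAK p u v) (gAK p u v)))
  (Nat.mul (Nat.sub p (nat_lit 1)) (gA p u))) p

/-- inert classes -/
def clG (p u v : ℕ) : Bool := strict (dG p u v) fun d => nsq p d

lemma gA_mod {p u : ℕ} (hp : p ≠ 0) : gA p (u % p) = gA p u := by
  have : NeZero p := ⟨hp⟩
  have h1 : gA p (u % p) = (4 * (u % p) + (p - 1)) % p := rfl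
  have h2 : gA p u = (4 * u + (p - 1)) % p := rfl
  rw [h1, h2, Nat.add_mod, Nat.mul_mod, Nat.mod_mod, ← Nat.mul_mod, ← Nat.add_mod]

lemma clG_of {p n A k d : ℕ} (hp : p.Prime) (hpn : p ∣ n)
    (hd : (d : ℤ) = (2 * FE.aa A * k) ^ 2 - FE.aa A) (hj : jacobiSym d p = -1) :
    clG p (A % n) (k % n) = true := by
  unfold clG
  rw [strict_eq]
  have : NeZero p := ⟨hp.ne_zero⟩
  have e : dG p (A % n) (k % n) = (4 * (gAK p (A % n) (k % n) * gAK p (A % n) (k % n)) +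
    (p - 1) * gA p (A % n)) % p := rfl
  have hA : (gA p (A % n) : ZMod p) = 4 * (A : ZMod p) - 1 := by
    have h := gA_cast (N := p) (A % n)
    rw [gA_mod hp.ne_zero, cast_mod hpn] at h
    exact h
  have hAK : (gAK p (A % n) (k % n) : ZMod p) = (4 * (A : ZMod p) - 1) * k := by
    have h2 : gAK p (A % n) (k % n) = (gA p (A % n) * (k % n)) % p := rfl
    rw [h2, ZMod.natCast_mod]
    push_cast
    rw [hA, cast_mod hpn]
  apply nsq_of hp _ hj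
  rw [e, ZMod.natCast_mod]
  push_cast
  rw [cast_pred, hA, hAK]
  have h2 := congrArg (fun x : ℤ => (x : ZMod p)) hd
  unfold FE.aa at h2
  push_cast at h2
  rw [h2]
  ring

/-! ### the families `n² ± 2` -/

theorem allB2 {n D : ℕ} (hall : BL.All 2 n D) : AllB 2 n D := by
  intro q l _ hl hco hl6 hld chi hodd hmul hsum
  have : Fact l.Prime := ⟨hl⟩
  have h := hall q l (Nat.pos_of_ne_zero (NeZero.ne q)) hco hl6 hld chi hodd hmul hsum
  rw [range_term, range_term] at h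
  have s1 := XX_swap chi hodd ((2 : ℕ) : ℤ) (((2 : ℕ) : ℤ) * n) (-1)
  have s2 := YX_swap chi hodd ((2 : ℕ) : ℤ) (((2 : ℕ) : ℤ) * n) (-1)
  rw [neg_neg] at s1 s2
  rw [s1, s2] at h
  unfold RelB
  linear_combination h

theorem allE2 {n D : ℕ} (hall : E1.All 2 n D) : AllE 2 n D := by
  intro q l _ hl hco hl6 hld chi hodd hmul hsum
  have : Fact l.Prime := ⟨hl⟩
  have h := hall q l (Nat.pos_of_ne_zero (NeZero.ne q)) hco hl6 hld chi hodd hmul hsum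
  rw [range_term, range_term, range_term, range_term] at h
  have s1 := XX_swap chi hodd (((2 : ℕ) : ℤ) * n - (2 : ℕ) - 1) (((2 : ℕ) : ℤ) * n - 2) (-1)
  have s2 := YX_swap chi hodd (((2 : ℕ) : ℤ) * n - (2 : ℕ) - 1) (((2 : ℕ) : ℤ) * n - 2) (-1)
  have s3 := XX_swap chi hodd (((2 : ℕ) : ℤ) * n - (2 : ℕ) - 1)
    (((2 : ℕ) : ℤ) * n - 2 * (2 : ℕ)) (-(2 : ℕ))
  have s4 := YX_swap chi hodd (((2 : ℕ) : ℤ) * n - (2 : ℕ) - 1)
    (((2 : ℕ) : ℤ) * n - 2 * (2 : ℕ)) (-(2 : ℕ))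
  rw [neg_neg] at s1 s2 s3 s4
  rw [s1, s2, s3, s4] at h
  unfold RelE
  linear_combination h

end Pool.Agent.LibH4.KF
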