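import Pool.Agent.RDF.KX_G

/-! generated data -/

namespace Pool.Agent.LibH4.KF

open Ker T6 Pool.Agent.RDF

theorem elimRG_3 : allI (fun i c => bdRG i c) ((CRG_7.drop 9).take 3) (nat_lit 9) = true := by
  decide +kernel

end Pool.Agent.LibH4.KF
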