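import Pool.Agent.RDF.KX_G_0
import Pool.Agent.RDF.KX_G_1
import Pool.Agent.RDF.KX_G_2
import Pool.Agent.RDF.KX_G_3
import Pool.Agent.RDF.KX_G_4
import Pool.Agent.RDF.KX_G_5
import Pool.Agent.RDF.KX_G_6

/-! generated data -/

namespace Pool.Agent.LibH4.KF

open Ker T6 Pool.Agent.RDF

lemma topRG {i : ℕ} (hi : i < CRG_7.length) : bdRG i CRG_7[i] = true := by
  have hlen : CRG_7.length = 21 := by decide +kernel
  rcases lt_or_ge i 3 with h | h
  · exact allI_take elimRG_0 hi (by omega) (by omega)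
  rcases lt_or_ge i 6 with h | h
  · exact allI_take elimRG_1 hi (by omega) (by omega)
  rcases lt_or_ge i 9 with h | h
  · exact allI_take elimRG_2 hi (by omega) (by omega)
  rcases lt_or_ge i 12 with h | h
  · exact allI_take elimRG_3 hi (by omega) (by omega)
  rcases lt_or_ge i 15 with h | h
  · exact allI_take elimRG_4 hi (by omega) (by omega)
  rcases lt_or_ge i 18 with h | h
  · exact allI_take elimRG_5 hi (by omega) (by omega)
  exact allI_take elimRG_6 hi (by omega) (by omega)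

/-- no field of the family outside the ghosts -/
theorem noRG {a n d : ℕ} (hd : (d : ℤ) = (2 * FE.aa a * n) ^ 2 - FE.aa a)
    (j3 : jacobiSym d 3 = -1)
    (j5 : jacobiSym d 5 = -1)
    (j7 : jacobiSym d 7 = -1)
    (j13 : jacobiSym d 13 = -1)
    (j17 : jacobiSym d 17 = -1)
    (j19 : jacobiSym d 19 = -1)
    (ng : ¬ 455 ∣ n)
    (hT : AllG a n d) : False := by
  have q3 : ¬ 3 ∣ d := nd_of (by norm_num) j3
  have q5 : ¬ 5 ∣ d := nd_of (by norm_num) j5
  have q7 : ¬ 7 ∣ d := nd_of (by norm_num) j7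
  have q13 : ¬ 13 ∣ d := nd_of (by norm_num) j13
  have q17 : ¬ 17 ∣ d := nd_of (by norm_num) j17
  have q19 : ¬ 19 ∣ d := nd_of (by norm_num) j19
  have c7 : Nat.Coprime 7 d := cop_of (p := 7) (k := 1) (by norm_num) q7
  have c5 : Nat.Coprime 5 d := cop_of (p := 5) (k := 1) (by norm_num) q5
  have c17 : Nat.Coprime 17 d := cop_of (p := 17) (k := 1) (by norm_num) q17
  have c13 : Nat.Coprime 13 d := cop_of (p := 13) (k := 1) (by norm_num) q13
  have c3 : Nat.Coprime 3 d := cop_of (p := 3) (k := 1) (by norm_num) q3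
  have c19 : Nat.Coprime 19 d := cop_of (p := 19) (k := 1) (by norm_num) q19
  have c15 : Nat.Coprime 15 d := c3.mul_left c5
  obtain ⟨i7, b7, e7⟩ := memCheck_spec memRG_7 (Nat.mod_lt a (by norm_num))
    (Nat.mod_lt n (by norm_num)) (clG_of (n := 7) (by norm_num) (by norm_num) hd j7)
  obtain ⟨i5, b5, e5⟩ := memCheck_spec memRG_5 (Nat.mod_lt a (by norm_num))
    (Nat.mod_lt n (by norm_num)) (clG_of (n := 5) (by norm_num) (by norm_num) hd j5)
  obtain ⟨i17, b17, e17⟩ := memCheck_spec memRG_17 (Nat.mod_lt a (by norm_num))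
    (Nat.mod_lt n (by norm_num)) (clG_of (n := 17) (by norm_num) (by norm_num) hd j17)
  obtain ⟨i13, b13, e13⟩ := memCheck_spec memRG_13 (Nat.mod_lt a (by norm_num))
    (Nat.mod_lt n (by norm_num)) (clG_of (n := 13) (by norm_num) (by norm_num) hd j13)
  obtain ⟨i3, b3, e3⟩ := memCheck_spec memRG_3 (Nat.mod_lt a (by norm_num))
    (Nat.mod_lt n (by norm_num)) (clG_of (n := 3) (by norm_num) (by norm_num) hd j3)
  obtain ⟨i19, b19, e19⟩ := memCheck_spec memRG_19 (Nat.mod_lt a (by norm_num))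
    (Nat.mod_lt n (by norm_num)) (clG_of (n := 19) (by norm_num) (by norm_num) hd j19)
  obtain ⟨b15, e15⟩ := prdRG_15 b3 b5 e3 e5
  have ng' : Nat.ble 1 (n % 5 + (n % 7 + n % 13)) = true := by
    rw [Nat.ble_eq]
    by_contra h
    have h5 : 5 ∣ n := by omega
    have h7 : 7 ∣ n := by omega
    have h13 : 13 ∣ n := by omega
    apply ng
    have h1 : 35 ∣ n := by omega
    omega
  exact falseRG b7 b5 b17 b13 b3 b19 (topRG b7)
    e7 e5 e17 e13 e3 e19
    ng'
    (chkG_of hyp_7_17_5_0 dr_7_17_5_0 ctRG_7_17_5_0 hT (by norm_num) (by norm_num) (c7.mul_left c17) q5 b7 b17 e7 e17)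
    (chkG_of hyp_7_17_13_0 dr_7_17_13_0 ctRG_7_17_13_0 hT (by norm_num) (by norm_num) (c7.mul_left c17) q13 b7 b17 e7 e17)
    (chkG_of hyp_17_13_5_0 dr_17_13_5_0 ctRG_17_13_5_0 hT (by norm_num) (by norm_num) (c17.mul_left c13) q5 b17 b13 e17 e13)
    (chkG_of hyp_7_15_13_0 dr_7_15_13_0 ctRG_7_15_13_0 hT (by norm_num) (by norm_num) (c7.mul_left c15) q13 b7 b15 e7 e15)
    (chkG_of hyp_17_3_5_0 dr_17_3_5_0 ctRG_17_3_5_0 hT (by norm_num) (by norm_num) (c17.mul_left c3) q5 b17 b3 e17 e3)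
    (chkG_of hyp_5_19_13_0 dr_5_19_13_0 ctRG_5_19_13_0 hT (by norm_num) (by norm_num) (c5.mul_left c19) q13 b5 b19 e5 e19)
    (chkG_of hyp_7_19_13_0 dr_7_19_13_0 ctRG_7_19_13_0 hT (by norm_num) (by norm_num) (c7.mul_left c19) q13 b7 b19 e7 e19)
    (chkG_of hyp_13_19_7_0 dr_13_19_7_0 ctRG_13_19_7_0 hT (by norm_num) (by norm_num) (c13.mul_left c19) q7 b13 b19 e13 e19)
    (chkG_of hyp_13_19_7_1 dr_13_19_7_1 ctRG_13_19_7_1 hT (by norm_num) (by norm_num) (c13.mul_left c19) q7 b13 b19 e13 e19)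
    (chkG_of hyp_17_19_7_0 dr_17_19_7_0 ctRG_17_19_7_0 hT (by norm_num) (by norm_num) (c17.mul_left c19) q7 b17 b19 e17 e19)

end Pool.Agent.LibH4.KF
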