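import Pool.Agent.RDF.KG

/-! generated data -/

namespace Pool.Agent.LibH4.KF

open Ker T6

/-- representatives -/
def P5 : List (ℕ × ℕ) := [((nat_lit 1), (nat_lit 0)),((nat_lit 1), (nat_lit 1)),((nat_lit 1), (nat_lit 2)),((nat_lit 1), (nat_lit 3)),((nat_lit 1), (nat_lit 4)),((nat_lit 0), (nat_lit 1))]

lemma isP1_5 : IsP1 5 P5 := by
  have := isP1_prime_pow (p := 5) (k := 1) (by norm_num) (by norm_num)
  have e : p1List 5 (5 ^ 1) = P5 := by decide +kernel
  rw [e] at this
  exact this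

/-- representatives -/
def P31 : List (ℕ × ℕ) := [((nat_lit 1), (nat_lit 0)),((nat_lit 1), (nat_lit 1)),((nat_lit 1), (nat_lit 2)),((nat_lit 1), (nat_lit 3)),((nat_lit 1), (nat_lit 4)),((nat_lit 1), (nat_lit 5)),((nat_lit 1), (nat_lit 6)),((nat_lit 1), (nat_lit 7)),((nat_lit 1), (nat_lit 8)),((nat_lit 1), (nat_lit 9)),((nat_lit 1), (nat_lit 10)),((nat_lit 1), (nat_lit 11)),((nat_lit 1), (nat_lit 12)),((nat_lit 1), (nat_lit 13)),((nat_lit 1), (nat_lit 14)),((nat_lit 1), (nat_lit 15)),((nat_lit 1), (nat_lit 16)),((nat_lit 1), (nat_lit 17)),((nat_lit 1), (nat_lit 18)),((nat_lit 1), (nat_lit 19)),((nat_lit 1), (nat_lit 20)),((nat_lit 1), (nat_lit 21)),((nat_lit 1), (nat_lit 22)),((nat_lit 1), (nat_lit 23)),((nat_lit 1), (nat_lit 24)),((nat_lit 1), (nat_lit 25)),((nat_lit 1), (nat_lit 26)),((nat_lit 1), (nat_lit 27)),((nat_lit 1), (nat_lit 28)),((nat_lit 1), (nat_lit 29)),((nat_lit 1), (nat_lit 30)),((nat_lit 0), (nat_lit 1))]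

lemma isP1_31 : IsP1 31 P31 := by
  have := isP1_prime_pow (p := 31) (k := 1) (by norm_num) (by norm_num)
  have e : p1List 31 (31 ^ 1) = P31 := by decide +kernel
  rw [e] at this
  exact this

/-- representatives -/
def P37 : List (ℕ × ℕ) := [((nat_lit 1), (nat_lit 0)),((nat_lit 1), (nat_lit 1)),((nat_lit 1), (nat_lit 2)),((nat_lit 1), (nat_lit 3)),((nat_lit 1), (nat_lit 4)),((nat_lit 1), (nat_lit 5)),((nat_lit 1), (nat_lit 6)),((nat_lit 1), (nat_lit 7)),((nat_lit 1), (nat_lit 8)),((nat_lit 1), (nat_lit 9)),((nat_lit 1), (nat_lit 10)),((nat_lit 1), (nat_lit 11)),((nat_lit 1), (nat_lit 12)),((nat_lit 1), (nat_lit 13)),((nat_lit 1), (nat_lit 14)),((nat_lit 1), (nat_lit 15)),((nat_lit 1), (nat_lit 16)),((nat_lit 1), (nat_lit 17)),((nat_lit 1), (nat_lit 18)),((nat_lit 1), (nat_lit 19)),((nat_lit 1), (nat_lit 20)),((nat_lit 1), (nat_lit 21)),((nat_lit 1), (nat_lit 22)),((nat_lit 1), (nat_lit 23)),((nat_lit 1), (nat_lit 24)),((nat_lit 1), (nat_lit 25)),((nat_lit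 1), (nat_lit 26)),((nat_lit 1), (nat_lit 27)),((nat_lit 1), (nat_lit 28)),((nat_lit 1), (nat_lit 29)),((nat_lit 1), (nat_lit 30)),((nat_lit 1), (nat_lit 31)),((nat_lit 1), (nat_lit 32)),((nat_lit 1), (nat_lit 33)),((nat_lit 1), (nat_lit 34)),((nat_lit 1), (nat_lit 35)),((nat_lit 1), (nat_lit 36)),((nat_lit 0), (nat_lit 1))]

lemma isP1_37 : IsP1 37 P37 := by
  have := isP1_prime_pow (p := 37) (k := 1) (by norm_num) (by norm_num)
  have e : p1List 37 (37 ^ 1) = P37 := by decide +kernel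
  rw [e] at this
  exact this

/-- representatives -/
def P21 : List (ℕ × ℕ) := [((nat_lit 22), (nat_lit 0)),((nat_lit 22), (nat_lit 15)),((nat_lit 22), (nat_lit 30)),((nat_lit 22), (nat_lit 45)),((nat_lit 22), (nat_lit 60)),((nat_lit 22), (nat_lit 75)),((nat_lit 22), (nat_lit 90)),((nat_lit 7), (nat_lit 15)),((nat_lit 22), (nat_lit 7)),((nat_lit 22), (nat_lit 22)),((nat_lit 22), (nat_lit 37)),((nat_lit 22), (nat_lit 52)),((nat_lit 22), (nat_lit 67)),((nat_lit 22), (nat_lit 82)),((nat_lit 22), (nat_lit 97)),((nat_lit 7), (nat_lit 22)),((nat_lit 22), (nat_lit 14)),((nat_lit 22), (nat_lit 29)),((nat_lit 22), (nat_lit 44)),((nat_lit 22), (nat_lit 59)),((nat_lit 22), (nat_lit 74)),((nat_lit 22), (nat_lit 89)),((nat_lit 22), (nat_lit 104)),((nat_lit 7), (nat_lit 29)),((nat_lit 15), (nat_lit 7)),((nat_lit 15), (nat_lit 22)),((nat_lit 15), (nat_lit 37)),((nat_lit 15), (nat_lit 52)),((nat_lit 15), (nat_lit 67)),((nat_lit 15), (nat_lit 82)),((nat_lit 15), (nat_lit 97)),((nat_lit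 0), (nat_lit 22))]

lemma isP1_21 : IsP1 21 P21 := by
  have h3 := isP1_prime_pow (p := 3) (k := 1) (by norm_num) (by norm_num)
  have h5 := isP1_prime_pow (p := 7) (k := 1) (by norm_num) (by norm_num)
  have := isP1_mul (n1 := 3 ^ 1) (n2 := 7 ^ 1) (by norm_num) (e1 := 7) (e2 := 15) (by decide)
    (by decide) (by decide) (by decide) h3 h5
  have e : crtList 7 15 (p1List 3 (3 ^ 1)) (p1List 7 (7 ^ 1)) = P21 := by decide +kernel
  rw [e] at this
  exact this

/-- representatives -/
def P35 : List (ℕ × ℕ) := [((nat_lit 36), (nat_lit 0)),((nat_lit 36), (nat_lit 15)),((nat_lit 36), (nat_lit 30)),((nat_lit 36), (nat_lit 45)),((nat_lit 36), (nat_lit 60)),((nat_lit 36), (nat_lit 75)),((nat_lit 36), (nat_lit 90)),((nat_lit 21), (nat_lit 15)),((nat_lit 36), (nat_lit 21)),((nat_lit 36), (nat_lit 36)),((nat_lit 36), (nat_lit 51)),((nat_lit 36), (nat_lit 66)),((nat_lit 36), (nat_lit 81)),((nat_lit 36), (nat_lit 96)),((nat_lit 36), (nat_lit 111)),((nat_lit 21), (nat_lit 36)),((nat_lit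 36), (nat_lit 42)),((nat_lit 36), (nat_lit 57)),((nat_lit 36), (nat_lit 72)),((nat_lit 36), (nat_lit 87)),((nat_lit 36), (nat_lit 102)),((nat_lit 36), (nat_lit 117)),((nat_lit 36), (nat_lit 132)),((nat_lit 21), (nat_lit 57)),((nat_lit 36), (nat_lit 63)),((nat_lit 36), (nat_lit 78)),((nat_lit 36), (nat_lit 93)),((nat_lit 36), (nat_lit 108)),((nat_lit 36), (nat_lit 123)),((nat_lit 36), (nat_lit 138)),((nat_lit 36), (nat_lit 153)),((nat_lit 21), (nat_lit 78)),((nat_lit 36), (nat_lit 84)),((nat_lit 36), (nat_lit 99)),((nat_lit 36), (nat_lit 114)),((nat_lit 36), (nat_lit 129)),((nat_lit 36), (nat_lit 144)),((nat_lit 36), (nat_lit 159)),((nat_lit 36), (nat_lit 174)),((nat_lit 21), (nat_lit 99)),((nat_lit 15), (nat_lit 21)),((nat_lit 15), (nat_lit 36)),((nat_lit 15), (nat_lit 51)),((nat_lit 15), (nat_lit 66)),((nat_lit 15), (nat_lit 81)),((nat_lit 15), (nat_lit 96)),((nat_lit 15), (nat_lit 111)),((nat_lit 0), (nat_lit 36))]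

lemma isP1_35 : IsP1 35 P35 := by
  have h3 := isP1_prime_pow (p := 5) (k := 1) (by norm_num) (by norm_num)
  have h5 := isP1_prime_pow (p := 7) (k := 1) (by norm_num) (by norm_num)
  have := isP1_mul (n1 := 5 ^ 1) (n2 := 7 ^ 1) (by norm_num) (e1 := 21) (e2 := 15) (by decide)
    (by decide) (by decide) (by decide) h3 h5
  have e : crtList 21 15 (p1List 5 (5 ^ 1)) (p1List 7 (7 ^ 1)) = P35 := by decide +kernel
  rw [e] at this
  exact this

/-- product of two lists of classes -/
def prodL (N e1 e2 : ℕ) (C D : List (ℕ × ℕ)) : List (ℕ × ℕ) :=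
  C.flatMap fun c => D.map fun d => ((c.1 * e1 + d.1 * e2) % N, (c.2 * e1 + d.2 * e2) % N)

lemma prodL_get (N e1 e2 : ℕ) (C D : List (ℕ × ℕ)) : ∀ {i j : ℕ} (hi : i < C.length)
    (hj : j < D.length), ∃ h : i * D.length + j < (prodL N e1 e2 C D).length,
    (prodL N e1 e2 C D)[i * D.length + j] = ((C[i].1 * e1 + D[j].1 * e2) % N,
      (C[i].2 * e1 + D[j].2 * e2) % N) := by
  induction C with
  | nil => intro i j hi; simp at hi
  | cons c C ih =>
    intro i j hi hj
    have e : prodL N e1 e2 (c :: C) D =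
        (D.map fun d => ((c.1 * e1 + d.1 * e2) % N, (c.2 * e1 + d.2 * e2) % N)) ++
          prodL N e1 e2 C D := by
      unfold prodL
      rw [List.flatMap_cons]
    cases i with
    | zero =>
      have h : 0 * D.length + j < (prodL N e1 e2 (c :: C) D).length := by
        rw [e, List.length_append, List.length_map]
        omega
      refine ⟨h, ?_⟩
      have h2 : (prodL N e1 e2 (c :: C) D)[0 * D.length + j] =
          ((D.map fun d => ((c.1 * e1 + d.1 * e2) % N, (c.2 * e1 + d.2 * e2) % N)) ++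
          prodL N e1 e2 C D)[j]'(by rw [List.length_append, List.length_map]; omega) := by
        simp only [e, zero_mul, zero_add]
      rw [h2, List.getElem_append_left (by rw [List.length_map]; exact hj), List.getElem_map]
      rfl
    | succ i =>
      have hi' : i < C.length := by simpa using hi
      obtain ⟨h3, h4⟩ := ih hi' hj
      have ea : (i + 1) * D.length + j = D.length + (i * D.length + j) := by ring
      have h : (i + 1) * D.length + j < (prodL N e1 e2 (c :: C) D).length := by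
        rw [e, List.length_append, List.length_map, ea]
        omega
      refine ⟨h, ?_⟩
      have h2 : (prodL N e1 e2 (c :: C) D)[(i + 1) * D.length + j] =
          ((D.map fun d => ((c.1 * e1 + d.1 * e2) % N, (c.2 * e1 + d.2 * e2) % N)) ++
          prodL N e1 e2 C D)[D.length + (i * D.length + j)]'(by
            rw [List.length_append, List.length_map]; omega) := by
        simp only [e, ea]
      rw [h2, List.getElem_append_right (by rw [List.length_map]; omega)]
      simp only [List.length_map, Nat.add_sub_cancel_left, List.getElem_cons_succ]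
      exact h4

end Pool.Agent.LibH4.KF
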