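import Pool.Agent.RDF.KP

/-! generated data -/

namespace Pool.Agent.LibH4.KF

open Ker T6

/-- weights -/
def DR_17_3_5_0 : List ((ℕ × ℕ) × ℕ) := [((nat_lit 1, nat_lit 0), nat_lit 191561942608236787859527457957620969134362251333992448),
  ((nat_lit 1, nat_lit 1), nat_lit 191564865633812194874279002957729297859542946215493633),
  ((nat_lit 1, nat_lit 2), nat_lit 191564865611511449675748221359868551058219397621612546),
  ((nat_lit 1, nat_lit 3), nat_lit 191566327113148780583858801131398627680851217136943105),
  ((nat_lit 1, nat_lit 4), nat_lit 191564865678413685271340328468963248668895787794694146),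
  ((nat_lit 1, nat_lit 5), nat_lit 191566327180051016179450908240493325291246132333314051),
  ((nat_lit 1, nat_lit 6), nat_lit 191566327202351761377981531382029043564175968816005120),
  ((nat_lit 1, nat_lit 7), nat_lit 191566327157750270980920047414470064226429415125614594),
  ((nat_lit 1, nat_lit 8), nat_lit 191564865678413685271340249240800734403995244297322496),
  ((nat_lit 1, nat_lit 9), nat_lit 191564865656112940072809467642939987603516120633573376),
  ((nat_lit 1, nat_lit 10), nat_lit 191566327180051016179450670556005782499077776631595011),
  ((nat_lit 1, nat_lit 11), nat_lit 191566327135449525782389582729259374481611815777402880),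
  ((nat_lit 1, nat_lit 12), nat_lit 191566327157750270980920285098957607018597770827333634),
  ((nat_lit 1, nat_lit 13), nat_lit 191564865656112940072809705327427530396247426288713731),
  ((nat_lit 1, nat_lit 14), nat_lit 191566327113148780583858880359561141945470285657604100),
  ((nat_lit 1, nat_lit 15), nat_lit 191564865611511449675748379816193579586050159779381251),
  ((nat_lit 1, nat_lit 16), nat_lit 191564865700714430469870872382336452677488030733434884),
  ((nat_lit 0, nat_lit 1), nat_lit 2923003274661816221238771222667510164182528032768)]

theorem dr_17_3_5_0 : DR_17_3_5_0 = DRstd 17 3 5 18 34 23207668197802189840 1040 P17 P3 :=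
  drCheck_spec (by decide +kernel : drCheck (nat_lit 17) (nat_lit 3) (nat_lit 51) (nat_lit 5)
    (nat_lit 18) (nat_lit 34) (nat_lit 23207668197802189840) (nat_lit 1040) P17 P3 DR_17_3_5_0 = true)

lemma hyp_17_3_5_0 : Hyp 17 3 5 18 34 23207668197802189840 1040 P17 P3 :=
  mkHyp (by norm_num) (by norm_num) (by norm_num) (by norm_num) (by norm_num)
    (by decide +kernel : tabCheck (nat_lit 17) (nat_lit 5) (nat_lit 23207668197802189840) = true)
    (by decide +kernel : tabCheck (nat_lit 3) (nat_lit 5) (nat_lit 1040) = true)
    (by decide +kernel : obCheck (nat_lit 17) (nat_lit 3) (nat_lit 51) (nat_lit 5) (nat_lit 23207668197802189840) (nat_lit 1040) = true)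
    isP1_17 isP1_3 (by decide) (by decide) (by norm_num) (by norm_num) (by norm_num)

end Pool.Agent.LibH4.KF
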