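import Pool.Agent.RDF.KP

/-! generated data -/

namespace Pool.Agent.LibH4.KF

open Ker T6

/-- weights -/
def DR_7_19_13_0 : List ((ℕ × ℕ) × ℕ) := [((nat_lit 1, nat_lit 0), nat_lit 2113178125157684271541869861222193439808982059528844416796279488270190119613093094183655331590743683151571043969920449193555149949067256033331899362282793143911501065562174030695101328869401491619848231262754508761530075991871229150773201974198797150855867737584498114560),
  ((nat_lit 1, nat_lit 1), nat_lit 9076100182267339273498457663050076511222384176180003485884327265081698649441731587420889862744471977013764994653089533819235306188461865201524595402851474883995273331570899719076917802731624227043457788960367680689200375650774907958303578892375267450533733649419647659078519357442),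
  ((nat_lit 1, nat_lit 2), nat_lit 27228473654127624102507866065559870775202156549044114788142045908158999935727343481928006531235027935825606836220470594730837413045172403676453013916785516716070185874732130044038713228154565509699830710583206230899690459898324913936940485747216027738588986373048694730312246099977),
  ((nat_lit 1, nat_lit 3), nat_lit 22690423564050543529198501460240030812569610928547986662339435446991218374053514753831429676558684998699113453009079569938046276207310190423576272328492279987383816624569596684736901050906186472497077264171485000133916785968069242432682567610176159464755641316512963856133997461509),
  ((nat_lit 1, nat_lit 4), nat_lit 22690181207877795979757387897320201354361283142112404723523382442456912672624260122595379930435883678303271075663812002057996685502968936388928823905444951498318476580044197669201866265433829109722369947915228292580571001267244979420240329855227007935129119677647889863372192088072),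
  ((nat_lit 1, nat_lit 5), nat_lit 27228162053334091540504617321714253655545464288078445995531008856568926924051627341501238572625875916870494790989457188653075235052754333222912129183776542553763782965565032087285596218175964384367373367620695300633606535001907178213032966874113350527056951283703582018666049306628),
  ((nat_lit 1, nat_lit 6), nat_lit 9076411783060871835501706406895696252849039676424240442709163221181281705236670634533104551966287343764011001530831152160594241441660378882775057806485192974549001913864985055984981982132329796755477431674379892279268797554956937766321901238854106191741504277957314975889593729035),
  ((nat_lit 0, nat_lit 1), nat_lit 9076030935533376134302600341904785796722638509247379283648000292930375690123695183167516500457427361248800186485767859780487363252425076375233232786179140477936363808421457623596491033130044988324859724188866865946452007232168664482322407957263526212863878224380802209625537511424)]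

theorem dr_7_19_13_0 : DR_7_19_13_0 = DRstd 7 19 13 57 77 212419344 7548839422382730090768 P7 P19 :=
  drCheck_spec (by decide +kernel : drCheck (nat_lit 7) (nat_lit 19) (nat_lit 133) (nat_lit 13)
    (nat_lit 57) (nat_lit 77) (nat_lit 212419344) (nat_lit 7548839422382730090768) P7 P19 DR_7_19_13_0 = true)

lemma hyp_7_19_13_0 : Hyp 7 19 13 57 77 212419344 7548839422382730090768 P7 P19 :=
  mkHyp (by norm_num) (by norm_num) (by norm_num) (by norm_num) (by norm_num)
    (by decide +kernel : tabCheck (nat_lit 7) (nat_lit 13) (nat_lit 212419344) = true)
    (by decide +kernel : tabCheck (nat_lit 19) (nat_lit 13) (nat_lit 7548839422382730090768) = true)
    (by decide +kernel : obCheck (nat_lit 7) (nat_lit 19) (nat_lit 133) (nat_lit 13) (nat_lit 212419344) (nat_lit 7548839422382730090768) = true)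
    isP1_7 isP1_19 (by decide) (by decide) (by norm_num) (by norm_num) (by norm_num)

end Pool.Agent.LibH4.KF
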