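import Pool.Agent.RDF.KR_17_3_5_0
import Pool.Agent.RDF.KD_G

/-! generated data -/

namespace Pool.Agent.LibH4.KF

open Ker T6 Pool.Agent.RDF

/-- table -/
def TBRG_17_3_5_0 : ℕ := nat_lit 1701440909692051338851096415187204324295748191362131831561513910037036417721027925970998844694470891192718017475070840091285956089468948283217621618721527191566420833570073424470920573011375039446264338192545430261670956074870139537201540153059667612595749494925322267732785056171841644276596640946617636674258318055678674727281274039953973201694529174748666503414789414706092453955033637703821578970761903595305672345276470870106588908813407978577392072957079529305705960619007225606523390666530726808375540505045513083231416985640252430139953625626678280093705247698680692535617560381645414872222191473615345635133305254344685922839596991322761634227886590996980847540913857343909060629403592025825687283093237344618878519554126829409218438721332007570693760678312248646938932996224426572620898127258994272103358929587875095563564158874951025954005611818986452706015618139777950521978359830186299284513157260487471397444883267536138353528688973299045225848845522040526391184942772675456400735518654378602303099207945653218394061234579297795832854093438287198910796435302034466727329660461862479168636946259984982019302468376528915553240539621127139769142214137030789495109882421743198324138842444875936397052490484053831739866932774187249801984453397850247376429407939357348690653594630069794116570847867122319811263545302634681264403325622537917258860071141716934154846596468911124747630744611672823413839047373532793587929813623790033221515793126603232261589811855360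

theorem ctRG_17_3_5_0 : checkR (nat_lit 36) (nat_lit 17) (nat_lit 3) (nat_lit 5) (nat_lit 23207668197802189840) (nat_lit 1040)
    DR_17_3_5_0 formsG P3 CRG_17 CRG_3 TBRG_17_3_5_0 = true := by
  decide +kernel

end Pool.Agent.LibH4.KF
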