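import Pool.Agent.RDF.KR_7_15_13_0
import Pool.Agent.RDF.KD_G

/-! generated data -/

namespace Pool.Agent.LibH4.KF

open Ker T6 Pool.Agent.RDF

/-- table -/
def TBRG_7_15_13_0 : ℕ := nat_lit 4633129279061148073079824344163991366451617803271013985952686819303724932413144886050272707170847574746964317729830721358047986006115579950940921837121188112472203525114596722399636233812463794817270738003137642276541709112928126099186974656311751707680754635272630165475403192044378619417333107477462869586295238669862558794562446166219838078551083239633463470740011569624162193896239905513351761255715929925722116578337813676146498942668026946130533513637240888050727565230117161166688413819986631334533611351780595620373688753677320655636955231256455541528485161995947439852914486841432360483080223391750456820516384098003771646257306929190176670210218312553011497421742538284643464267800090343852597585754439957635478243666528683490347851543987700333651345405271446788297783629315509898002891111107436774431870951445958998881346569620254856673790617600262214852466447780000897739321118276125992913940462337129330824480293432077109178721458003509121763984959352968406761760841054692125250644723642620648119485761508260558139909019773237584351240257201523810237158243500307164694886282777363881015530790982049048640613097009627279237246223636161095964129345843623730207244808907945673059835102576324290796203843908905434088372246527650633862425476358139194750286596922723052958329458359800865086944141400074684888945063916615687433338501638194199855642938736211439918514309246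175906920125354878242901595824926520571775611190288427773437601191201562033194215631990208761782970133007381963884565430840197071505952457783847952857535849588033884470421515285574522291628490721271838710565799896026580479114310157216374930096532856022234051266240558193639227341738348203916225409629080841039239381103157186316038292485783231907045158489630398914410765604867828462415012668101575935371291355499249656408510989048686413774951823512971795643963906177916747924217590701500310560631536424025516375987731073410081705869934190079077651309507284621138668789027842488134659941179275077183069223864662467678326579184286077472121434926092938641578447564271887519983654531591962632081553449207984832535703349841418052657115829039873583812326023995263380818034577155573382505276245841265102090778460750872583852469780939843106120984663543012406201887205012528146763103802230517750678370412868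

theorem ctRG_7_15_13_0 : checkR (nat_lit 360) (nat_lit 7) (nat_lit 15) (nat_lit 13) (nat_lit 212419344) (nat_lit 108297520107227152)
    DR_7_15_13_0 formsG P15 CRG_7 CRG_15 TBRG_7_15_13_0 = true := by
  decide +kernel

end Pool.Agent.LibH4.KF
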