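import Pool.Agent.RDF.KT_G_7_17_5_0
import Pool.Agent.RDF.KT_G_7_17_13_0
import Pool.Agent.RDF.KT_G_17_13_5_0
import Pool.Agent.RDF.KT_G_7_15_13_0
import Pool.Agent.RDF.KT_G_17_3_5_0
import Pool.Agent.RDF.KT_G_5_19_13_0
import Pool.Agent.RDF.KT_G_7_19_13_0
import Pool.Agent.RDF.KT_G_13_19_7_0
import Pool.Agent.RDF.KT_G_13_19_7_1
import Pool.Agent.RDF.KT_G_17_19_7_0

/-! generated data -/

namespace Pool.Agent.LibH4.KF

open Ker T6 Pool.Agent.RDF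

/-- stage -/
def stRG_5 (a13 a7 r_13_19_7_0 r_13_19_7_1 r_17_19_7_0 r_5_19_13_0 r_7_19_13_0 t13 t7 : ℕ) : Bool :=
  allI (fun i19 c19 =>
    imp (chkG (nat_lit 13) (dg (nat_lit 12) r_5_19_13_0 i19) a13 t13) <|
    imp (chkG (nat_lit 13) (dg (nat_lit 12) r_7_19_13_0 i19) a13 t13) <|
    imp (chkG (nat_lit 7) (dg (nat_lit 12) r_13_19_7_0 i19) a7 t7) <|
    imp (chkG (nat_lit 7) (dg (nat_lit 12) r_13_19_7_1 i19) a7 t7) <|
    imp (chkG (nat_lit 7) (dg (nat_lit 12) r_17_19_7_0 i19) a7 t7) <|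
    false) CRG_19 (nat_lit 0)

/-- stage -/
def stRG_4 (a13 a5 a7 i5 r_13_19_7_0 r_13_19_7_1 r_17_19_7_0 r_17_3_5_0 r_5_19_13_0 r_7_15_13_0 r_7_19_13_0 t13 t5 t7 : ℕ) : Bool :=
  allI (fun i3 c3 =>
    imp (chkG (nat_lit 13) (dg (nat_lit 12) r_7_15_13_0 (Nat.add (Nat.mul i3 (nat_lit 10)) i5)) a13 t13) <|
    imp (chkG (nat_lit 5) (dg (nat_lit 12) r_17_3_5_0 i3) a5 t5) <|
    stRG_5 a13 a7 r_13_19_7_0 r_13_19_7_1 r_17_19_7_0 r_5_19_13_0 r_7_19_13_0 t13 t7) CRG_3 (nat_lit 0)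

/-- stage -/
def stRG_3 (a5 a7 e_7_17_13_0 i5 r_17_13_5_0 r_17_19_7_0 r_17_3_5_0 r_5_19_13_0 r_7_15_13_0 r_7_19_13_0 t5 t7 : ℕ) : Bool :=
  allI (fun i13 c13 =>
    imp (Nat.ble (nat_lit 1) (Nat.add t5 (Nat.add t7 c13.2))) <|
    imp (chkG (nat_lit 13) e_7_17_13_0 c13.1 c13.2) <|
    imp (chkG (nat_lit 5) (dg (nat_lit 12) r_17_13_5_0 i13) a5 t5) <|
    strict (dg (nat_lit 2052) TBRG_13_19_7_0 i13) fun r_13_19_7_0 =>
    strict (dg (nat_lit 2052) TBRG_13_19_7_1 i13) fun r_13_19_7_1 =>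
    stRG_4 c13.1 a5 a7 i5 r_13_19_7_0 r_13_19_7_1 r_17_19_7_0 r_17_3_5_0 r_5_19_13_0 r_7_15_13_0 r_7_19_13_0 c13.2 t5 t7) CRG_13 (nat_lit 0)

/-- stage -/
def stRG_2 (a5 a7 i5 r_5_19_13_0 r_7_15_13_0 r_7_17_13_0 r_7_17_5_0 r_7_19_13_0 t5 t7 : ℕ) : Bool :=
  allI (fun i17 c17 =>
    imp (chkG (nat_lit 5) (dg (nat_lit 12) r_7_17_5_0 i17) a5 t5) <|
    strict (dg (nat_lit 12) r_7_17_13_0 i17) fun e_7_17_13_0 =>
    strict (dg (nat_lit 936) TBRG_17_13_5_0 i17) fun r_17_13_5_0 =>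
    strict (dg (nat_lit 36) TBRG_17_3_5_0 i17) fun r_17_3_5_0 =>
    strict (dg (nat_lit 2052) TBRG_17_19_7_0 i17) fun r_17_19_7_0 =>
    stRG_3 a5 a7 e_7_17_13_0 i5 r_17_13_5_0 r_17_19_7_0 r_17_3_5_0 r_5_19_13_0 r_7_15_13_0 r_7_19_13_0 t5 t7) CRG_17 (nat_lit 0)

/-- stage -/
def stRG_1 (a7 r_7_15_13_0 r_7_17_13_0 r_7_17_5_0 r_7_19_13_0 t7 : ℕ) : Bool :=
  allI (fun i5 c5 =>
    strict (dg (nat_lit 2052) TBRG_5_19_13_0 i5) fun r_5_19_13_0 =>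
    stRG_2 c5.1 a7 i5 r_5_19_13_0 r_7_15_13_0 r_7_17_13_0 r_7_17_5_0 r_7_19_13_0 c5.2 t7) CRG_5 (nat_lit 0)

/-- stage -/
def bdRG (i7 : ℕ) (c7 : ℕ × ℕ) : Bool :=
    strict (dg (nat_lit 1632) TBRG_7_17_5_0 i7) fun r_7_17_5_0 =>
    strict (dg (nat_lit 1632) TBRG_7_17_13_0 i7) fun r_7_17_13_0 =>
    strict (dg (nat_lit 360) TBRG_7_15_13_0 i7) fun r_7_15_13_0 =>
    strict (dg (nat_lit 2052) TBRG_7_19_13_0 i7) fun r_7_19_13_0 =>
    stRG_1 c7.1 r_7_15_13_0 r_7_17_13_0 r_7_17_5_0 r_7_19_13_0 c7.2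

theorem falseRG {a t : ℕ} {i7 i5 i17 i13 i3 i19 : ℕ}
    (b7 : i7 < CRG_7.length)
    (b5 : i5 < CRG_5.length)
    (b17 : i17 < CRG_17.length)
    (b13 : i13 < CRG_13.length)
    (b3 : i3 < CRG_3.length)
    (b19 : i19 < CRG_19.length)
    (top : bdRG i7 CRG_7[i7] = true)
    (h7 : CRG_7[i7] = (a % 7, t % 7))
    (h5 : CRG_5[i5] = (a % 5, t % 5))
    (h17 : CRG_17[i17] = (a % 17, t % 17))
    (h13 : CRG_13[i13] = (a % 13, t % 13))
    (h3 : CRG_3[i3] = (a % 3, t % 3))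
    (h19 : CRG_19[i19] = (a % 19, t % 19))
    (ng : Nat.ble 1 (t % 5 + (t % 7 + t % 13)) = true)
    (r_7_17_5_0 : chkG 5 (dg 12 (dg 1632 TBRG_7_17_5_0 i7) i17) (a % 5) (t % 5) = true)
    (r_7_17_13_0 : chkG 13 (dg 12 (dg 1632 TBRG_7_17_13_0 i7) i17) (a % 13) (t % 13) = true)
    (r_17_13_5_0 : chkG 5 (dg 12 (dg 936 TBRG_17_13_5_0 i17) i13) (a % 5) (t % 5) = true)
    (r_7_15_13_0 : chkG 13 (dg 12 (dg 360 TBRG_7_15_13_0 i7) (i3 * 10 + i5)) (a % 13) (t % 13) = true)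
    (r_17_3_5_0 : chkG 5 (dg 12 (dg 36 TBRG_17_3_5_0 i17) i3) (a % 5) (t % 5) = true)
    (r_5_19_13_0 : chkG 13 (dg 12 (dg 2052 TBRG_5_19_13_0 i5) i19) (a % 13) (t % 13) = true)
    (r_7_19_13_0 : chkG 13 (dg 12 (dg 2052 TBRG_7_19_13_0 i7) i19) (a % 13) (t % 13) = true)
    (r_13_19_7_0 : chkG 7 (dg 12 (dg 2052 TBRG_13_19_7_0 i13) i19) (a % 7) (t % 7) = true)
    (r_13_19_7_1 : chkG 7 (dg 12 (dg 2052 TBRG_13_19_7_1 i13) i19) (a % 7) (t % 7) = true)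
    (r_17_19_7_0 : chkG 7 (dg 12 (dg 2052 TBRG_17_19_7_0 i17) i19) (a % 7) (t % 7) = true)
    : False := by
  try rw [h7] at top
  unfold bdRG at top
  simp only [strict_eq] at top
  unfold stRG_1 at top
  replace top := allI_get top b5
  try rw [h5] at top
  simp only [strict_eq] at top
  unfold stRG_2 at top
  replace top := allI_get top b17
  try rw [h17] at top
  simp only [strict_eq] at top
  replace top := imp_spec top r_7_17_5_0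
  unfold stRG_3 at top
  replace top := allI_get top b13
  try rw [h13] at top
  simp only [strict_eq] at top
  replace top := imp_spec top ng
  replace top := imp_spec top r_7_17_13_0
  replace top := imp_spec top r_17_13_5_0
  unfold stRG_4 at top
  replace top := allI_get top b3
  try rw [h3] at top
  replace top := imp_spec top r_7_15_13_0
  replace top := imp_spec top r_17_3_5_0
  unfold stRG_5 at top
  replace top := allI_get top b19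
  try rw [h19] at top
  replace top := imp_spec top r_5_19_13_0
  replace top := imp_spec top r_7_19_13_0
  replace top := imp_spec top r_13_19_7_0
  replace top := imp_spec top r_13_19_7_1
  replace top := imp_spec top r_17_19_7_0
  exact Bool.false_ne_true top

end Pool.Agent.LibH4.KF
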