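import Pool.Agent.RDF.MainOdd
import Pool.Agent.Lib_helper5.RDF.EvenPart

/-!
The class number one problem for the real quadratic fields `ℚ(√d)`, `d = m² + r`, `r ∣ 4m`.
-/

namespace Pool.Agent.RDF

open Pool.Agent.LibH4 Pool.Agent.LibH4.FA Pool.Agent.Lib_helper5
open scoped NumberField

/-- the forty-three discriminants -/
def list43 : List ℕ := [2, 3, 5, 6, 7, 11, 13, 14, 17, 21, 23, 29, 33, 37, 38, 47, 53, 62, 69, 77,
  83, 93, 101, 141, 167, 173, 197, 213, 227, 237, 293, 398, 413, 437, 453, 573, 677, 717, 1077,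
  1133, 1253, 1293, 1757]

/-- the forward direction for `d ≡ 1` modulo four -/
theorem odd_part (d m : ℕ) (r : ℤ) (hm : 1 ≤ m) (hr : r ∣ 4 * m)
    (hd : (d : ℤ) = (m : ℤ) ^ 2 + r) (hsq : Squarefree d) (h1 : 1 < d) (h4 : d % 4 = 1)
    (hU : UniqueFactorizationMonoid (𝓞 (KQ d))) :
    d ∈ ([5, 13, 21, 29, 53, 69, 77, 93, 173, 213, 237, 293, 413, 437, 453, 717, 1077, 1133, 1253]
      : List ℕ) ∨ d ∈ ([5, 17, 37, 101, 197, 677] : List ℕ) ∨
      d ∈ ([33, 141, 573, 1293, 1757] : List ℕ) := by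
  have hr0 : r ≠ 0 := by
    rintro rfl
    rw [zero_dvd_iff] at hr
    omega
  rcases Nat.even_or_odd' m with ⟨n, hn | hn⟩
  · -- `m` even
    have hr4 : r % 4 = 1 := by
      have e : (m : ℤ) ^ 2 = 4 * (n : ℤ) ^ 2 := by rw [hn]; push_cast; ring
      rw [e] at hd
      omega
    -- `r ∣ n`
    have hrn : r ∣ (n : ℤ) := by
      have hc : IsCoprime r 8 := by
        rw [Int.isCoprime_iff_gcd_eq_one]
        have h2 : r.natAbs % 2 = 1 := by omega
        have : Nat.Coprime r.natAbs (2 ^ 3) :=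
          Nat.Coprime.pow_right 3 (Nat.coprime_two_right.2 (Nat.odd_iff.2 h2))
        rw [Int.gcd]
        exact this
      apply hc.dvd_of_dvd_mul_left
      have e : (8 : ℤ) * n = 4 * m := by rw [hn]; push_cast; ring
      rw [e]
      exact hr
    have hrn' : r.natAbs ∣ n := by
      have := Int.natAbs_dvd_natAbs.2 hrn
      simpa using this
    obtain ⟨k, hk⟩ := hrn'
    have hk1 : 1 ≤ k := by
      rcases Nat.eq_zero_or_pos k with h | h
      · rw [h] at hk; omega
      · exact h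
    have ha1 : 1 ≤ r.natAbs := by omega
    rcases lt_or_gt_of_ne hr0 with hneg | hpos
    · -- `r = - a`
      right; right
      obtain ⟨A, hA⟩ : ∃ A, r.natAbs = 4 * A - 1 := ⟨(r.natAbs + 1) / 4, by omega⟩
      have hA1 : 1 ≤ A := by omega
      have hra : r = - FE.aa A := by
        have := FE.cast_aa hA1
        rw [← hA] at this
        rw [← this]
        omega
      apply FE.mem hA1 hk1 _ hsq hU
      rw [hd, hn, hk]
      push_cast
      have e : |r| = FE.aa A := by
        rw [hra, abs_neg, abs_of_nonneg (by have := FE.aa_pos hA1; linarith)]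
      rw [e, hra]
      ring
    · have hra : ((r.natAbs : ℕ) : ℤ) = r := by omega
      have hd2 : (d : ℤ) = 4 * ((r.natAbs : ℤ)) ^ 2 * (k : ℤ) ^ 2 + (r.natAbs : ℤ) := by
        rw [hd, hn, hk]
        push_cast [hra]
        ring
      have hd3 : d = 4 * r.natAbs ^ 2 * k ^ 2 + r.natAbs := by exact_mod_cast hd2
      rcases Nat.lt_or_ge 1 r.natAbs with h | h
      · exfalso
        refine genus_out (a := r.natAbs) (K := k) h (by omega) hk1 ?_ hsq hU
        rw [hd3]; ring
      · right; left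
        have ha : r.natAbs = 1 := by omega
        rw [ha] at hd3
        exact mem_plus_one hk1 (by rw [hd3]; ring) hsq hU
  · -- `m` odd
    left
    have hr4 : (4 : ℤ) ∣ r := by
      have e : (m : ℤ) ^ 2 = 4 * ((n : ℤ) ^ 2 + n) + 1 := by rw [hn]; push_cast; ring
      rw [e] at hd
      omega
    obtain ⟨s, hs⟩ := hr4
    have hsm : s.natAbs ∣ m := by
      have h2 : s ∣ (m : ℤ) := by
        rw [hs] at hr
        exact (mul_dvd_mul_iff_left (by norm_num : (4 : ℤ) ≠ 0)).1 hr
      have := Int.natAbs_dvd_natAbs.2 h2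
      simpa using this
    have hd' : d = m ^ 2 + 4 * s.natAbs ∨ d + 4 * s.natAbs = m ^ 2 := by
      rcases le_or_gt 0 s with h | h
      · left
        have e : ((s.natAbs : ℕ) : ℤ) = s := by omega
        have : (d : ℤ) = ((m ^ 2 + 4 * s.natAbs : ℕ) : ℤ) := by
          rw [hd, hs]
          push_cast
          rw [abs_of_nonneg h]
        exact_mod_cast this
      · right
        have e : ((s.natAbs : ℕ) : ℤ) = -s := by omega
        have : ((d + 4 * s.natAbs : ℕ) : ℤ) = ((m ^ 2 : ℕ) : ℤ) := by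
          push_cast
          rw [hd, hs, abs_of_neg h]
          ring
        exact_mod_cast this
    exact (rdFinal d m s.natAbs (by omega) hsm hd' hsq h1).1 hU

lemma sub1 : ∀ d ∈ ([5, 13, 21, 29, 53, 69, 77, 93, 173, 213, 237, 293, 413, 437, 453, 717, 1077,
    1133, 1253] : List ℕ), d ∈ list43 := by decide +kernel

lemma sub2 : ∀ d ∈ ([5, 17, 37, 101, 197, 677] : List ℕ), d ∈ list43 := by decide +kernel

lemma sub3 : ∀ d ∈ ([33, 141, 573, 1293, 1757] : List ℕ), d ∈ list43 := by decide +kernel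

lemma sub4 : ∀ d ∈ ([2, 3, 6, 7, 11, 14, 23, 38, 47, 62, 83, 167, 227, 398] : List ℕ),
    d ∈ list43 := by decide +kernel

lemma sub5 : ∀ d ∈ list43, d ∈ ([2, 3, 6, 7, 11, 14, 23, 38, 47, 62, 83, 167, 227, 398, 5, 13, 17,
    21, 29, 33, 37, 53, 69, 77, 93, 101, 141, 173, 197, 213, 237, 293, 413, 437, 453, 573, 677, 717,
    1077, 1133, 1253, 1293, 1757] : List ℕ) := by decide +kernel

/-- **the list for all types** -/
theorem rd_iff (d m : ℕ) (r : ℤ) (hm : 1 ≤ m) (hr : r ∣ 4 * m)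
    (hd : (d : ℤ) = (m : ℤ) ^ 2 + r) (hsq : Squarefree d) (h1 : 1 < d) :
    UniqueFactorizationMonoid (𝓞 (KQ d)) ↔ d ∈ list43 := by
  constructor
  · intro hU
    by_cases h4 : d % 4 = 1
    · rcases odd_part d m r hm hr hd hsq h1 h4 hU with h | h | h
      · exact sub1 d h
      · exact sub2 d h
      · exact sub3 d h
    · exact sub4 d
        (Lib_helper5.RDF.even_part stmtElimPlus stmtElimMinus d m r hm hr hd hsq h4 hU)
  · intro h
    exact Lib_helper5.RDF.ufd_all hsq (sub5 d h)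

/-- the search for `m`, `r` and squarefreeness -/
def okM (d : ℕ) : Bool :=
  (List.range 50).any fun m => decide (1 ≤ m) && decide (((d : ℤ) - (m : ℤ) ^ 2) ∣ 4 * m)

lemma okM_all : ∀ d ∈ list43, okM d = true := by decide +kernel

lemma exists_mr {d : ℕ} (hd : d ∈ list43) :
    ∃ m r : ℤ, 0 < m ∧ r ∣ 4 * m ∧ (d : ℤ) = m ^ 2 + r := by
  have h := okM_all d hd
  unfold okM at h
  rw [List.any_eq_true] at h
  obtain ⟨m, _, hm⟩ := h
  rw [Bool.and_eq_true, decide_eq_true_eq, decide_eq_true_eq] at hm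
  exact ⟨m, (d : ℤ) - (m : ℤ) ^ 2, by exact_mod_cast hm.1, hm.2, by ring⟩

/-- no square divides -/
def okSq (d : ℕ) : Bool :=
  decide (0 < d) && (List.range 50).all fun x => decide (x < 2) || decide (¬ x * x ∣ d)

lemma sqf_of {d : ℕ} (hd : d < 2401) (h : okSq d = true) : Squarefree d := by
  unfold okSq at h
  rw [Bool.and_eq_true, decide_eq_true_eq, List.all_eq_true] at h
  intro x hx
  rw [Nat.isUnit_iff]
  by_contra hne
  have hx1 : x ≠ 0 := by
    rintro rfl
    simp only [mul_zero, zero_dvd_iff] at hx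
    omega
  have hle : x * x ≤ d := Nat.le_of_dvd h.1 hx
  have hx50 : x < 50 := by nlinarith
  have := h.2 x (List.mem_range.2 hx50)
  rw [Bool.or_eq_true, decide_eq_true_eq, decide_eq_true_eq] at this
  rcases this with h3 | h3
  · omega
  · exact h3 hx

lemma gt_one : ∀ d ∈ list43, 1 < d := by decide +kernel

lemma okSq_all : ∀ d ∈ list43, d < 2401 ∧ okSq d = true := by decide +kernel

lemma sqf_all : ∀ d ∈ list43, Squarefree d := fun d hd =>
  sqf_of (okSq_all d hd).1 (okSq_all d hd).2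

/-- **the complete list** -/
theorem rd_all : {d : ℕ | 1 < d ∧ Squarefree d ∧
      (∃ m r : ℤ, 0 < m ∧ r ∣ 4 * m ∧ (d : ℤ) = m ^ 2 + r) ∧
      UniqueFactorizationMonoid (𝓞 (KQ d))} = {d | d ∈ list43} := by
  ext d
  rw [Set.mem_ofPred_eq, Set.mem_ofPred_eq]
  constructor
  · rintro ⟨h1, hsq, ⟨m, r, hm, hr, hd⟩, hU⟩
    lift m to ℕ using hm.le
    exact (rd_iff d m r (by exact_mod_cast hm) hr hd hsq h1).1 hU
  · intro h
    have hsq := sqf_all d h
    obtain ⟨m, r, hm, hr, hd⟩ := exists_mr h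
    have h1 : 1 < d := gt_one d h
    refine ⟨h1, hsq, ⟨m, r, hm, hr, hd⟩, ?_⟩
    lift m to ℕ using hm.le
    exact (rd_iff d m r (by exact_mod_cast hm) hr hd hsq h1).2 h

end Pool.Agent.RDF
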