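import Pool.Agent.RDF.OddPart
import Pool.Agent.RDF.KFin
import Pool.Agent.Lib_helper5.RDMain
import Pool.Agent.Lib_helper4.PeriodThreeMain

/-!
Discriminants congruent to one modulo four: the forward direction.
-/

namespace Pool.Agent.RDF

open Finset (range)
open Pool.Agent.LibH4 Pool.Agent.LibH4.FA Pool.Agent.Lib_helper5
open scoped NumberField

/-- **the two-parameter family `d = (2ak)² - a`, `a ≡ 3` modulo four** -/
theorem FE.mem {A k d : ℕ} (hA : 1 ≤ A) (hk : 1 ≤ k)
    (hd : (d : ℤ) = (2 * FE.aa A * k) ^ 2 - FE.aa A) (hsq : Squarefree d)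
    (hU : UniqueFactorizationMonoid (𝓞 (KQ d))) :
    d ∈ ([33, 141, 573, 1293, 1757] : List ℕ) := by
  have haa := FE.aa_pos hA
  have hw := FE.w_pos hA hk
  have hA' : (1 : ℤ) ≤ A := by exact_mod_cast hA
  have hk' : (1 : ℤ) ≤ k := by exact_mod_cast hk
  have hdisc : (d : ℤ) = FE.bb A k ^ 2 + 4 * FE.w A k := by rw [hd, FE.disc]
  have h1 : 1 < d := by
    have : (1 : ℤ) < d := by nlinarith [sq_nonneg (FE.bb A k)]
    exact_mod_cast this
  have hB : FE.bb A k % 2 = 1 := by
    have e : FE.bb A k = 2 * (FE.aa A * k) - 1 := by unfold FE.bb; ring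
    omega
  obtain ⟨i1, i2⟩ := ufm_order hsq h1 hdisc hB hU
  have hd4 : d % 8 = 5 ∨ d % 8 = 1 := by
    have e : ∃ s : ℤ, FE.bb A k ^ 2 = 8 * s + 1 := by
      obtain ⟨b, hb⟩ : ∃ b, FE.bb A k = 2 * b + 1 := ⟨FE.bb A k / 2, by omega⟩
      obtain ⟨c, hc⟩ := Int.even_mul_succ_self b
      refine ⟨c, ?_⟩
      rw [hb]
      linear_combination 4 * hc
    obtain ⟨s, hs⟩ := e
    rw [hs] at hdisc
    omega
  rcases hd4 with h8 | h8
  · -- `d ≡ 5` modulo eight
    have hin : ∀ p : ℕ, p.Prime → p ≠ 2 → (p : ℤ) ≠ FE.aa A → (p : ℤ) < FE.w A k →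
        jacobiSym d p = -1 := fun p hp hp2 hpa hpw => FE.inert hA hk hd p hp hp2 hpa hpw
    rcases le_or_gt (FE.w A k) 19 with hs | hs
    · have := FE.small hA hk hd hsq hs h8 hin
      simp only [List.mem_cons, List.not_mem_nil, or_false] at this ⊢
      omega
    · exfalso
      have hin19 : ∀ p : ℕ, p.Prime → p ≠ 2 → p ≤ 19 → (p : ℤ) ≠ FE.aa A →
          jacobiSym d p = -1 := by
        intro p hp hp2 hp19 hpa
        apply hin p hp hp2 hpa
        have : (p : ℤ) ≤ 19 := by exact_mod_cast hp19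
        linarith
      obtain ⟨h7, h455⟩ := stmtElimE A k d hA hk hd h8 hin19 (FE.all hA hk hd h8)
      have j5 := hin19 5 (by norm_num) (by norm_num) (by norm_num) (by unfold FE.aa; omega)
      have j7 := hin19 7 (by norm_num) (by norm_num) (by norm_num) (by exact_mod_cast h7.symm)
      have j13 := hin19 13 (by norm_num) (by norm_num) (by norm_num) (by unfold FE.aa; omega)
      exact noGhost A k d hA hk hd h8 (by exact_mod_cast j5) (by exact_mod_cast j7)
        (by exact_mod_cast j13) h455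
  · -- `d ≡ 1` modulo eight: the prime two is split
    have hw2 : FE.w A k % 2 = 0 := by
      obtain ⟨b, hb⟩ : ∃ b, FE.bb A k = 2 * b + 1 := ⟨FE.bb A k / 2, by omega⟩
      obtain ⟨c, hc⟩ := Int.even_mul_succ_self b
      have hs : FE.bb A k ^ 2 = 8 * c + 1 := by
        rw [hb]
        linear_combination 4 * hc
      rw [hs] at hdisc
      omega
    have h2 := FE.rep_large hA hk 2 Nat.prime_two (t := 0) (by
      simp only [ne_eq, OfNat.ofNat_ne_zero, not_false_eq_true, zero_pow, mul_zero, add_zero,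
        zero_sub, dvd_neg, Nat.cast_ofNat]
      omega)
    rcases h2 with h2 | h2
    · exfalso
      push_cast at h2
      omega
    · -- `w = 2`
      have hw2' : FE.w A k = 2 := by
        push_cast at h2
        omega
      have hAk : A = 1 ∧ k = 1 := by
        unfold FE.w FE.aa at hw2'
        have hk1 : (k : ℤ) = 1 := by nlinarith
        rw [hk1] at hw2'
        constructor <;> omega
      obtain ⟨rfl, rfl⟩ := hAk
      have : (d : ℤ) = 33 := by rw [hd]; unfold FE.aa; norm_num
      have : d = 33 := by exact_mod_cast this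
      simp [this]

/-- `d = 4j² + 1` -/
theorem mem_plus_one {j d : ℕ} (hj : 1 ≤ j) (hd : d = 4 * j ^ 2 + 1) (hsq : Squarefree d)
    (hU : UniqueFactorizationMonoid (𝓞 (KQ d))) :
    d ∈ ([5, 17, 37, 101, 197, 677] : List ℕ) := by
  rcases Nat.lt_or_ge j 2 with h | h
  · have : j = 1 := by omega
    subst this
    simp [hd]
  · obtain ⟨t, rfl⟩ : ∃ t, j = t + 1 := ⟨j - 1, by omega⟩
    have ht : 1 ≤ t := by omega
    have e : d = ((1 ^ 2 + 1) * t + 1) ^ 2 + 4 * (1 + 1 * t) := by rw [hd]; ring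
    have hmem := (periodThree 1 t d le_rfl ht e hsq).1 hU
    have ht22 : t ≤ 21 := by
      by_contra hc
      have hd2 : 1877 < d := by rw [hd]; nlinarith
      simp only [discs, List.mem_cons, List.not_mem_nil, or_false] at hmem
      omega
    clear e hU hsq
    simp only [discs, List.mem_cons, List.not_mem_nil, or_false] at hmem
    simp only [List.mem_cons, List.not_mem_nil, or_false]
    subst hd
    interval_cases t <;> omega

/-- `r ≡ 1` modulo four, `r > 1`: genus theory -/
theorem genus_out {a K d : ℕ} (ha : 1 < a) (ha4 : a % 4 = 1) (hK : 1 ≤ K)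
    (hd : d = a * (4 * (a * K ^ 2) + 1)) (hsq : Squarefree d)
    (hU : UniqueFactorizationMonoid (𝓞 (KQ d))) : False := by
  have h1 : 1 < 4 * (a * K ^ 2) + 1 := by
    have : 0 < a * K ^ 2 := by positivity
    omega
  have hd4 : d % 4 = 1 := by
    rw [hd, Nat.mul_mod, ha4]
    omega
  have hd1 : 1 < d := by rw [hd]; nlinarith
  have hdm : (d : ℤ) = 1 ^ 2 + 4 * (((d / 4 : ℕ) : ℤ)) := by
    have : d = 1 + 4 * (d / 4) := by omega
    have e : (d : ℤ) = ((1 + 4 * (d / 4) : ℕ) : ℤ) := by rw [← this]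
    rw [e]
    push_cast
    ring
  obtain ⟨i1, i2⟩ := ufm_order hsq hd1 hdm (by norm_num) hU
  refine genus_one (m := ((d / 4 : ℕ) : ℤ)) (B := 1) (R := a) (s := 4 * (a * K ^ 2) + 1) ?_ ?_ ha h1
    ha4 (by omega)
  · rw [← hd]; exact hdm
  · rw [← hd]; exact hsq

end Pool.Agent.RDF
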