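import Pool.Agent.RDF.Rep
import Pool.Agent.RDF.NoGhost
import Pool.Agent.Lib_helper5.RDMain
import Pool.Agent.Lib_helper4.PeriodThreeMain

/-!
Discriminants congruent to one modulo four: `d = m² + r`, `r ∣ 4m`, `m` even.
-/

namespace Pool.Agent.RDF

open Finset (range)
open Pool.Agent.LibH4 Pool.Agent.LibH4.FA Pool.Agent.Lib_helper5
open scoped NumberField

lemma jac3 {d : ℕ} (h : jacobiSym d 3 = -1) : d % 3 = 2 := by
  rw [jacobiSym.mod_left] at h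
  have h3 : (d : ℤ) % ((3 : ℕ) : ℤ) = ((d % 3 : ℕ) : ℤ) := by push_cast; rfl
  rw [h3] at h
  have hlt : d % 3 < 3 := Nat.mod_lt _ (by norm_num)
  interval_cases hr : d % 3
  · norm_num at h
  · norm_num at h
  · rfl

lemma jac5 {d : ℕ} (h : jacobiSym d 5 = -1) : d % 5 = 2 ∨ d % 5 = 3 := by
  rw [jacobiSym.mod_left] at h
  have h3 : (d : ℤ) % ((5 : ℕ) : ℤ) = ((d % 5 : ℕ) : ℤ) := by push_cast; rfl
  rw [h3] at h
  have hlt : d % 5 < 5 := Nat.mod_lt _ (by norm_num)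
  interval_cases hr : d % 5
  · norm_num at h
  · norm_num at h
  · left; rfl
  · right; rfl
  · norm_num at h

lemma jac7 {d : ℕ} (h : jacobiSym d 7 = -1) : d % 7 = 3 ∨ d % 7 = 5 ∨ d % 7 = 6 := by
  rw [jacobiSym.mod_left] at h
  have h3 : (d : ℤ) % ((7 : ℕ) : ℤ) = ((d % 7 : ℕ) : ℤ) := by push_cast; rfl
  rw [h3] at h
  have hlt : d % 7 < 7 := Nat.mod_lt _ (by norm_num)
  interval_cases hr : d % 7
  · norm_num at h
  · norm_num at h
  · norm_num at h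
  · left; rfl
  · norm_num at h
  · right; left; rfl
  · right; right; rfl

namespace FE

variable {A k : ℕ}

/-- representations by the edges are large -/
theorem rep_large (hA : 1 ≤ A) (hk : 1 ≤ k)
    [IsDomain (QuadraticAlgebra ℤ (w A k) (bb A k))]
    [UniqueFactorizationMonoid (QuadraticAlgebra ℤ (w A k) (bb A k))]
    (p : ℕ) (hp : p.Prime) {t : ℤ} (ht : (p : ℤ) ∣ t ^ 2 + bb A k * t - w A k) :
    (p : ℤ) = aa A ∨ w A k ≤ p := by
  obtain ⟨j, hj, x, y, hx, hy, he⟩ := even_root (w A k) (bb A k) (by have := w_pos hA hk; omega)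
    (cyc hA hk) 2 rfl (by norm_num) (closing hA hk) (hP1 hA hk) p hp ht
  have hw := w_pos hA hk
  have haa := aa_pos hA
  have hA' : (1 : ℤ) ≤ A := by exact_mod_cast hA
  have hk' : (1 : ℤ) ≤ k := by exact_mod_cast hk
  have hx' : (1 : ℤ) ≤ x := by exact_mod_cast hx
  have hxx : (1 : ℤ) ≤ (x : ℤ) ^ 2 := by nlinarith
  rcases Nat.eq_zero_or_pos y with hy0 | hy0
  · subst hy0
    have he' : P A k j * (x : ℤ) ^ 2 = p := by rw [← he]; push_cast; ring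
    have hP := eq_of_prime_mul_sq hp he'
    interval_cases j <;> simp only [P] at hP
    · right; exact hP.le
    · have := hp.two_le
      omega
    · right; exact hP.le
    · left; exact hP.symm
  · right
    have hy1 : (1 : ℤ) ≤ y := by exact_mod_cast hy0
    have hyc : (y : ℤ) + 1 ≤ c A k j * x := by exact_mod_cast hy
    interval_cases j <;> simp only [P, R, S, c] at he hyc
    · rw [cast_c0 hA hk] at hyc
      have h1 : w A k ≤ w A k * (x : ℤ) ^ 2 := by nlinarith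
      have h2 : 0 ≤ (y : ℤ) * (bb A k * x - y) := mul_nonneg (by linarith) (by linarith)
      nlinarith
    · push_cast at hyc
      have h1 : 0 ≤ w A k * ((y : ℤ) * (2 * x - y) - 1) := by
        apply mul_nonneg (by linarith)
        nlinarith
      have h2 : (1 : ℤ) * x ^ 2 + bb A k * x * y - w A k * y ^ 2
        = w A k * (y * (2 * x - y)) + x ^ 2 + (2 * A - 1) * (x * y) := by unfold w bb; ring
      have h3 : 0 ≤ (2 * (A : ℤ) - 1) * (x * y) := mul_nonneg (by linarith) (by nlinarith)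
      linarith
    · rw [cast_c2 hk] at hyc
      have h1 : w A k ≤ w A k * (x : ℤ) ^ 2 := by nlinarith
      have h2 : 0 ≤ aa A * ((y : ℤ) * ((2 * k - 1) * x - y)) :=
        mul_nonneg (by linarith) (mul_nonneg (by linarith) (by linarith))
      nlinarith
    · push_cast at hyc
      have h1 : 0 ≤ w A k * ((y : ℤ) * (2 * x - y) - 1) := by
        apply mul_nonneg (by linarith)
        nlinarith
      have h2 : aa A * (x : ℤ) ^ 2 + (2 * aa A * k - aa A) * x * y - w A k * y ^ 2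
        = w A k * (y * (2 * x - y)) + x * (aa A * x - (2 * A - 1) * y) := by unfold w aa; ring
      have h3 : 0 ≤ (x : ℤ) * (aa A * x - (2 * A - 1) * y) := by
        apply mul_nonneg (by linarith)
        have h4 : (2 * (A : ℤ) - 1) * y ≤ (2 * A - 1) * (2 * x - 1) :=
          mul_le_mul_of_nonneg_left (by linarith) (by linarith)
        unfold aa
        nlinarith
      linarith

/-- small primes are inert -/
theorem inert (hA : 1 ≤ A) (hk : 1 ≤ k)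
    [IsDomain (QuadraticAlgebra ℤ (w A k) (bb A k))]
    [UniqueFactorizationMonoid (QuadraticAlgebra ℤ (w A k) (bb A k))]
    {d : ℕ} (hd : (d : ℤ) = (2 * aa A * k) ^ 2 - aa A)
    (p : ℕ) (hp : p.Prime) (hp2 : p ≠ 2) (hpa : (p : ℤ) ≠ aa A) (hpw : (p : ℤ) < w A k) :
    jacobiSym d p = -1 := by
  by_contra hj
  obtain ⟨t, ht⟩ := exists_root_of_ne (m := w A k) (B := bb A k) (d := d) (by rw [hd, disc]) hp hp2 hj
  rcases rep_large hA hk p hp ht with h | h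
  · exact hpa h
  · exact absurd hpw (not_lt.2 h)

/-- the finite check -/
def okS (A k : ℕ) : Bool :=
  decide (((2 * (4 * A - 1) * k) ^ 2 - (4 * A - 1)) ∈ ([141, 573, 1293, 1757] : List ℕ)) ||
  decide (¬ (4 * (A : ℤ) - 1) * k - A ≤ 19) ||
  decide (¬ ((2 * (4 * A - 1) * k) ^ 2 - (4 * A - 1)) % 8 = 5) ||
  decide (3 * 3 ∣ ((2 * (4 * A - 1) * k) ^ 2 - (4 * A - 1))) ||
  decide (5 * 5 ∣ ((2 * (4 * A - 1) * k) ^ 2 - (4 * A - 1))) ||
  decide ((3 : ℤ) ≠ 4 * A - 1 ∧ (3 : ℤ) < (4 * A - 1) * k - A ∧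
      ((2 * (4 * A - 1) * k) ^ 2 - (4 * A - 1)) % 3 ≠ 2) ||
  decide ((5 : ℤ) ≠ 4 * A - 1 ∧ (5 : ℤ) < (4 * A - 1) * k - A ∧
      ((2 * (4 * A - 1) * k) ^ 2 - (4 * A - 1)) % 5 ≠ 2 ∧
      ((2 * (4 * A - 1) * k) ^ 2 - (4 * A - 1)) % 5 ≠ 3) ||
  decide ((7 : ℤ) ≠ 4 * A - 1 ∧ (7 : ℤ) < (4 * A - 1) * k - A ∧
      ((2 * (4 * A - 1) * k) ^ 2 - (4 * A - 1)) % 7 ≠ 3 ∧
      ((2 * (4 * A - 1) * k) ^ 2 - (4 * A - 1)) % 7 ≠ 5 ∧
      ((2 * (4 * A - 1) * k) ^ 2 - (4 * A - 1)) % 7 ≠ 6)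

lemma okS_all : ∀ A : ℕ, A < 7 → ∀ k : ℕ, k < 7 → 1 ≤ A → 1 ≤ k → okS A k = true := by
  decide +kernel

/-- the small cases -/
lemma small (hA : 1 ≤ A) (hk : 1 ≤ k) {d : ℕ} (hd : (d : ℤ) = (2 * aa A * k) ^ 2 - aa A)
    (hsq : Squarefree d) (hs : w A k ≤ 19) (h8 : d % 8 = 5)
    (hin : ∀ p : ℕ, p.Prime → p ≠ 2 → (p : ℤ) ≠ aa A → (p : ℤ) < w A k → jacobiSym d p = -1) :
    d ∈ ([141, 573, 1293, 1757] : List ℕ) := by
  have hA' : (1 : ℤ) ≤ A := by exact_mod_cast hA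
  have hk' : (1 : ℤ) ≤ k := by exact_mod_cast hk
  unfold w aa at hs
  have hA6 : A ≤ 6 := by
    have : (A : ℤ) ≤ 6 := by nlinarith
    exact_mod_cast this
  have hk6 : k ≤ 6 := by
    have : (k : ℤ) ≤ 6 := by nlinarith
    exact_mod_cast this
  have hd2 : d = (2 * (4 * A - 1) * k) ^ 2 - (4 * A - 1) := by
    have e1 : ((4 * A - 1 : ℕ) : ℤ) = aa A := cast_aa hA
    have h4 : 1 ≤ 4 * A - 1 := by omega
    have hle : 4 * A - 1 ≤ (2 * (4 * A - 1) * k) ^ 2 := by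
      have : 4 * A - 1 ≤ 2 * (4 * A - 1) * k := by nlinarith
      nlinarith
    zify [hle]
    rw [hd]
    push_cast
    rw [e1]
  have i3 := hin 3 (by norm_num) (by norm_num)
  have i5 := hin 5 (by norm_num) (by norm_num)
  have i7 := hin 7 (by norm_num) (by norm_num)
  clear hin
  have s3 : ¬ 3 * 3 ∣ d := fun h => by
    have := hsq 3 h
    norm_num at this
  have s5 : ¬ 5 * 5 ∣ d := fun h => by
    have := hsq 5 h
    norm_num at this
  have k3 : ((3 : ℕ) : ℤ) ≠ aa A → ((3 : ℕ) : ℤ) < w A k → d % 3 = 2 := fun h1 h2 => jac3 (i3 h1 h2)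
  have k5 : ((5 : ℕ) : ℤ) ≠ aa A → ((5 : ℕ) : ℤ) < w A k → d % 5 = 2 ∨ d % 5 = 3 :=
    fun h1 h2 => jac5 (i5 h1 h2)
  have k7 : ((7 : ℕ) : ℤ) ≠ aa A → ((7 : ℕ) : ℤ) < w A k → d % 7 = 3 ∨ d % 7 = 5 ∨ d % 7 = 6 :=
    fun h1 h2 => jac7 (i7 h1 h2)
  unfold w aa at k3 k5 k7
  rw [hd2] at h8 s3 s5 k3 k5 k7 ⊢
  have key := okS_all A (by omega) k (by omega) hA hk
  unfold okS at key
  by_contra hcon
  have e3 : ¬ ((3 : ℤ) ≠ 4 * A - 1 ∧ (3 : ℤ) < (4 * A - 1) * k - A ∧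
      ((2 * (4 * A - 1) * k) ^ 2 - (4 * A - 1)) % 3 ≠ 2) :=
    fun ⟨h1, h2, h3⟩ => h3 (k3 (by exact_mod_cast h1) (by exact_mod_cast h2))
  have e5 : ¬ ((5 : ℤ) ≠ 4 * A - 1 ∧ (5 : ℤ) < (4 * A - 1) * k - A ∧
      ((2 * (4 * A - 1) * k) ^ 2 - (4 * A - 1)) % 5 ≠ 2 ∧
      ((2 * (4 * A - 1) * k) ^ 2 - (4 * A - 1)) % 5 ≠ 3) := by
    rintro ⟨h1, h2, h3, h4⟩
    rcases k5 (by exact_mod_cast h1) (by exact_mod_cast h2) with h | h
    · exact h3 h
    · exact h4 h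
  have e7 : ¬ ((7 : ℤ) ≠ 4 * A - 1 ∧ (7 : ℤ) < (4 * A - 1) * k - A ∧
      ((2 * (4 * A - 1) * k) ^ 2 - (4 * A - 1)) % 7 ≠ 3 ∧
      ((2 * (4 * A - 1) * k) ^ 2 - (4 * A - 1)) % 7 ≠ 5 ∧
      ((2 * (4 * A - 1) * k) ^ 2 - (4 * A - 1)) % 7 ≠ 6) := by
    rintro ⟨h1, h2, h3, h4, h5⟩
    rcases k7 (by exact_mod_cast h1) (by exact_mod_cast h2) with h | h | h
    · exact h3 h
    · exact h4 h
    · exact h5 h
  rw [decide_eq_false e3, decide_eq_false e5, decide_eq_false e7, decide_eq_false s3,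
    decide_eq_false s5, decide_eq_false hcon, decide_eq_false (not_not.2 h8),
    decide_eq_false (not_not.2 hs)] at key
  exact absurd key (by decide)

end FE

end Pool.Agent.RDF
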