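import Pool.Agent.RDF.Stmts
import Pool.Agent.Lib_helper4.Genus4

/-!
Representations of norms by the edges of an even cycle, for every discriminant; genus theory.
-/

namespace Pool.Agent.RDF

open Finset (range)
open Pool.Agent.LibH4 Pool.Agent.LibH4.FA Pool.Agent.Lib_helper5

lemma dvd_of_congr {m B : ℤ} {n : ℕ} {z w : QuadraticAlgebra ℤ m B}
    (hw : w.norm.natAbs = n) [IsDomain (QuadraticAlgebra ℤ m B)] (hn : n ≠ 0)
    (h : ∃ t : QuadraticAlgebra ℤ m B, z = w + (n : QuadraticAlgebra ℤ m B) * t) : w ∣ z := by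
  obtain ⟨t, ht⟩ := h
  have h1 : ((w.norm : ℤ) : QuadraticAlgebra ℤ m B) = w * star w := intCast_norm_eq w
  rcases Int.natAbs_eq w.norm with h2 | h2
  · have h3 : (n : QuadraticAlgebra ℤ m B) = w * star w := by
      rw [← h1, h2, hw]; simp
    rw [ht, h3]
    exact ⟨1 + star w * t, by ring⟩
  · have h3 : (n : QuadraticAlgebra ℤ m B) = -(w * star w) := by
      rw [← h1, h2, hw]; simp
    rw [ht, h3]
    exact ⟨1 - star w * t, by ring⟩

/-- finitely many classes of given norm -/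
lemma SN_finite (m B : ℤ) [IsDomain (QuadraticAlgebra ℤ m B)] (n : ℕ) (hn : n ≠ 0) :
    (SN m B n).Finite := by
  have : NeZero n := ⟨hn⟩
  let φ : Associates (QuadraticAlgebra ℤ m B) → ZMod n × ZMod n := fun c =>
    ((((Quotient.out c : QuadraticAlgebra ℤ m B).re : ℤ) : ZMod n),
      (((Quotient.out c : QuadraticAlgebra ℤ m B).im : ℤ) : ZMod n))
  apply Set.Finite.of_injOn (f := φ) (t := Set.univ) (fun _ _ => Set.mem_univ _) _ Set.finite_univ
  intro c hc c' hc' hφ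
  have e1 : Associates.mk (Quotient.out c) = c := Quotient.out_eq c
  have e2 : Associates.mk (Quotient.out c') = c' := Quotient.out_eq c'
  set z := (Quotient.out c : QuadraticAlgebra ℤ m B) with hz
  set w := (Quotient.out c' : QuadraticAlgebra ℤ m B) with hw
  have n1 : z.norm.natAbs = n := by
    have : absN c = n := hc
    rw [← e1, absN_mk] at this
    exact this
  have n2 : w.norm.natAbs = n := by
    have : absN c' = n := hc'
    rw [← e2, absN_mk] at this
    exact this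
  have h1 : ((z.re : ℤ) : ZMod n) = (w.re : ℤ) := congrArg Prod.fst hφ
  have h2 : ((z.im : ℤ) : ZMod n) = (w.im : ℤ) := congrArg Prod.snd hφ
  rw [ZMod.intCast_eq_intCast_iff_dvd_sub] at h1 h2
  obtain ⟨s, hs⟩ := h1
  obtain ⟨t, ht⟩ := h2
  have d1 : w ∣ z := by
    apply dvd_of_congr n2 hn
    refine ⟨⟨-s, -t⟩, ?_⟩
    ext
    · simp; linarith
    · simp; linarith
  have d2 : z ∣ w := by
    apply dvd_of_congr n1 hn
    refine ⟨⟨s, t⟩, ?_⟩
    ext
    · simp; linarith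
    · simp; linarith
  rw [← e1, ← e2, Associates.mk_eq_mk_iff_associated]
  exact associated_of_dvd_dvd d2 d1

/-- an element of norm `±n` gives a representation by one of the edges, for every discriminant -/
theorem even_rep' (m B : ℤ) (hm : 0 < m) {K : ℕ}
    {P R S : ℕ → ℤ} {c : ℕ → ℕ} (h : CG.CycM m B K P R S c) (J : ℕ) (hK : K = 2 * J) (hJ : 0 < J)
    (hcl : CG.rho m B c K = CG.rho m B c (K + 1) * CG.om m B)
    (hP1 : ∀ k < K, k ≠ 1 → P k ≠ 1)
    [IsDomain (QuadraticAlgebra ℤ m B)]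
    (n : ℕ) (hn : n ≠ 0) (π : QuadraticAlgebra ℤ m B) (hπ : π.norm.natAbs = n) :
    ∃ k < K, ∃ x y : ℕ, 1 ≤ x ∧ y < c k * x ∧
      P k * (x : ℤ) ^ 2 + R k * x * y - S k * (y : ℤ) ^ 2 = n := by
  have h1 := CG.count_even hm h J hK hJ hcl hP1 n hn
  have h2 := SN_finite m B n hn
  have h3 : (SN m B n).ncard ≠ 0 := by
    rw [Ne, Set.ncard_eq_zero h2, ← Ne, ← Set.nonempty_iff_ne_empty]
    refine ⟨Associates.mk π, ?_⟩
    change absN _ = n
    rw [absN_mk]
    exact hπ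
  rw [h1] at h3
  obtain ⟨k, hk, hk'⟩ := Finset.exists_ne_zero_of_sum_ne_zero h3
  have hne : (edgeSet (P k) (R k) (S k) (c k) n).Nonempty :=
    Set.nonempty_of_ncard_ne_zero hk'
  obtain ⟨⟨x, y⟩, hx, hy, he⟩ := hne
  exact ⟨k, Finset.mem_range.1 hk, x, y, hx, hy, he⟩

/-- a prime that divides a value `x² + Bx - m` is represented by one of the edges -/
theorem even_root (m B : ℤ) (hm : 0 < m) {K : ℕ}
    {P R S : ℕ → ℤ} {c : ℕ → ℕ} (h : CG.CycM m B K P R S c) (J : ℕ) (hK : K = 2 * J) (hJ : 0 < J)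
    (hcl : CG.rho m B c K = CG.rho m B c (K + 1) * CG.om m B)
    (hP1 : ∀ k < K, k ≠ 1 → P k ≠ 1)
    [IsDomain (QuadraticAlgebra ℤ m B)] [UniqueFactorizationMonoid (QuadraticAlgebra ℤ m B)]
    (p : ℕ) (hp : p.Prime) {t : ℤ} (ht : (p : ℤ) ∣ t ^ 2 + B * t - m) :
    ∃ k < K, ∃ x y : ℕ, 1 ≤ x ∧ y < c k * x ∧
      P k * (x : ℤ) ^ 2 + R k * x * y - S k * (y : ℤ) ^ 2 = p := by
  obtain ⟨π, hπ⟩ := exists_norm_of_root hp ht
  exact even_rep' m B hm h J hK hJ hcl hP1 p hp.ne_zero π hπ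

/-- **genus theory**: `d = R s` with `R`, `s` congruent to one modulo four is impossible -/
theorem genus_one {m B : ℤ} [IsDomain (QuadraticAlgebra ℤ m B)]
    [UniqueFactorizationMonoid (QuadraticAlgebra ℤ m B)] {R s : ℕ}
    (hd : ((R * s : ℕ) : ℤ) = B ^ 2 + 4 * m) (hsq : Squarefree (R * s))
    (hR1 : 1 < R) (hs1 : 1 < s) (hR4 : R % 4 = 1) (hs4 : s % 4 = 1) : False := by
  rw [Nat.squarefree_mul_iff] at hsq
  obtain ⟨hcop, hsR, hss⟩ := hsq
  have hR2 : R % 2 = 1 := by omega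
  obtain ⟨l, hlp, hl2, hl4, hlR, hls⟩ := G4.exists_prime hR1 hs1 hR2 (by omega) hsR hss hcop
  have hodl : Odd l := Nat.odd_iff.2 (by omega)
  have hj : jacobiSym ((R * s : ℕ) : ℤ) l = 1 := by
    push_cast
    rw [jacobiSym.mul_left, ← jacobiSym.quadratic_reciprocity_one_mod_four hl4
      (Nat.odd_iff.2 hR2), ← jacobiSym.quadratic_reciprocity_one_mod_four hl4
      (Nat.odd_iff.2 (by omega : s % 2 = 1)), hlR, hls]
    norm_num
  obtain ⟨x, hx⟩ := exists_root_of_ne (m := m) (B := B) (d := R * s)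
    hd hlp (by omega) (by rw [hj]; norm_num)
  obtain ⟨π, hπ⟩ := exists_norm_of_root hlp hx
  have hN : 4 * π.norm = (2 * π.re + B * π.im) ^ 2 - R * s * π.im ^ 2 := by
    have hd' : (R : ℤ) * s = B ^ 2 + 4 * m := by rw [← hd]; push_cast; ring
    rw [QuadraticAlgebra.norm_def, hd']
    ring
  have hsym : jacobiSym (4 * π.norm) R = jacobiSym ((2 * π.re + B * π.im) ^ 2) R := by
    apply jacobiSym.mod_left'
    rw [hN, Int.sub_emod, mul_assoc, Int.mul_emod_right]
    simp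
  rw [jacobiSym.mul_left, jacobiSym.at_four (Nat.odd_iff.2 hR2), one_mul, jacobiSym.pow_left]
    at hsym
  have hneg : jacobiSym (-1) R = 1 := by
    rw [jacobiSym.at_neg_one (Nat.odd_iff.2 hR2), ZMod.χ₄_nat_one_mod_four hR4]
  have hval : jacobiSym π.norm R = -1 := by
    rcases Int.natAbs_eq π.norm with h7 | h7
    · rw [h7, hπ, hlR]
    · rw [h7, hπ, neg_eq_neg_one_mul, jacobiSym.mul_left, hneg, hlR, one_mul]
  rw [hval] at hsym
  nlinarith [sq_nonneg (jacobiSym (2 * π.re + B * π.im) R)]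

end Pool.Agent.RDF
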