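import Pool.Agent.RDF.Ghost

/-!
The smoothed identity of the family `d = (2ak)² - a` when the period divides `k`.
-/

namespace Pool.Agent.RDF

open Finset (range)
open Pool.Agent.LibH4 Pool.Agent.LibH4.FA Pool.Agent.Lib_helper5

section

variable {Q : ℕ} [NeZero Q]

/-- the smoothed weight -/
def bt (Q r : ℕ) : ℤ := (-1) ^ r * ((Q : ℤ) - 2 * r)

/-- the smoothed weight on residues -/
def δ (x : ZMod Q) : ℤ := bt Q x.val

lemma two_half (hQ : Q % 2 = 1) : (2 : ZMod Q) * (((Q + 1) / 2 : ℕ) : ZMod Q) = 1 := by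
  have h : 2 * ((Q + 1) / 2) = Q + 1 := by omega
  have h2 := congrArg (Nat.cast : ℕ → ZMod Q) h
  push_cast at h2
  rw [ZMod.natCast_self, zero_add] at h2
  have h3 : ((2 * ((Q + 1) / 2) : ℕ) : ZMod Q) = ((Q + 1 : ℕ) : ZMod Q) := by rw [h]
  push_cast at h3
  rw [ZMod.natCast_self, zero_add] at h3
  exact h3

/-- doubling -/
def eqD (hQ : Q % 2 = 1) : ZMod Q × ZMod Q ≃ ZMod Q × ZMod Q where
  toFun z := (2 * z.1, 2 * z.2)
  invFun z := ((((Q + 1) / 2 : ℕ) : ZMod Q) * z.1, (((Q + 1) / 2 : ℕ) : ZMod Q) * z.2)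
  left_inv z := by
    have h := two_half hQ
    ext
    · simp only; linear_combination z.1 * h
    · simp only; linear_combination z.2 * h
  right_inv z := by
    have h := two_half hQ
    ext
    · simp only; linear_combination z.1 * h
    · simp only; linear_combination z.2 * h

lemma four_γ (hQ : Q % 2 = 1) (z : ZMod Q) : 4 * γ z - γ (2 * z) = 3 * Q * δ (2 * z) := by
  have hz := ZMod.val_lt z
  have h2 : (2 * z).val = 2 * z.val % Q := by
    have e : (2 * z) = ((2 * z.val : ℕ) : ZMod Q) := by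
      push_cast
      rw [ZMod.natCast_zmod_val]
    rw [e, ZMod.val_natCast]
  unfold γ δ b2Z bt
  rw [h2]
  set r := z.val
  by_cases h : 2 * r < Q
  · rw [Nat.mod_eq_of_lt h, pow_mul]
    push_cast
    ring
  · have e : 2 * r % Q = 2 * r - Q := by
      rw [Nat.mod_eq_sub_mod (by omega), Nat.mod_eq_of_lt (by omega)]
    have hodd : Odd (2 * r - Q) := by rw [Nat.odd_iff]; omega
    rw [e, hodd.neg_one_pow, Nat.cast_sub (by omega)]
    push_cast
    ring

lemma fz_smooth {f : ℤ → ℤ} (hper : ∀ x, f (x + Q) = f x) (x : ZMod Q) :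
    fz Q (fun n => 4 * f (4 * n) - f n) x = 4 * fz Q f (4 * x) - fz Q f x := by
  obtain ⟨n, rfl⟩ := ZMod.intCast_surjective x
  have e : (4 : ZMod Q) * (n : ZMod Q) = ((4 * n : ℤ) : ZMod Q) := by push_cast; rfl
  rw [e, fz_cast hper, fz_cast hper, fz_cast]
  intro x
  have h : f (4 * (x + Q)) = f (4 * x) := by
    rw [mul_add]
    exact per_mulZ hper (4 * x) 4
  rw [h, hper]

/-- smoothing of a weighted sum -/
theorem smooth (hQ : Q % 2 = 1) (A : ℕ) (L : ZMod Q → ZMod Q → ZMod Q)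
    (hL : ∀ x y, L (2 * x) (2 * y) = 2 * L x y)
    (f : ℤ → ℤ) (hper : ∀ x, f (x + Q) = f x) :
    ∑ x : ZMod Q, ∑ y : ZMod Q, fz Q (fun n => 4 * f (4 * n) - f n) (-(FE.N A x y)) * γ (L x y)
      = 3 * Q * ∑ x : ZMod Q, ∑ y : ZMod Q, fz Q f (-(FE.N A x y)) * δ (L x y) := by
  have hN : ∀ x y : ZMod Q, 4 * (-(FE.N A x y)) = -(FE.N A (2 * x) (2 * y)) := by
    intro x y; unfold FE.N; ring
  have e1 := sum2_equiv (eqD hQ) (fun x y : ZMod Q => fz Q f (-(FE.N A x y)) * γ (L x y))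
  have e2 := sum2_equiv (eqD hQ) (fun x y : ZMod Q => fz Q f (-(FE.N A x y)) * δ (L x y))
  rw [e2]
  have e3 : ∀ x y : ZMod Q, fz Q (fun n => 4 * f (4 * n) - f n) (-(FE.N A x y)) * γ (L x y)
      = 4 * (fz Q f (-(FE.N A (2 * x) (2 * y))) * γ (L x y)) - fz Q f (-(FE.N A x y)) * γ (L x y) := by
    intro x y
    rw [fz_smooth hper, hN]
    ring
  simp only [e3, Finset.sum_sub_distrib, ← Finset.mul_sum]
  rw [e1]
  simp only [Finset.mul_sum, ← Finset.sum_sub_distrib, eqD, Equiv.coe_fn_mk]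
  apply Finset.sum_congr rfl
  intro x _
  apply Finset.sum_congr rfl
  intro y _
  rw [hL]
  have := four_γ hQ (L x y)
  linear_combination (fz Q f (-(FE.N A (2 * x) (2 * y)))) * this

end

namespace FE

variable {A k : ℕ} {Q : ℕ} [NeZero Q]

/-- the two ghost sums -/
def G1 (A Q : ℕ) [NeZero Q] (f : ℤ → ℤ) : ℤ :=
  ∑ x : ZMod Q, ∑ y : ZMod Q, fz Q f (-(N A x y)) * δ x

/-- the two ghost sums -/
def G2 (A Q : ℕ) [NeZero Q] (f : ℤ → ℤ) : ℤ :=
  ∑ x : ZMod Q, ∑ y : ZMod Q, fz Q f (-(N A x y)) * δ (x + 2 * y)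

/-- **the exact ghost identity** -/
theorem ghost_identity (hA : 1 ≤ A) (hk : 1 ≤ k)
    [IsDomain (QuadraticAlgebra ℤ (w A k) (bb A k))]
    [UniqueFactorizationMonoid (QuadraticAlgebra ℤ (w A k) (bb A k))]
    {d : ℕ} (hd : (d : ℤ) = (2 * aa A * k) ^ 2 - aa A) (h8 : d % 8 = 5)
    (hQ : Q % 2 = 1) (hcop : Nat.Coprime Q d) {k' : ℕ} (hk' : k = Q * k')
    (f : ℤ → ℤ) (hper : ∀ x, f (x + Q) = f x) (hodd : ∀ x, f (-x) = - f x) :
    - (k' : ℤ) * (aa A * G1 A Q f + G2 A Q f) = HH Q d (fun x => f (4 * x)) := by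
  have hQ0 : 0 < Q := Nat.pos_of_ne_zero (NeZero.ne Q)
  have hd0 : (0 : ℤ) < d := by
    have : 0 < d := by omega
    exact_mod_cast this
  have hperg : ∀ x, (fun n => 4 * f (4 * n) - f n) (x + Q) = (fun n => 4 * f (4 * n) - f n) x := by
    intro x
    have h : f (4 * (x + Q)) = f (4 * x) := by
      rw [mul_add]
      exact per_mulZ hper (4 * x) 4
    simp only
    rw [h, hper]
  have hoddg : ∀ x, (fun n => 4 * f (4 * n) - f n) (-x) = - (fun n => 4 * f (4 * n) - f n) x := by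
    intro x
    simp only
    rw [mul_neg, hodd, hodd]
    ring
  have h1 := ident hA hk hd h8 Q hQ0 hcop (fun n => 4 * f (4 * n) - f n) hperg hoddg
  rw [RZ_smooth f hQ h8 hper hodd, LL_ghost hA hk ⟨k', hk'⟩ (fun n => 4 * f (4 * n) - f n) hperg hoddg,
    smooth hQ A (fun x _ => x) (fun _ _ => rfl) f hper,
    smooth hQ A (fun x y => x + 2 * y) (fun x y => by ring) f hper] at h1
  have hkz : (k : ℤ) = Q * k' := by rw [hk']; push_cast; ring
  have hQz : (0 : ℤ) < Q := by exact_mod_cast hQ0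
  have h2 : (12 * (Q : ℤ) ^ 2 * d) * (- (k' : ℤ) * (aa A * G1 A Q f + G2 A Q f))
      = (12 * (Q : ℤ) ^ 2 * d) * HH Q d (fun x => f (4 * x)) := by
    unfold G1 G2
    rw [hkz] at h1
    linear_combination h1
  exact mul_left_cancel₀ (by positivity) h2

end FE

end Pool.Agent.RDF
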