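import Pool.Agent.RDF.Hensel

/-!
Elementary sums: products over residues, sums of powers, the weight sum.
-/

namespace Pool.Agent.RDF

open Finset (range)

/-- sums over residues modulo a product of coprime numbers -/
lemma crt_sum {R : Type*} [CommSemiring R] {a b : ℕ} (ha : 0 < a) (hb : 0 < b)
    (hab : Nat.Coprime a b) (g h : ℕ → R) :
    ∑ u ∈ range (a * b), g (u % a) * h (u % b) = (∑ i ∈ range a, g i) * (∑ j ∈ range b, h j) := by
  rw [Finset.sum_mul_sum, ← Finset.sum_product']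
  apply Finset.sum_nbij (fun u => (u % a, u % b))
  · intro u _
    simp only [Finset.mem_product, Finset.mem_range]
    exact ⟨Nat.mod_lt _ ha, Nat.mod_lt _ hb⟩
  · intro x hx y hy hxy
    have hx' := Finset.mem_range.1 (Finset.mem_coe.1 hx)
    have hy' := Finset.mem_range.1 (Finset.mem_coe.1 hy)
    have h1 : x % a = y % a := congrArg Prod.fst hxy
    have h2 : x % b = y % b := congrArg Prod.snd hxy
    have h3 : x ≡ y [MOD a * b] := (Nat.modEq_and_modEq_iff_modEq_mul hab).1 ⟨h1, h2⟩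
    have h4 : x % (a * b) = y % (a * b) := h3
    rwa [Nat.mod_eq_of_lt hx', Nat.mod_eq_of_lt hy'] at h4
  · rintro ⟨i, j⟩ hij
    simp only [Finset.coe_product, Set.mem_prod, Finset.mem_coe, Finset.mem_range] at hij
    obtain ⟨k, hk1, hk2⟩ := Nat.chineseRemainder hab i j
    refine ⟨k % (a * b), Finset.mem_coe.2 (Finset.mem_range.2 (Nat.mod_lt _ (Nat.mul_pos ha hb))), ?_⟩
    simp only [Prod.mk.injEq]
    constructor
    · rw [Nat.mod_mul_right_mod]
      have : k % a = i % a := hk1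
      rw [this, Nat.mod_eq_of_lt hij.1]
    · rw [Nat.mod_mul_left_mod]
      have : k % b = j % b := hk2
      rw [this, Nat.mod_eq_of_lt hij.2]
  · intro u _; rfl

/-- expansion of a power -/
lemma pow_expand (i c : ℤ) (m : ℕ) : ∃ D : ℤ, ∀ y : ℤ, ∃ s : ℤ,
    ((i + y) ^ 2 + c) ^ m = (i ^ 2 + c) ^ m + y * D + y ^ 2 * s := by
  induction m with
  | zero => exact ⟨0, fun y => ⟨0, by simp⟩⟩
  | succ m ih =>
    obtain ⟨D, hD⟩ := ih
    refine ⟨D * (i ^ 2 + c) + 2 * i * (i ^ 2 + c) ^ m, fun y => ?_⟩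
    obtain ⟨s, hs⟩ := hD y
    refine ⟨s * (i ^ 2 + c) + (i ^ 2 + c) ^ m + 2 * i * D + y * D + 2 * i * y * s + y ^ 2 * s, ?_⟩
    rw [pow_succ, hs]
    ring

/-- sums of powers over residues modulo a power of five -/
lemma sum_pow_step (c : ℤ) (m n : ℕ) : (5 : ℤ) ^ (n + 2) ∣
    ∑ j ∈ range (5 ^ (n + 2)), ((j : ℤ) ^ 2 + c) ^ m - 5 * ∑ j ∈ range (5 ^ (n + 1)), ((j : ℤ) ^ 2 + c) ^ m := by
  have e : 5 ^ (n + 2) = 5 ^ (n + 1) * 5 := by ring
  have e1 : ∀ (N : ℕ) (g : ℕ → ℤ), ∑ j ∈ range (N * 5), g j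
      = ∑ i ∈ range N, (g i + g (N + i) + g (2 * N + i) + g (3 * N + i) + g (4 * N + i)) := by
    intro N g
    have : N * 5 = N + N + N + N + N := by ring
    rw [this, Finset.sum_range_add, Finset.sum_range_add, Finset.sum_range_add,
      Finset.sum_range_add]
    simp only [Finset.sum_add_distrib]
    congr 1
    · congr 1
      · congr 1
        apply Finset.sum_congr rfl
        intro i _
        congr 1
        ring
      · apply Finset.sum_congr rfl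
        intro i _
        congr 1
        ring
    · apply Finset.sum_congr rfl
      intro i _
      congr 1
      ring
  rw [e, e1, Finset.mul_sum, ← Finset.sum_sub_distrib]
  apply Finset.dvd_sum
  intro i _
  obtain ⟨D, hD⟩ := pow_expand i c m
  obtain ⟨z, hz⟩ : ∃ z : ℤ, z = 5 ^ n := ⟨_, rfl⟩
  have hN : ((5 ^ (n + 1) : ℕ) : ℤ) = 5 * z := by rw [hz]; push_cast; ring
  have hM : ((5 ^ (n + 1) * 5 : ℕ) : ℤ) = 25 * z := by rw [hz]; push_cast; ring
  obtain ⟨s1, h1⟩ := hD (5 * z)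
  obtain ⟨s2, h2⟩ := hD (2 * (5 * z))
  obtain ⟨s3, h3⟩ := hD (3 * (5 * z))
  obtain ⟨s4, h4⟩ := hD (4 * (5 * z))
  have c1 : (((5 ^ (n + 1) + i : ℕ) : ℤ)) = i + 5 * z := by rw [Nat.cast_add, hN]; ring
  have c2 : (((2 * 5 ^ (n + 1) + i : ℕ) : ℤ)) = i + 2 * (5 * z) := by
    rw [Nat.cast_add, Nat.cast_mul, hN]; push_cast; ring
  have c3 : (((3 * 5 ^ (n + 1) + i : ℕ) : ℤ)) = i + 3 * (5 * z) := by
    rw [Nat.cast_add, Nat.cast_mul, hN]; push_cast; ring
  have c4 : (((4 * 5 ^ (n + 1) + i : ℕ) : ℤ)) = i + 4 * (5 * z) := by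
    rw [Nat.cast_add, Nat.cast_mul, hN]; push_cast; ring
  rw [c1, c2, c3, c4, h1, h2, h3, h4]
  have hz5 : (5 : ℤ) ^ (n + 2) = 25 * z := by rw [hz]; ring
  rw [hz5]
  refine ⟨2 * D + z * (s1 + 4 * s2 + 9 * s3 + 16 * s4), ?_⟩
  ring

lemma sum_pow (c : ℤ) {m : ℕ} (hm : m % 4 = 2) (n : ℕ) : (5 : ℤ) ^ (n + 1) ∣
    ∑ j ∈ range (5 ^ (n + 1)), ((j : ℤ) ^ 2 + c) ^ m + 5 ^ n := by
  induction n with
  | zero =>
    have h5 : ((∑ j ∈ range (5 ^ 1), ((j : ℤ) ^ 2 + c) ^ m + 5 ^ 0 : ℤ) : ZMod 5) = 0 := by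
      push_cast
      have hz : ∀ (z : ZMod 5) (i : ℕ), z ^ (2 + 4 * i) = z ^ 2 := by
        intro z i
        induction i with
        | zero => simp
        | succ i ih =>
          have e : 2 + 4 * (i + 1) = (2 + 4 * i) + 4 := by ring
          rw [e, pow_add, ih]
          have h6 : ∀ z : ZMod 5, z ^ 2 * z ^ 4 = z ^ 2 := by decide
          exact h6 z
      obtain ⟨i, hi⟩ : ∃ i, m = 2 + 4 * i := ⟨m / 4, by omega⟩
      rw [hi]
      simp only [hz]
      have key : ∀ z : ZMod 5, ∑ j ∈ range (5 ^ 1), ((j : ZMod 5) ^ 2 + z) ^ 2 + 5 ^ 0 = 0 := by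
        decide
      exact key c
    have := (ZMod.intCast_zmod_eq_zero_iff_dvd _ 5).1 h5
    simpa using this
  | succ n ih =>
    have h1 := sum_pow_step c m n
    obtain ⟨t, ht⟩ := ih
    obtain ⟨s, hs⟩ := h1
    refine ⟨s + t, ?_⟩
    have e1 : (5 : ℤ) ^ (n + 2) = 5 * 5 ^ (n + 1) := by ring
    have e2 : (5 : ℤ) ^ (n + 1 + 1) = 5 * 5 ^ (n + 1) := by ring
    rw [e1] at hs
    rw [e2]
    have e3 : (5 : ℤ) ^ (n + 1) = 5 * 5 ^ n := by ring
    linear_combination hs + 5 * ht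

/-- the weight sum -/
lemma bt_sum_aux (c : ℤ) (h : ℕ) : ∑ x ∈ range (2 * h + 1), (-1 : ℤ) ^ x * (c - 2 * x) = c - 2 * h := by
  induction h with
  | zero => simp
  | succ h ih =>
    rw [show 2 * (h + 1) + 1 = 2 * h + 1 + 1 + 1 by ring, Finset.sum_range_succ,
      Finset.sum_range_succ, ih]
    have e1 : (-1 : ℤ) ^ (2 * h + 1) = -1 := by rw [pow_succ, pow_mul]; simp
    have e2 : (-1 : ℤ) ^ (2 * h + 1 + 1) = 1 := by rw [pow_succ, e1]; norm_num
    rw [e1, e2]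
    push_cast
    ring

lemma bt_sum {Q : ℕ} (hQ : Q % 2 = 1) : ∑ x ∈ range Q, bt Q x = 1 := by
  obtain ⟨h, rfl⟩ : ∃ h, Q = 2 * h + 1 := ⟨Q / 2, by omega⟩
  unfold bt
  rw [bt_sum_aux]
  push_cast
  ring

/-- the weight sum over multiples -/
lemma bt_sum_dvd {t Q : ℕ} (ht : t % 2 = 1) (hQ : Q % 2 = 1) :
    ∑ x ∈ range (t * Q), (if t ∣ x then bt (t * Q) x else 0) = t := by
  have ht0 : 0 < t := by omega
  rw [← Finset.sum_filter]
  have e : (range (t * Q)).filter (fun x => t ∣ x) = (range Q).image (fun y => t * y) := by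
    ext x
    simp only [Finset.mem_filter, Finset.mem_range, Finset.mem_image]
    constructor
    · rintro ⟨h1, y, rfl⟩
      exact ⟨y, Nat.lt_of_mul_lt_mul_left h1, rfl⟩
    · rintro ⟨y, h1, rfl⟩
      exact ⟨Nat.mul_lt_mul_of_pos_left h1 ht0, Dvd.intro y rfl⟩
  rw [e, Finset.sum_image (fun x _ y _ h => Nat.eq_of_mul_eq_mul_left ht0 h)]
  have e2 : ∀ y ∈ range Q, bt (t * Q) (t * y) = t * bt Q y := by
    intro y _
    unfold bt
    have hodd : Odd t := Nat.odd_iff.2 ht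
    rw [pow_mul, hodd.neg_one_pow]
    push_cast
    ring
  rw [Finset.sum_congr rfl e2, ← Finset.mul_sum, bt_sum hQ, mul_one]

/-- the quadratic character sums -/
lemma T7_sum : ∀ c : ZMod 7, ∑ i ∈ range 7, T7 ((i : ZMod 7) ^ 2 + c) = if c = 0 then 6 else -1 := by
  decide
lemma T13_sum : ∀ c : ZMod 13,
    ∑ i ∈ range 13, T13 ((i : ZMod 13) ^ 2 + c) = if c = 0 then 12 else -1 := by
  decide +kernel

lemma chi_sum (n : ℤ) : ∑ i ∈ range 91, chi ((i : ℤ) ^ 2 + n)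
    = (if (7 : ℤ) ∣ n then 6 else -1) * (if (13 : ℤ) ∣ n then 12 else -1) := by
  have h := crt_sum (R := ℤ) (a := 7) (b := 13) (by norm_num) (by norm_num) (by norm_num)
    (fun i => T7 ((i : ZMod 7) ^ 2 + n)) (fun i => T13 ((i : ZMod 13) ^ 2 + n))
  rw [T7_sum, T13_sum] at h
  have e1 : ((n : ZMod 7) = 0) ↔ (7 : ℤ) ∣ n := by
    have := ZMod.intCast_zmod_eq_zero_iff_dvd n 7
    exact_mod_cast this
  have e2 : ((n : ZMod 13) = 0) ↔ (13 : ℤ) ∣ n := by
    have := ZMod.intCast_zmod_eq_zero_iff_dvd n 13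
    exact_mod_cast this
  simp only [e1, e2] at h
  rw [← h]
  apply Finset.sum_congr rfl
  intro i _
  unfold chi
  push_cast
  rw [ZMod.natCast_mod, ZMod.natCast_mod]

end Pool.Agent.RDF
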